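import Pool.Agent.FNS.AxC
import Pool.Agent.FNS.Ax2

/-!
# FNY/Ax1m: exponential functions with several `v` (project SYS, c9768e)
-/

set_option autoImplicit false

namespace Pool.Agent.FNY

open Pool.Agent.FNS

theorem ax1m_const {L : Type} [Field L] [CharZero L] (δ : Derivation ℤ L L)
    (B : Subfield L) (hB : ∀ x ∈ B, δ x ∈ B) (hC : ∀ x, δ x = 0 → x ∈ B) {ρ m : ℕ}
    (Y : Fin ρ → L) (hY : ∀ j, Y j ≠ 0) (v : Fin m → L) (ν : Fin ρ → Fin m → L)
    (hν : ∀ j k, δ (ν j k) = 0) (hYv : ∀ j, δ (Y j) = (∑ k, ν j k * v k) * Y j)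
    (hn : ∀ S : Finset (Fin ρ), ρ ≤ S.card + m → ¬ AlgebraicIndepOn B Y (S : Set (Fin ρ))) :
    ∃ μ : Fin ρ → L, μ ≠ 0 ∧ (∀ j, δ (μ j) = 0) ∧
      ∀ d : Derivation B L L, ∑ j, μ j * (d (Y j) / Y j) = 0 := by
  classical
  -- a maximal independent set
  obtain ⟨s, hs, hmax⟩ : ∃ s : Finset (Fin ρ), AlgebraicIndepOn B Y (s : Set (Fin ρ)) ∧
      ∀ t : Finset (Fin ρ), AlgebraicIndepOn B Y (t : Set (Fin ρ)) → t.card ≤ s.card := by
    have h0 : (Finset.univ.filter fun t : Finset (Fin ρ) =>
        AlgebraicIndepOn B Y (t : Set (Fin ρ))).Nonempty := by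
      refine ⟨∅, ?_⟩
      rw [Finset.mem_filter]
      refine ⟨Finset.mem_univ _, ?_⟩
      unfold AlgebraicIndepOn
      rw [Finset.coe_empty]
      exact algebraicIndependent_empty_type
    obtain ⟨s, hs, h⟩ := Finset.exists_max_image _ Finset.card h0
    exact ⟨s, (Finset.mem_filter.1 hs).2, fun t ht =>
      h t (Finset.mem_filter.2 ⟨Finset.mem_univ _, ht⟩)⟩
  have hcard : s.card + m < ρ := by
    by_contra hcon
    exact hn s (not_lt.1 hcon) hs
  -- the functionals of `s` generate all
  have hspan : ∀ j, ∃ c : s → L, ∑ i, c i • ld B (Y i) = ld B (Y j) := by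
    intro j
    have h1 : ld B (Y j) ∈ Submodule.span L (Set.range fun i : s => ld B (Y i)) := by
      apply mem_span_of_iInf_ker_le_ker
      intro d hd
      rw [Submodule.mem_iInf] at hd
      have h2 : ∀ i ∈ s, d (Y i) = 0 := by
        intro i hi
        have h3 := hd ⟨i, hi⟩
        rw [LinearMap.mem_ker] at h3
        exact (div_eq_zero_iff.1 h3).resolve_right (hY i)
      rw [LinearMap.mem_ker]
      have h4 : d (Y j) = 0 := by
        by_cases hj : j ∈ s
        · exact h2 j hj
        · refine der_alg0 d (Y '' (s : Set (Fin ρ))) ?_ ?_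
          · rintro _ ⟨i, hi, rfl⟩
            exact h2 i hi
          · by_contra htr
            have h5 : AlgebraicIndepOn B Y (insert j (s : Set (Fin ρ))) :=
              (AlgebraicIndepOn.insert_iff (by simpa using hj)).2 ⟨hs, htr⟩
            have h6 := hmax (insert j s) (by rw [Finset.coe_insert]; exact h5)
            rw [Finset.card_insert_of_notMem hj] at h6
            omega
      change d (Y j) / Y j = 0
      rw [h4, zero_div]
    exact (Submodule.mem_span_range_iff_exists_fun L).1 h1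
  choose c hc using hspan
  -- the stable subspace
  let W : Submodule L (Fin ρ → L) :=
    { carrier := {f | (∀ d : Derivation B L L, ∑ j, f j * (d (Y j) / Y j) = 0) ∧
        ∀ k, ∑ j, f j * ν j k = 0}
      add_mem' := by
        rintro f g ⟨h1, h2⟩ ⟨h3, h4⟩
        refine ⟨fun d => ?_, fun k => ?_⟩
        · simp only [Pi.add_apply, add_mul, Finset.sum_add_distrib, h1 d, h3 d, add_zero]
        · simp only [Pi.add_apply, add_mul, Finset.sum_add_distrib, h2 k, h4 k, add_zero]
      zero_mem' := ⟨fun d => by simp, fun k => by simp⟩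
      smul_mem' := by
        rintro a f ⟨h1, h2⟩
        refine ⟨fun d => ?_, fun k => ?_⟩
        · simp only [Pi.smul_apply, smul_eq_mul, mul_assoc, ← Finset.mul_sum, h1 d, mul_zero]
        · simp only [Pi.smul_apply, smul_eq_mul, mul_assoc, ← Finset.mul_sum, h2 k, mul_zero] }
  have hWmem : ∀ f, f ∈ W ↔ (∀ d : Derivation B L L, ∑ j, f j * (d (Y j) / Y j) = 0) ∧
      ∀ k, ∑ j, f j * ν j k = 0 := fun _ => Iff.rfl
  have hW0 : W ≠ ⊥ := by
    let Ψ : (Fin ρ → L) →ₗ[L] ((s → L) × (Fin m → L)) :=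
      { toFun := fun f => (fun i => ∑ j, f j * c j i, fun k => ∑ j, f j * ν j k)
        map_add' := fun f g => by
          ext i
          · simp [add_mul, Finset.sum_add_distrib]
          · simp [add_mul, Finset.sum_add_distrib]
        map_smul' := fun a f => by
          ext i
          · simp [mul_assoc, ← Finset.mul_sum]
          · simp [mul_assoc, ← Finset.mul_sum] }
    have hk : LinearMap.ker Ψ ≠ ⊥ := by
      apply LinearMap.ker_ne_bot_of_finrank_lt
      rw [Module.finrank_prod, Module.finrank_fintype_fun_eq_card, Module.finrank_fin_fun,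
        Module.finrank_fin_fun, Fintype.card_coe]
      exact hcard
    obtain ⟨f, hf, hf0⟩ := (Submodule.ne_bot_iff _).1 hk
    refine (Submodule.ne_bot_iff _).2 ⟨f, ?_, hf0⟩
    rw [LinearMap.mem_ker] at hf
    have hf1 : ∀ i, ∑ j, f j * c j i = 0 := fun i => congrFun (congrArg Prod.fst hf) i
    have hf2 : ∀ k, ∑ j, f j * ν j k = 0 := fun k => congrFun (congrArg Prod.snd hf) k
    refine (hWmem f).2 ⟨fun d => ?_, hf2⟩
    have h1 : ∀ j, d (Y j) / Y j = ∑ i, c j i * (d (Y (i : Fin ρ)) / Y i) := by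
      intro j
      have h2 := LinearMap.congr_fun (hc j) d
      rw [LinearMap.sum_apply] at h2
      exact h2.symm
    calc ∑ j, f j * (d (Y j) / Y j) = ∑ j, ∑ i, f j * c j i * (d (Y (i : Fin ρ)) / Y i) := by
          refine Finset.sum_congr rfl fun j _ => ?_
          rw [h1 j, Finset.mul_sum]
          exact Finset.sum_congr rfl fun i _ => by ring
      _ = ∑ i, (∑ j, f j * c j i) * (d (Y (i : Fin ρ)) / Y i) := by
          rw [Finset.sum_comm]
          exact Finset.sum_congr rfl fun i _ => by rw [Finset.sum_mul]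
      _ = 0 := Finset.sum_eq_zero fun i _ => by rw [hf1 i, zero_mul]
  have hWδ : ∀ f ∈ W, (fun j => δ (f j)) ∈ W := by
    intro f hf
    obtain ⟨h1, h2⟩ := (hWmem f).1 hf
    refine (hWmem _).2 ⟨fun d => ?_, fun k => ?_⟩
    · have h3 := congrArg δ (h1 d)
      rw [map_zero, map_sum] at h3
      have h4 : ∀ j, δ (f j * (d (Y j) / Y j)) = δ (f j) * (d (Y j) / Y j) +
          (f j * ((br δ B hB d) (Y j) / Y j) + ∑ k, f j * ν j k * d (v k)) := by
        intro j
        have h5 : δ (d (Y j)) = (br δ B hB d) (Y j) + d (δ (Y j)) := by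
          rw [br_apply]
          ring
        have h6 : d (δ (Y j)) = (∑ k, ν j k * d (v k)) * Y j +
            (∑ k, ν j k * v k) * d (Y j) := by
          have h7 : ∀ k, d (ν j k * v k) = ν j k * d (v k) := by
            intro k
            have h7 : d (ν j k) = 0 := d.map_algebraMap ⟨ν j k, hC _ (hν j k)⟩
            rw [d.leibniz, h7]
            simp only [smul_eq_mul]
            ring
          rw [hYv j, d.leibniz, map_sum, Finset.sum_congr rfl fun k _ => h7 k]
          simp only [smul_eq_mul]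
          ring
        have h8 : δ ((Y j)⁻¹) = - (Y j)⁻¹ ^ 2 * δ (Y j) := by
          rw [Derivation.leibniz_inv]
          simp
        have h9 : ∑ k, f j * ν j k * d (v k) = f j * ∑ k, ν j k * d (v k) := by
          rw [Finset.mul_sum]
          exact Finset.sum_congr rfl fun k _ => by ring
        have hYj := hY j
        rw [div_eq_mul_inv, δ.leibniz, δ.leibniz, h8, h5, h6, hYv j, h9]
        simp only [smul_eq_mul]
        field_simp
        ring
      have h10 : ∑ j, ∑ k, f j * ν j k * d (v k) = 0 := by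
        rw [Finset.sum_comm]
        refine Finset.sum_eq_zero fun k _ => ?_
        rw [← Finset.sum_mul, h2 k, zero_mul]
      rw [Finset.sum_congr rfl fun j _ => h4 j, Finset.sum_add_distrib, Finset.sum_add_distrib,
        h1 (br δ B hB d), h10] at h3
      simpa using h3
    · have h3 := congrArg δ (h2 k)
      rw [map_zero, map_sum] at h3
      rw [← h3]
      refine Finset.sum_congr rfl fun j _ => ?_
      rw [δ.leibniz, hν j k]
      simp only [smul_eq_mul]
      ring
  obtain ⟨μ, hμ, hμ0, hμc⟩ := const_vec δ W hWδ hW0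
  exact ⟨μ, hμ0, hμc, ((hWmem μ).1 hμ).1⟩

/-- exponential functions with `m` exponents `v k`, multiplicatively independent modulo algebraic
functions: some `ρ - m` of them are algebraically independent -/
theorem ax1m {L : Type} [Field L] [CharZero L] [IsAlgClosed L] (δ : Derivation ℤ L L)
    (B : Subfield L) (hB : ∀ x ∈ B, δ x ∈ B) (hC : ∀ x, δ x = 0 → x ∈ B) {ρ m : ℕ}
    (Y : Fin ρ → L) (hY : ∀ j, Y j ≠ 0) (v : Fin m → L) (ν : Fin ρ → Fin m → L)
    (hν : ∀ j k, δ (ν j k) = 0) (hYv : ∀ j, δ (Y j) = (∑ k, ν j k * v k) * Y j)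
    (hn : ∀ e : Fin ρ → ℤ, e ≠ 0 → ¬ IsAlgebraic B (∏ j, Y j ^ e j)) :
    ∃ S : Finset (Fin ρ), ρ ≤ S.card + m ∧ AlgebraicIndependent B fun j : S => Y j := by
  by_contra hcon
  push Not at hcon
  obtain ⟨μ, hμ0, hμc, hμ⟩ := ax1m_const δ B hB hC Y hY v ν hν hYv fun S hS h => hcon S hS h
  obtain ⟨e, he, hal⟩ := ax2 B Y hY μ (fun j => hC _ (hμc j)) hμ0 hμ
  exact hn e he hal

end Pool.Agent.FNY
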