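import Mathlib
import Pool.Agent.FNS.Pairs

/-! # SYS, page 3 (e), (f): pairs of values, systems -/

set_option autoImplicit false

namespace Pool.Agent.FNY

open MvPolynomial Pool.Agent.FN Pool.Agent.FNX Pool.Agent.FNR Pool.Agent.FNS

section clear

variable {G : Type} [Field G] {C A : Subfield G} {τ ι : Type}

/-- clearing denominators -/
theorem pm_clear (x' : τ → G)
    (hA : ∀ z ∈ A, ∃ P W : MvPolynomial τ C, aeval x' W ≠ 0 ∧ aeval x' W * z = aeval x' P)
    (p : MvPolynomial ι A) : ∃ (W : MvPolynomial τ C) (h : MvPolynomial (τ ⊕ ι) C),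
      aeval x' W ≠ 0 ∧ ∀ Z : ι → G, aeval (Sum.elim x' Z) h = aeval x' W * aeval Z p := by
  induction p using MvPolynomial.induction_on with
  | C z =>
    obtain ⟨P, W, hW, hP⟩ := hA z z.2
    refine ⟨W, rename Sum.inl P, hW, fun Z => ?_⟩
    rw [aeval_rename, Sum.elim_comp_inl,
      show (MvPolynomial.C z : MvPolynomial ι A) = algebraMap A _ z from rfl,
      (aeval Z : MvPolynomial ι A →ₐ[A] G).commutes, ← hP]
    rfl
  | add p q hp hq =>
    obtain ⟨W1, h1, hW1, e1⟩ := hp
    obtain ⟨W2, h2, hW2, e2⟩ := hq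
    refine ⟨W1 * W2, h1 * rename Sum.inl W2 + h2 * rename Sum.inl W1, ?_, fun Z => ?_⟩
    · rw [map_mul]
      exact mul_ne_zero hW1 hW2
    · rw [map_add, map_mul, map_mul, aeval_rename, aeval_rename, Sum.elim_comp_inl, e1, e2,
        map_mul, map_add]
      ring
  | mul_X p i hp =>
    obtain ⟨W1, h1, hW1, e1⟩ := hp
    refine ⟨W1, h1 * X (Sum.inr i), hW1, fun Z => ?_⟩
    rw [map_mul, e1, aeval_X, map_mul, aeval_X, Sum.elim_inr]
    ring

end clear

section ee

variable {G : Type} [Field G] [CharZero G] {C A B : Subfield G} {τ : Type} {ρ : ℕ}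

/-- part (e) -/
theorem pm_e (hCB : C ≤ B) (x x' : τ → G) (hx : ∀ w, x w ∈ B)
    (hab : ∀ P : MvPolynomial τ C, aeval x P = 0 → aeval x' P = 0) (Y Y' : Fin ρ → G)
    (hS : ∀ P : MvPolynomial (τ ⊕ Fin ρ) C,
      aeval (Sum.elim x' Y') P = 0 → aeval (Sum.elim x Y) P = 0)
    (hCA : C ≤ A) (hx' : ∀ w, x' w ∈ A)
    (hA : ∀ z ∈ A, ∃ P W : MvPolynomial τ C, aeval x' W ≠ 0 ∧ aeval x' W * z = aeval x' P)
    (S : Finset (Fin ρ)) (hind : AlgebraicIndependent B fun j : S => Y j)
    (hmax : ∀ T : Finset (Fin ρ), AlgebraicIndependent A (fun j : T => Y' j) → T.card ≤ S.card)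
    (F : MvPolynomial (τ ⊕ Fin ρ) C) (hF : aeval (Sum.elim x Y) F = 0) :
    aeval (Sum.elim x' Y') F = 0 := by
  classical
  -- `Y'` is independent over `A` on `S`
  have hind' : AlgebraicIndependent A fun j : S => Y' j := by
    rw [algebraicIndependent_iff]
    intro p hp
    obtain ⟨W, h, hW, e1⟩ := pm_clear x' hA p
    have h1 : aeval (Sum.elim x' Y') (rename (Sum.map id (Subtype.val : S → Fin ρ)) h) = 0 := by
      rw [aeval_rename]
      have h2 := e1 fun j : S => Y' j
      rw [hp, mul_zero] at h2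
      rw [← h2]
      congr 1
      congr 1
      funext v
      rcases v with w | j <;> rfl
    have h2 := hS _ h1
    have h3 : aeval (Sum.elim x fun j : S => Y j) h = 0 := by
      rw [aeval_rename] at h2
      rw [← h2]
      congr 1
      congr 1
      funext v
      rcases v with w | j <;> rfl
    have h4 : ∀ Z : S → G, aeval Z p = 0 := by
      intro Z
      have h5 := prs_ind hCB x x' hx (fun j : S => Y j) Z hind hab h h3
      rw [e1] at h5
      exact (mul_eq_zero.1 h5).resolve_left hW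
    have h6 : MvPolynomial.map (algebraMap A G) p = 0 := by
      apply MvPolynomial.funext
      intro Z
      rw [eval_map, map_zero]
      exact h4 Z
    exact MvPolynomial.map_injective _ (algebraMap A G).injective (by rw [h6, map_zero])
  let T : Subalgebra A G := Algebra.adjoin A (Set.range fun j : S => Y' j)
  have hin : ∀ z : G, z ∈ T → IsAlgebraic T z := fun z hz => isAlgebraic_algebraMap (⟨z, hz⟩ : T)
  have hAT : ∀ z : G, z ∈ A → z ∈ T := fun z hz => T.algebraMap_mem (⟨z, hz⟩ : A)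
  have halgY : ∀ j, IsAlgebraic T (Y' j) := by
    intro j
    by_cases hj : j ∈ S
    · exact hin _ (Algebra.subset_adjoin ⟨⟨j, hj⟩, rfl⟩)
    · by_contra htr
      have h1 := (hind'.option_iff_transcendental (Y' j)).2 htr
      let f : ↥(insert j S) → Option S := fun i =>
        if h : i.1 ∈ S then some ⟨i.1, h⟩ else none
      have hf : Function.Injective f := by
        intro i i' hii
        simp only [f] at hii
        have hi := i.2
        have hi' := i'.2
        rw [Finset.mem_insert] at hi hi'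
        by_cases h2 : i.1 ∈ S
        · by_cases h3 : i'.1 ∈ S
          · rw [dif_pos h2, dif_pos h3] at hii
            have h4 := Option.some.inj hii
            have h5 : (i.1 : Fin ρ) = i'.1 := congrArg (fun z : S => (z.1 : Fin ρ)) h4
            exact Subtype.ext h5
          · rw [dif_pos h2, dif_neg h3] at hii
            exact absurd hii (by simp)
        · by_cases h3 : i'.1 ∈ S
          · rw [dif_neg h2, dif_pos h3] at hii
            exact absurd hii (by simp)
          · exact Subtype.ext ((hi.resolve_right h2).trans (hi'.resolve_right h3).symm)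
      have h2 := h1.comp f hf
      have h3 : (fun o : Option S => o.elim (Y' j) fun j : S => Y' j) ∘ f =
          fun i : ↥(insert j S) => Y' i := by
        funext i
        simp only [Function.comp_apply, f]
        by_cases h4 : i.1 ∈ S
        · rw [dif_pos h4]
          rfl
        · rw [dif_neg h4]
          have hi := i.2
          rw [Finset.mem_insert] at hi
          rw [Option.elim_none, hi.resolve_right h4]
      rw [h3] at h2
      have h5 := hmax _ h2
      rw [Finset.card_insert_of_notMem hj] at h5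
      omega
  have halg : ∀ P : MvPolynomial (τ ⊕ Fin ρ) C, IsAlgebraic T (aeval (Sum.elim x' Y') P) := by
    intro P
    induction P using MvPolynomial.induction_on with
    | C c =>
      rw [show (MvPolynomial.C c : MvPolynomial (τ ⊕ Fin ρ) C) = algebraMap C _ c from rfl,
        AlgHom.commutes]
      exact hin _ (hAT _ (hCA c.2))
    | add p q hp hq => rw [map_add]; exact hp.add hq
    | mul_X p v hp =>
      rw [map_mul, aeval_X]
      refine hp.mul ?_
      rcases v with w | j
      · exact hin _ (hAT _ (hx' w))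
      · exact halgY j
  by_contra hw
  obtain ⟨q, hq0, hq⟩ := (halg F).exists_nonzero_coeff_and_aeval_eq_zero
    (mem_nonZeroDivisors_of_ne_zero hw)
  set w := aeval (Sum.elim x' Y') F with hwdef
  have hlift : ∀ k, ∃ p : MvPolynomial S A, aeval (fun j : S => Y' j) p = ((q.coeff k : T) : G) := by
    intro k
    have h1 : ((q.coeff k : T) : G) ∈ Algebra.adjoin A (Set.range fun j : S => Y' j) := (q.coeff k).2
    rw [Algebra.adjoin_range_eq_range_aeval] at h1
    exact h1
  choose p hp using hlift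
  let P2 : MvPolynomial (S ⊕ Unit) A :=
    ∑ k ∈ Finset.range (q.natDegree + 1), rename Sum.inl (p k) * X (Sum.inr ()) ^ k
  have hP2 : ∀ u : G, aeval (Sum.elim (fun j : S => Y' j) fun _ : Unit => u) P2 =
      ∑ k ∈ Finset.range (q.natDegree + 1), ((q.coeff k : T) : G) * u ^ k := by
    intro u
    simp only [P2, map_sum, map_mul, map_pow, aeval_X, aeval_rename, Sum.elim_comp_inl, hp,
      Sum.elim_inr]
  obtain ⟨W, h, hW, e1⟩ := pm_clear x' hA P2
  -- substitute `F` for the last variable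
  let sub : τ ⊕ (S ⊕ Unit) → MvPolynomial (τ ⊕ Fin ρ) C :=
    Sum.elim (fun w => X (Sum.inl w)) (Sum.elim (fun j => X (Sum.inr j.1)) fun _ => F)
  let H : MvPolynomial (τ ⊕ Fin ρ) C := aeval sub h
  have hsub : ∀ (z : τ → G) (Z : Fin ρ → G), aeval (Sum.elim z Z) H =
      aeval (Sum.elim z (Sum.elim (fun j : S => Z j) fun _ : Unit => aeval (Sum.elim z Z) F)) h := by
    intro z Z
    have h7 : ((aeval (Sum.elim z Z) : MvPolynomial (τ ⊕ Fin ρ) C →ₐ[C] G).comp
        (aeval sub : MvPolynomial (τ ⊕ (S ⊕ Unit)) C →ₐ[C] MvPolynomial (τ ⊕ Fin ρ) C)) =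
        aeval (Sum.elim z (Sum.elim (fun j : S => Z j)
          fun _ : Unit => aeval (Sum.elim z Z) F)) := by
      apply MvPolynomial.algHom_ext
      intro v
      rw [AlgHom.comp_apply, aeval_X, aeval_X]
      rcases v with w | j | _
      · simp [sub]
      · simp [sub]
      · rfl
    exact DFunLike.congr_fun h7 h
  have h8 : aeval (Sum.elim x' Y') H = 0 := by
    rw [hsub, ← hwdef, e1, hP2]
    have h9 : (∑ k ∈ Finset.range (q.natDegree + 1), ((q.coeff k : T) : G) * w ^ k) = 0 := by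
      rw [← hq, Polynomial.aeval_eq_sum_range]
      rfl
    rw [h9, mul_zero]
  have h10 := hS _ h8
  rw [hsub, hF] at h10
  -- put zero
  let sub0 : τ ⊕ (S ⊕ Unit) → MvPolynomial (τ ⊕ S) C :=
    Sum.elim (fun w => X (Sum.inl w)) (Sum.elim (fun j => X (Sum.inr j)) fun _ => 0)
  let h0 : MvPolynomial (τ ⊕ S) C := aeval sub0 h
  have hsub0 : ∀ (z : τ → G) (Z : S → G), aeval (Sum.elim z Z) h0 =
      aeval (Sum.elim z (Sum.elim Z fun _ : Unit => (0 : G))) h := by
    intro z Z
    have h7 : ((aeval (Sum.elim z Z) : MvPolynomial (τ ⊕ S) C →ₐ[C] G).comp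
        (aeval sub0 : MvPolynomial (τ ⊕ (S ⊕ Unit)) C →ₐ[C] MvPolynomial (τ ⊕ S) C)) =
        aeval (Sum.elim z (Sum.elim Z fun _ : Unit => (0 : G))) := by
      apply MvPolynomial.algHom_ext
      intro v
      rw [AlgHom.comp_apply, aeval_X, aeval_X]
      rcases v with w | j | _
      · simp [sub0]
      · simp [sub0]
      · simp [sub0]
    exact DFunLike.congr_fun h7 h
  have h11 : aeval (Sum.elim x fun j : S => Y j) h0 = 0 := by
    rw [hsub0]
    exact h10
  have h12 := prs_ind hCB x x' hx (fun j : S => Y j) (fun j : S => Y' j) hind hab h0 h11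
  rw [hsub0, e1, hP2] at h12
  have h13 := (mul_eq_zero.1 h12).resolve_left hW
  rw [Finset.sum_eq_single 0] at h13
  · rw [pow_zero, mul_one] at h13
    exact hq0 (Subtype.ext h13)
  · intro k _ hk
    rw [zero_pow hk, mul_zero]
  · intro hn
    exact absurd (Finset.mem_range.mpr (Nat.succ_pos _)) hn

end ee

section ff

variable {G : Type} [Field G] {C : Subfield G} {σ : Type} {y y' : σ → G}

theorem pm_zero : prsS C y y' 0 0 := by
  simpa using prsS.const y y' (0 : C)

theorem pm_one : prsS C y y' 1 1 := by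
  simpa using prsS.const y y' (1 : C)

theorem pm_sum {ι : Type} (T : Finset ι) (p q : ι → G) (h : ∀ i ∈ T, prsS C y y' (p i) (q i)) :
    prsS C y y' (∑ i ∈ T, p i) (∑ i ∈ T, q i) := by
  classical
  induction T using Finset.induction_on with
  | empty => rw [Finset.sum_empty, Finset.sum_empty]; exact pm_zero
  | insert i T hi ih =>
    rw [Finset.sum_insert hi, Finset.sum_insert hi]
    exact (h i (Finset.mem_insert_self i T)).add
      (ih fun j hj => h j (Finset.mem_insert_of_mem hj))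

theorem pm_det {m : ℕ} (M M' : Matrix (Fin m) (Fin m) G)
    (h : ∀ i j, prsS C y y' (M i j) (M' i j)) : prsS C y y' M.det M'.det := by
  rw [Matrix.det_apply, Matrix.det_apply]
  refine pm_sum _ _ _ fun s _ => ?_
  have h1 : prsS C y y' (∏ i, M (s i) i) (∏ i, M' (s i) i) :=
    prsS.prod _ _ _ fun i _ => h (s i) i
  rcases Int.units_eq_one_or (Equiv.Perm.sign s) with h2 | h2
  · rw [h2, one_smul, one_smul]
    exact h1
  · rw [h2, Units.neg_smul, Units.neg_smul, one_smul, one_smul]
    exact h1.neg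

theorem pm_adj {m : ℕ} (M M' : Matrix (Fin m) (Fin m) G)
    (h : ∀ i j, prsS C y y' (M i j) (M' i j)) (i j : Fin m) :
    prsS C y y' (M.adjugate i j) (M'.adjugate i j) := by
  rw [Matrix.adjugate_apply, Matrix.adjugate_apply]
  apply pm_det
  intro k l
  rw [Matrix.updateRow_apply, Matrix.updateRow_apply]
  split_ifs with h1
  · rw [Pi.single_apply]
    split_ifs
    · exact pm_one
    · exact pm_zero
  · exact h k l

theorem pm_solve {m : ℕ} (M : Matrix (Fin m) (Fin m) G) (hM : M.det ≠ 0) (v r : Fin m → G)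
    (h : ∀ i, r i + ∑ k, v k * M i k = 0) (k : Fin m) :
    v k = M.det⁻¹ * ∑ i, M.adjugate k i * -r i := by
  have h1 : M.mulVec v = -r := by
    funext i
    have h2 := h i
    rw [Matrix.mulVec, dotProduct, Pi.neg_apply]
    rw [show ∑ j, M i j * v j = ∑ k, v k * M i k from
      Finset.sum_congr rfl fun j _ => mul_comm _ _]
    linear_combination h2
  have h3 : M.adjugate.mulVec (M.mulVec v) = M.det • v := by
    rw [Matrix.mulVec_mulVec, Matrix.adjugate_mul, Matrix.smul_mulVec, Matrix.one_mulVec]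
  rw [h1] at h3
  have h4 := congrFun h3 k
  rw [Pi.smul_apply, smul_eq_mul] at h4
  rw [eq_inv_mul_iff_mul_eq₀ hM, ← h4]
  rfl

end ff

/-- (3) page 3 (e), (f) -/
theorem pairsM {G : Type} [Field G] [CharZero G] [IsAlgClosed G] (D : Derivation ℤ G G)
    (C : Subfield G) (hC : ∀ x ∈ C, D x = 0) {N ρ m s : ℕ} (a b : Fin N → G)
    (hab : ∀ P : MvPolynomial (Fin N × ℕ) C, aeval (jt D b) P = 0 → aeval (jt D a) P = 0)
    (Y Y' : Fin ρ → G) (hY : ∀ j, Y j ≠ 0) (hY' : ∀ j, Y' j ≠ 0)
    (hS : ∀ P : MvPolynomial ((Fin N × ℕ) ⊕ Fin ρ) C,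
      aeval (Sum.elim (jt D a) Y') P = 0 → aeval (Sum.elim (jt D b) Y) P = 0)
    (B : Subfield G) (hCB : C ≤ B) (hbB : ∀ w, jt D b w ∈ B)
    (A : Subfield G) (hCA : C ≤ A) (haA : ∀ w, jt D a w ∈ A)
    (hA : ∀ x ∈ A, ∃ P W : MvPolynomial (Fin N × ℕ) C, aeval (jt D a) W ≠ 0 ∧
      aeval (jt D a) W * x = aeval (jt D a) P)
    (S : Finset (Fin ρ)) (hind : AlgebraicIndependent B fun j : S => Y j)
    (hmax : ∀ T : Finset (Fin ρ), AlgebraicIndependent A (fun j : T => Y' j) → T.card ≤ S.card)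
    (c : Fin m → Fin s → Fin N) (n : Fin m → Fin s → Fin m → C)
    (e : Fin m → Fin s → Fin ρ → ℤ)
    (hJ : (Matrix.of fun i k => ∑ t, (n i t k : G) * b (c i t) * ∏ j, Y j ^ e i t j).det ≠ 0)
    (ν : Fin ρ → Fin m → C) (v v' : Fin m → G)
    (hv : ∀ j, D (Y j) = (∑ k, (ν j k : G) * v k) * Y j)
    (hv' : ∀ j, D (Y' j) = (∑ k, (ν j k : G) * v' k) * Y' j)
    (h5 : ∀ i, ∑ t, D (b (c i t)) * ∏ j, Y j ^ e i t j +
      ∑ k, v k * ∑ t, (n i t k : G) * b (c i t) * ∏ j, Y j ^ e i t j = 0)
    (h5' : ∀ i, ∑ t, D (a (c i t)) * ∏ j, Y' j ^ e i t j +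
      ∑ k, v' k * ∑ t, (n i t k : G) * a (c i t) * ∏ j, Y' j ^ e i t j = 0)
    (ε : Fin m → Fin ρ → ℤ) (P : MvPolynomial (Fin (N + m) × ℕ) C)
    (hP : aeval (jt D (Fin.append b fun k => ∏ j, Y j ^ ε k j)) P = 0) :
    aeval (jt D (Fin.append a fun k => ∏ j, Y' j ^ ε k j)) P = 0 := by
  classical
  have _ := hY
  have _ := hY'
  set y : (Fin N × ℕ) ⊕ Fin ρ → G := Sum.elim (jt D b) Y with hy
  set y' : (Fin N × ℕ) ⊕ Fin ρ → G := Sum.elim (jt D a) Y' with hy'
  have hk : ∀ F : MvPolynomial ((Fin N × ℕ) ⊕ Fin ρ) C, aeval y F = 0 ↔ aeval y' F = 0 :=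
    fun F => ⟨fun hF => pm_e hCB (jt D b) (jt D a) hbB hab Y Y' hS hCA haA hA S hind hmax F hF,
      fun hF => hS F hF⟩
  have hYY : ∀ j, prsS C y y' (Y j) (Y' j) := by
    intro j
    have h6 := prsS.val (C := C) y y' (X (Sum.inr j))
    rwa [aeval_X, aeval_X] at h6
  have hjj : ∀ w, prsS C y y' (jt D b w) (jt D a w) := by
    intro w
    have h6 := prsS.val (C := C) y y' (X (Sum.inl w))
    rwa [aeval_X, aeval_X] at h6
  have hmon : ∀ f : Fin ρ → ℤ, prsS C y y' (∏ j, Y j ^ f j) (∏ j, Y' j ^ f j) := fun f =>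
    prsS.prod _ _ _ fun j _ => (hYY j).zpow hk (f j)
  have hb0 : ∀ i, prsS C y y' (b i) (a i) := fun i => hjj (i, 0)
  have hb1 : ∀ i, prsS C y y' (D (b i)) (D (a i)) := fun i => hjj (i, 1)
  let M : Matrix (Fin m) (Fin m) G :=
    Matrix.of fun i k => ∑ t, (n i t k : G) * b (c i t) * ∏ j, Y j ^ e i t j
  let M' : Matrix (Fin m) (Fin m) G :=
    Matrix.of fun i k => ∑ t, (n i t k : G) * a (c i t) * ∏ j, Y' j ^ e i t j
  have hMM : ∀ i k, prsS C y y' (M i k) (M' i k) := by
    intro i k
    show prsS C y y' (∑ t, (n i t k : G) * b (c i t) * ∏ j, Y j ^ e i t j)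
      (∑ t, (n i t k : G) * a (c i t) * ∏ j, Y' j ^ e i t j)
    exact pm_sum _ _ _ fun t _ => ((prsS.const y y' (n i t k)).mul (hb0 (c i t))).mul (hmon _)
  have hdet : prsS C y y' M.det M'.det := pm_det M M' hMM
  have hM : M.det ≠ 0 := hJ
  have hM' : M'.det ≠ 0 := by
    intro h0
    obtain ⟨F, W, hW, hW', hp, hq⟩ := hdet
    rw [h0, zero_mul] at hq
    have h7 := (hk F).2 hq.symm
    rw [h7] at hp
    exact hM ((mul_eq_zero.1 hp).resolve_right hW)
  have hvv : ∀ k, prsS C y y' (v k) (v' k) := by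
    intro k
    rw [pm_solve M hM v (fun i => ∑ t, D (b (c i t)) * ∏ j, Y j ^ e i t j) h5 k,
      pm_solve M' hM' v' (fun i => ∑ t, D (a (c i t)) * ∏ j, Y' j ^ e i t j) h5' k]
    refine (hdet.inv hk).mul (pm_sum _ _ _ fun i _ => (pm_adj M M' hMM k i).mul ?_)
    exact (pm_sum _ _ _ fun t _ => (hb1 (c i t)).mul (hmon _)).neg
  have hder : ∀ w, prsS C y y' (D (y w)) (D (y' w)) := by
    rintro (w | j)
    · have h6 := hjj (w.1, w.2 + 1)
      unfold jt at h6
      rw [Function.iterate_succ_apply', Function.iterate_succ_apply'] at h6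
      exact h6
    · show prsS C y y' (D (Y j)) (D (Y' j))
      rw [hv, hv']
      exact (pm_sum _ _ _ fun k _ => (prsS.const y y' (ν j k)).mul (hvv k)).mul (hYY j)
  have hit : ∀ (k : Fin m) (r : ℕ),
      prsS C y y' (D^[r] (∏ j, Y j ^ ε k j)) (D^[r] (∏ j, Y' j ^ ε k j)) := by
    intro k r
    induction r with
    | zero => exact hmon _
    | succ r ih =>
      rw [Function.iterate_succ_apply', Function.iterate_succ_apply']
      exact ih.der D hC hk hder
  have hall : ∀ w, prsS C y y' (jt D (Fin.append b fun k => ∏ j, Y j ^ ε k j) w)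
      (jt D (Fin.append a fun k => ∏ j, Y' j ^ ε k j) w) := by
    rintro ⟨i, r⟩
    unfold jt
    refine Fin.addCases (fun i => ?_) (fun k => ?_) i
    · simp only [Fin.append_left]
      exact hjj (i, r)
    · simp only [Fin.append_right]
      exact hit k r
  obtain ⟨F, W, hW, hW', hp, hq⟩ := prsS.aeval _ _ hall P
  rw [hP, zero_mul] at hp
  have h7 := (hk F).1 hp.symm
  rw [h7] at hq
  exact (mul_eq_zero.1 hq).resolve_right hW'

end Pool.Agent.FNY
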