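import Pool.Agent.FN.DerA

/-!
# An upper bound for the number of algebraically independent coordinates
-/

set_option autoImplicit false

namespace Pool.Agent.FNY

/-- if `m` independent linear forms with coefficients `M i j` vanish at the logarithmic
derivatives of the `Y j`, then at most `ρ - m` of the `Y j` are algebraically independent -/
theorem ub {L : Type} [Field L] [CharZero L] [IsAlgClosed L] (A : Subfield L) {ρ m : ℕ}
    (Y : Fin ρ → L) (hY : ∀ j, Y j ≠ 0) (M : Fin m → Fin ρ → L) (hM : LinearIndependent L M)
    (h : ∀ (d : Derivation A L L) (i : Fin m), ∑ j, M i j * (d (Y j) / Y j) = 0)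
    (T : Finset (Fin ρ)) (hT : AlgebraicIndependent A fun j : T => Y j) :
    T.card + m ≤ ρ := by
  classical
  have hinj : Function.Injective fun j : T => Y j := hT.injective
  have hr : AlgebraicIndepOn A id (Set.range fun j : T => Y j) := hT.to_subtype_range
  obtain ⟨B, hsub, hB⟩ := exists_isTranscendenceBasis_superset hr
  have hmem : ∀ t : T, Y t ∈ B := fun t => hsub ⟨t, rfl⟩
  have hd : ∀ t : T, ∃ d : Derivation A L L, ∀ t' : T, d (Y t') = if t' = t then Y t else 0 := by
    intro t
    obtain ⟨d, hd⟩ := Pool.Agent.FN.exists_der_basis ((↑) : B → L) hB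
      fun w => if (w : L) = Y t then Y t else 0
    refine ⟨d, fun t' => ?_⟩
    rw [hd ⟨Y t', hmem t'⟩]
    refine if_congr ⟨fun h1 => hinj h1, fun h1 => by rw [h1]⟩ rfl rfl
  choose d hd using hd
  let N : Matrix T (Fin ρ) L := Matrix.of fun t j => d t (Y j) / Y j
  have hN : LinearIndependent L N.row := by
    rw [Fintype.linearIndependent_iff]
    intro c hc t
    have h1 := congrFun hc (t : Fin ρ)
    rw [Finset.sum_apply, Finset.sum_eq_single t] at h1
    · change c t * (d t (Y t) / Y t) = 0 at h1
      rwa [hd t t, if_pos rfl, div_self (hY _), mul_one] at h1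
    · intro b _ hb
      change c b * (d b (Y t) / Y t) = 0
      rw [hd b t, if_neg fun h2 => hb h2.symm, zero_div, mul_zero]
    · exact fun h2 => absurd (Finset.mem_univ _) h2
  have hMr : LinearIndependent L (Matrix.of M).row := hM
  have h0 : (Matrix.of M) * N.transpose = 0 := by
    ext i t
    rw [Matrix.mul_apply, Matrix.zero_apply, ← h (d t) i]
    rfl
  have h1 := Matrix.rank_add_rank_le_card_of_mul_eq_zero h0
  rw [hMr.rank_matrix, Matrix.rank_transpose, hN.rank_matrix, Fintype.card_fin, Fintype.card_fin,
    Fintype.card_coe] at h1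
  omega

end Pool.Agent.FNY
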