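import Pool.Agent.FNY.GermM
import Pool.Agent.FNY.Ax1m
import Pool.Agent.FNY.Ub
import Pool.Agent.FNY.PairsM

/-! # Case G for systems -/

namespace Pool.Agent.FNY

open MvPolynomial Pool.Agent.FN Pool.Agent.FNX Pool.Agent.FNR Pool.Agent.FNS Filter

/-- the field generated by the constants and the jets -/
theorem exists_field2 {G : Type} [Field G] (D : Derivation ℤ G G) (C : Subfield G)
    (hC : ∀ x ∈ C, D x = 0) {N : ℕ} (b : Fin N → G) :
    ∃ B : Subfield G, C ≤ B ∧ (∀ w, jt D b w ∈ B) ∧ (∀ x ∈ B, D x ∈ B) ∧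
      (∀ x ∈ B, ∃ P W : MvPolynomial (Fin N × ℕ) C, aeval (jt D b) W ≠ 0 ∧
        aeval (jt D b) W * x = aeval (jt D b) P) ∧
      ∀ x : G, IsAlgebraic B x → ∃ (d : ℕ) (R : Fin (d + 1) → MvPolynomial (Fin N × ℕ) C),
        (∃ k, aeval (jt D b) (R k) ≠ 0) ∧ ∑ k, aeval (jt D b) (R k) * x ^ (k : ℕ) = 0 := by
  classical
  have hD : ∀ P : MvPolynomial (Fin N × ℕ) C, ∃ P' : MvPolynomial (Fin N × ℕ) C,
      aeval (jt D b) P' = D (aeval (jt D b) P) := by
    intro P
    induction P using MvPolynomial.induction_on with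
    | C c => exact ⟨0, by rw [map_zero, aeval_C]; exact (hC _ c.2).symm⟩
    | add p q hp hq =>
      obtain ⟨p', hp'⟩ := hp
      obtain ⟨q', hq'⟩ := hq
      exact ⟨p' + q', by rw [map_add, map_add, map_add, hp', hq']⟩
    | mul_X p v hp =>
      obtain ⟨p', hp'⟩ := hp
      refine ⟨p * X (v.1, v.2 + 1) + X v * p', ?_⟩
      rw [map_add, map_mul, map_mul, map_mul, aeval_X, aeval_X, hp', Derivation.leibniz,
        smul_eq_mul, smul_eq_mul]
      congr 1
      change _ * D^[v.2 + 1] (b v.1) = _ * D (D^[v.2] (b v.1))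
      rw [Function.iterate_succ_apply']
  let B : Subfield G :=
    { carrier := {x | ∃ P W : MvPolynomial (Fin N × ℕ) C, aeval (jt D b) W ≠ 0 ∧
        aeval (jt D b) W * x = aeval (jt D b) P}
      mul_mem' := by
        rintro x y ⟨P, W, hW, h⟩ ⟨P', W', hW', h'⟩
        refine ⟨P * P', W * W', ?_, ?_⟩
        · rw [map_mul]
          exact mul_ne_zero hW hW'
        · rw [map_mul, map_mul, ← h, ← h']
          ring
      one_mem' := ⟨1, 1, by rw [map_one]; exact one_ne_zero, by rw [map_one, one_mul]⟩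
      add_mem' := by
        rintro x y ⟨P, W, hW, h⟩ ⟨P', W', hW', h'⟩
        refine ⟨P * W' + P' * W, W * W', ?_, ?_⟩
        · rw [map_mul]
          exact mul_ne_zero hW hW'
        · rw [map_mul, map_add, map_mul, map_mul, ← h, ← h']
          ring
      zero_mem' := ⟨0, 1, by rw [map_one]; exact one_ne_zero, by rw [map_zero, mul_zero]⟩
      neg_mem' := by
        rintro x ⟨P, W, hW, h⟩
        exact ⟨-P, W, hW, by rw [map_neg, ← h, mul_neg]⟩
      inv_mem' := by
        rintro x ⟨P, W, hW, h⟩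
        by_cases hx : x = 0
        · rw [hx, inv_zero]
          exact ⟨0, 1, by rw [map_one]; exact one_ne_zero, by rw [map_zero, mul_zero]⟩
        · refine ⟨W, P, ?_, ?_⟩
          · rw [← h]
            exact mul_ne_zero hW hx
          · rw [← h, mul_assoc, mul_inv_cancel₀ hx, mul_one] }
  refine ⟨B, fun x hx => ⟨MvPolynomial.C ⟨x, hx⟩, 1, by rw [map_one]; exact one_ne_zero, ?_⟩,
    fun w => ⟨X w, 1, by rw [map_one]; exact one_ne_zero, ?_⟩, ?_, fun x hx => hx, ?_⟩
  · rw [map_one, one_mul, aeval_C]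
    rfl
  · rw [map_one, one_mul, aeval_X]
  · rintro x ⟨P, W, hW, h⟩
    obtain ⟨P', hP'⟩ := hD P
    obtain ⟨W', hW'⟩ := hD W
    refine ⟨W * P' - W' * P, W * W, ?_, ?_⟩
    · rw [map_mul]
      exact mul_ne_zero hW hW
    · rw [map_mul, map_sub, map_mul, map_mul, hP', hW', ← h, Derivation.leibniz, smul_eq_mul,
        smul_eq_mul]
      ring
  · rintro x ⟨p, hp0, hp⟩
    have hB : ∀ c : B, ∃ P W : MvPolynomial (Fin N × ℕ) C, aeval (jt D b) W ≠ 0 ∧
        aeval (jt D b) W * (c : G) = aeval (jt D b) P := fun c => c.2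
    choose P W hW h using hB
    let R : Fin (p.natDegree + 1) → MvPolynomial (Fin N × ℕ) C := fun k =>
      P (p.coeff k) * ∏ l ∈ Finset.univ.erase k, W (p.coeff (l : ℕ))
    have hR : ∀ k, aeval (jt D b) (R k) = (∏ l : Fin (p.natDegree + 1),
        aeval (jt D b) (W (p.coeff (l : ℕ)))) * (p.coeff (k : ℕ) : G) := by
      intro k
      rw [map_mul, ← h, map_prod, ← Finset.mul_prod_erase Finset.univ _ (Finset.mem_univ k)]
      ring
    refine ⟨p.natDegree, R, ⟨Fin.last _, ?_⟩, ?_⟩
    · rw [hR]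
      refine mul_ne_zero (Finset.prod_ne_zero_iff.2 fun l _ => hW _) ?_
      rw [Fin.val_last]
      intro h1
      exact hp0 (Polynomial.leadingCoeff_eq_zero.1 (Subtype.ext h1))
    · simp only [hR, mul_assoc]
      rw [← Finset.mul_sum]
      have h1 : ∑ k : Fin (p.natDegree + 1), (p.coeff (k : ℕ) : G) * x ^ (k : ℕ) = 0 := by
        rw [Fin.sum_univ_eq_sum_range (fun k => (p.coeff k : G) * x ^ k)]
        rw [Polynomial.aeval_eq_sum_range] at hp
        rw [← hp]
        rfl
      rw [h1, mul_zero]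


theorem jy_ne {K L : Type} [Field K] [Field L] [Algebra K L] (δ : Derivation K L L)
    {N m s : ℕ} (a b : Fin N → L) (α β : Fin m → L) (hβ : ∀ k, β k ≠ 0)
    (h : Spz δ (Fin.append a α) (Fin.append b β)) (c : Fin m → Fin s → Fin N)
    (n : Fin m → Fin s → Fin m → ℤ) (hJ : (Jy c n b β).det ≠ 0) : (Jy c n a α).det ≠ 0 := by
  let Q : Matrix (Fin m) (Fin m) (MvPolynomial ((Fin N × ℕ) ⊕ Fin (m * s)) K) :=
    Matrix.of fun i k => ∑ t, C ((n i t k : ℤ) : K) *
      (X (Sum.inl (c i t, 0)) * X (Sum.inr (finProdFinEquiv (i, t))))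
  have key : ∀ (p : Fin N → L) (x : Fin m → L), aeval (Sum.elim (jet δ p) fun j =>
      mon x (n (finProdFinEquiv.symm j).1 (finProdFinEquiv.symm j).2)) Q.det =
        (Jy c n p x).det := by
    intro p x
    rw [AlgHom.map_det]
    congr 1
    ext i k
    change aeval _ (∑ t, C ((n i t k : ℤ) : K) *
      (X (Sum.inl (c i t, 0)) * X (Sum.inr (finProdFinEquiv (i, t))))) =
        ∑ t, (n i t k : L) * (p (c i t) * ∏ k, x k ^ n i t k)
    rw [map_sum]
    refine Finset.sum_congr rfl fun t _ => ?_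
    rw [map_mul, map_mul, aeval_C, aeval_X, aeval_X, map_intCast, Sum.elim_inl, Sum.elim_inr,
      Equiv.symm_apply_apply]
    rfl
  intro h0
  apply hJ
  rw [← key]
  refine spz_mon δ a b α β hβ h (fun j => n (finProdFinEquiv.symm j).1
    (finProdFinEquiv.symm j).2) Q.det ?_
  rw [key]
  exact h0

/-- case G for systems, for sequences -/
theorem case_gM_core (K L : Type) [Field K] [CharZero K] [Field L] [IsAlgClosed L] [Algebra K L]
    (m s N D : ℕ) (c : Fin m → Fin s → Fin N) (δ : ℕ → Derivation K L L) (hδ : ∀ E, CK (δ E))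
    (a b : ℕ → Fin N → L) (hrel : ∀ E, ¬ RelV (δ E) E (a E) (b E))
    (n : ℕ → Fin m → Fin s → Fin m → ℤ) (α β : ℕ → Fin m → L) (hα : ∀ E k, α E k ≠ 0)
    (hβ : ∀ E k, β E k ≠ 0) (ha : ∀ E, Sy c (n E) (a E) (α E) = 0)
    (hb : ∀ E, Sy c (n E) (b E) (β E) = 0) (hJ : ∀ E, (Jy c (n E) (b E) (β E)).det ≠ 0)
    (hR : ∀ E, ∀ q : Fin m → ℤ, q ≠ 0 → ¬ ∃ R : Fin (E + 1) → MvPolynomial (Fin N × ℕ) K,
      (∀ k, Bdd E (R k)) ∧ (∃ k, aeval (jet (δ E) (b E)) (R k) ≠ 0) ∧
        ∑ k, aeval (jet (δ E) (b E)) (R k) * (∏ k, β E k ^ q k) ^ (k : ℕ) = 0)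
    (hS : ∀ E, Spz (δ E) (Fin.append (a E) (α E)) (Fin.append (b E) (β E)))
    (hD : ∀ E, RelV (δ E) D (Fin.append (a E) (α E)) (Fin.append (b E) (β E))) : False := by
  classical
  have : CharZero L := charZero_of_injective_algebraMap (algebraMap K L).injective
  obtain ⟨U, G, _, hU, _, _, ⟨u⟩⟩ := exists_up L
  -- the exponents
  obtain ⟨ρ, ν, e0, he0, hind⟩ := expsM U (Fin.append
    (fun (k : Fin m) (k' : Fin m) (_ : ℕ) => if k = k' then (1 : ℤ) else 0)
    (fun (p : Fin (m * s)) (k : Fin m) (E : ℕ) =>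
      n E (finProdFinEquiv.symm p).1 (finProdFinEquiv.symm p).2 k))
  let ε : Fin m → Fin ρ → ℤ := fun k => e0 (Fin.castAdd _ k)
  let e : Fin m → Fin s → Fin ρ → ℤ := fun i t => e0 (Fin.natAdd m (finProdFinEquiv (i, t)))
  have hε : ∀ k k', ∀ᶠ E in (U : Filter ℕ),
      (if k = k' then (1 : ℤ) else 0) = ∑ j, ε k j * ν j k' E := by
    intro k k'
    have h1 := he0 (Fin.castAdd _ k) k'
    rw [Fin.append_left] at h1
    exact h1
  have he : ∀ i t k, ∀ᶠ E in (U : Filter ℕ), n E i t k = ∑ j, e i t j * ν j k E := by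
    intro i t k
    have h1 := he0 (Fin.natAdd m (finProdFinEquiv (i, t))) k
    rw [Fin.append_right, Equiv.symm_apply_apply] at h1
    exact h1
  -- the objects
  let dh : Derivation ℤ G G := u.der δ
  let A' : Fin N → G := fun i => u.cl fun E => a E i
  let B' : Fin N → G := fun i => u.cl fun E => b E i
  let Y : Fin ρ → G := fun j => u.cl fun E => mon (β E) fun k => ν j k E
  let Y' : Fin ρ → G := fun j => u.cl fun E => mon (α E) fun k => ν j k E
  have hY : ∀ j, Y j ≠ 0 := fun j =>
    (u.ne_iff _).2 (Eventually.of_forall fun E => mon_ne (hβ E) _)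
  have hY' : ∀ j, Y' j ≠ 0 := fun j =>
    (u.ne_iff _).2 (Eventually.of_forall fun E => mon_ne (hα E) _)
  obtain ⟨B, hCB, hbB, hDB, -, hBalg⟩ := exists_field2 dh (u.cst K) (u.der_cst δ) B'
  obtain ⟨A, hCA, haA, -, hAfr, -⟩ := exists_field2 dh (u.cst K) (u.der_cst δ) A'
  have hjt : ∀ (c : ℕ → Fin N → L), (jt dh fun i => u.cl fun E => c E i) =
      fun w => u.cl fun E => jet (δ E) (c E) w := fun c => funext fun w => u.jt_mk δ c w
  -- (b) no monomial is algebraic
  have hnalg : ∀ w : Fin ρ → ℤ, w ≠ 0 → ¬ IsAlgebraic B (∏ j, Y j ^ w j) := by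
    intro w hw halg
    have hq : ∃ k, ∀ᶠ E in (U : Filter ℕ), ∑ j, w j * ν j k E ≠ 0 := by
      by_contra hcon
      push Not at hcon
      exact hw (hind w hcon)
    obtain ⟨k1, hk1⟩ := hq
    obtain ⟨d, R, ⟨k0, hk0⟩, hsum⟩ := hBalg _ halg
    rw [cl_prodM u ν β hβ w (fun k E => ∑ j, w j * ν j k E)
      (fun k => Eventually.of_forall fun _ => rfl)] at hsum
    choose Q hQ hQp using fun k => u.trans (R k)
    choose DD hDD using fun k => Pool.Agent.FNA.exists_bdd (R k)
    change aeval (jt dh B') (R k0) ≠ 0 at hk0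
    rw [hjt b, hQp, u.ne_iff] at hk0
    have hsum' : ∀ᶠ E in (U : Filter ℕ), ∑ k : Fin (d + 1),
        aeval (jet (δ E) (b E)) (Q k E) * (mon (β E) fun k => ∑ j, w j * ν j k E) ^ (k : ℕ) =
          0 := by
      rw [← u.zero (fun E => ∑ k : Fin (d + 1), aeval (jet (δ E) (b E)) (Q k E) *
        (mon (β E) fun k => ∑ j, w j * ν j k E) ^ (k : ℕ)), ← hsum]
      have h2 : (fun E => ∑ k : Fin (d + 1), aeval (jet (δ E) (b E)) (Q k E) *
          (mon (β E) fun k => ∑ j, w j * ν j k E) ^ (k : ℕ)) =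
          ∑ k : Fin (d + 1), (fun E => aeval (jet (δ E) (b E)) (Q k E)) *
            (fun E => mon (β E) fun k => ∑ j, w j * ν j k E) ^ (k : ℕ) := by
        funext E
        rw [Finset.sum_apply]
        rfl
      rw [h2, map_sum]
      refine Finset.sum_congr rfl fun k _ => ?_
      rw [map_mul, map_pow]
      congr 1
      rw [hjt b, hQp]
    have hbig : ∀ᶠ E in (U : Filter ℕ), max d (∑ k, DD k) ≤ E := hU _
    obtain ⟨E, hE1, hE2, hE3, hE4⟩ := (hk0.and (hsum'.and (hbig.and hk1))).exists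
    have hd : d ≤ E := (le_max_left _ _).trans hE3
    have hDDE : ∀ k, DD k ≤ E := fun k => (Finset.single_le_sum (f := DD)
      (fun _ _ => Nat.zero_le _) (Finset.mem_univ k)).trans ((le_max_right _ _).trans hE3)
    refine hR E (fun k => ∑ j, w j * ν j k E) (fun h => hE4 (congrFun h k1))
      ⟨fun k => if h : (k : ℕ) < d + 1 then Q ⟨k, h⟩ E else 0, fun k => ?_,
        ⟨⟨k0, by omega⟩, ?_⟩, ?_⟩
    · dsimp only
      split_ifs with h
      · exact (bdd_of_support (hQ _ E) (hDD _)).mono (hDDE _)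
      · exact ⟨by rw [totalDegree_zero]; exact Nat.zero_le _, fun v hv => by
          rw [vars_0] at hv
          exact absurd hv (Finset.notMem_empty _)⟩
    · dsimp only
      rw [dif_pos k0.2]
      exact hE1
    · change ∑ k : Fin (E + 1), aeval (jet (δ E) (b E))
        (if h : (k : ℕ) < d + 1 then Q ⟨k, h⟩ E else 0) *
          (mon (β E) fun k => ∑ j, w j * ν j k E) ^ (k : ℕ) = 0
      rw [Fin.sum_univ_eq_sum_range (fun k => aeval (jet (δ E) (b E))
        (if h : k < d + 1 then Q ⟨k, h⟩ E else 0) *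
          (mon (β E) fun k => ∑ j, w j * ν j k E) ^ k) (E + 1)]
      rw [← Finset.sum_subset (s₁ := Finset.range (d + 1)) (fun x hx => Finset.mem_range.2
        (by have := Finset.mem_range.1 hx; omega)) (fun x _ hx => by
          rw [dif_neg (fun h => hx (Finset.mem_range.2 h)), map_zero, zero_mul])]
      rw [← hE2, ← Fin.sum_univ_eq_sum_range (fun k => aeval (jet (δ E) (b E))
        (if h : k < d + 1 then Q ⟨k, h⟩ E else 0) *
          (mon (β E) fun k => ∑ j, w j * ν j k E) ^ k) (d + 1)]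
      refine Finset.sum_congr rfl fun k _ => ?_
      rw [dif_pos k.2]
  -- (c)
  let vb : Fin m → G := fun k => u.cl fun E => δ E (β E k) / β E k
  let va : Fin m → G := fun k => u.cl fun E => δ E (α E k) / α E k
  let νh : Fin ρ → Fin m → u.cst K := fun j k =>
    ⟨u.cl fun E => algebraMap K L (ν j k E : K), _, rfl⟩
  have hYv : ∀ j, dh (Y j) = (∑ k, (νh j k : G) * vb k) * Y j := fun j =>
    der_clM u δ β hβ (ν j)
  have hYv' : ∀ j, dh (Y' j) = (∑ k, (νh j k : G) * va k) * Y' j := fun j =>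
    der_clM u δ α hα (ν j)
  obtain ⟨S, hScard, hSind⟩ := ax1m dh B hDB (fun x hx => hCB (u.cst_of_der δ hδ x hx)) Y hY vb
    (fun j k => (νh j k : G)) (fun j k => u.der_cst δ _ (νh j k).2) hYv hnalg
  -- the terms
  have hT : ∀ (x : ℕ → Fin m → L), (∀ E k, x E k ≠ 0) → ∀ i t,
      ∏ j, (u.cl fun E => mon (x E) fun k => ν j k E) ^ e i t j =
        u.cl fun E => mon (x E) fun k => n E i t k := fun x hx i t =>
    cl_prodM u ν x hx (e i t) (fun k E => n E i t k) (he i t)
  let nh : Fin m → Fin s → Fin m → u.cst K := fun i t k =>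
    ⟨u.cl fun E => algebraMap K L (n E i t k : K), _, rfl⟩
  have hsumT : ∀ (x : ℕ → Fin m → L), (∀ E k, x E k ≠ 0) → ∀ (g : Fin s → ℕ → L) (i : Fin m),
      ∑ t, u.cl (g t) * ∏ j, (u.cl fun E => mon (x E) fun k => ν j k E) ^ e i t j =
        u.cl fun E => ∑ t, g t E * mon (x E) fun k => n E i t k := by
    intro x hx g i
    have h1 : (fun E => ∑ t, g t E * mon (x E) fun k => n E i t k) =
        ∑ t, g t * fun E => mon (x E) fun k => n E i t k := by
      funext E
      rw [Finset.sum_apply]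
      rfl
    rw [h1, map_sum]
    refine Finset.sum_congr rfl fun t _ => ?_
    rw [hT x hx, map_mul]
  have hJcl : ∀ (x : ℕ → Fin m → L), (∀ E k, x E k ≠ 0) → ∀ (p : ℕ → Fin N → L) i k,
      ∑ t, (nh i t k : G) * (u.cl fun E => p E (c i t)) *
        ∏ j, (u.cl fun E => mon (x E) fun k => ν j k E) ^ e i t j =
          u.cl fun E => Jy c (n E) (p E) (x E) i k := by
    intro x hx p i k
    have h1 : ∀ t, (nh i t k : G) * (u.cl fun E => p E (c i t)) =
        u.cl fun E => (n E i t k : L) * p E (c i t) := by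
      intro t
      change u.cl _ * u.cl _ = _
      rw [← map_mul]
      congr 1
      funext E
      simp only [Pi.mul_apply, map_intCast]
    simp only [h1]
    rw [hsumT x hx (fun t E => (n E i t k : L) * p E (c i t)) i]
    congr 1
    funext E
    change _ = ∑ t, (n E i t k : L) * (p E (c i t) * ∏ k, x E k ^ n E i t k)
    refine Finset.sum_congr rfl fun t _ => ?_
    rw [mul_assoc]
    rfl
  have hdetcl : ∀ M : ℕ → Matrix (Fin m) (Fin m) L,
      (Matrix.of fun i k => u.cl fun E => M E i k).det = u.cl fun E => (M E).det := by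
    intro M
    rw [Matrix.det_apply]
    have h1 : (fun E => (M E).det) = ∑ σ : Equiv.Perm (Fin m), (Equiv.Perm.sign σ) •
        ∏ i, fun E => M E (σ i) i := by
      funext E
      rw [Matrix.det_apply, Finset.sum_apply]
      refine Finset.sum_congr rfl fun σ _ => ?_
      rw [Pi.smul_apply, Finset.prod_apply]
    rw [h1, map_sum]
    refine Finset.sum_congr rfl fun σ _ => ?_
    rw [Units.smul_def, Units.smul_def, map_zsmul, map_prod]
    rfl
  have hJb : (Matrix.of fun i k => ∑ t, (nh i t k : G) * B' (c i t) *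
      ∏ j, Y j ^ e i t j).det ≠ 0 := by
    have h1 : (Matrix.of fun i k => ∑ t, (nh i t k : G) * B' (c i t) * ∏ j, Y j ^ e i t j) =
        Matrix.of fun i k => u.cl fun E => Jy c (n E) (b E) (β E) i k := by
      ext i k
      exact hJcl β hβ b i k
    rw [h1, hdetcl, u.ne_iff]
    exact Eventually.of_forall hJ
  -- specialization for the monomials
  have hspz : ∀ P : MvPolynomial ((Fin N × ℕ) ⊕ Fin ρ) (u.cst K),
      aeval (Sum.elim (jt dh A') Y') P = 0 → aeval (Sum.elim (jt dh B') Y) P = 0 := by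
    intro P hP
    obtain ⟨Q, -, hQp⟩ := u.trans P
    have hel : ∀ (p : ℕ → Fin N → L) (x : ℕ → Fin m → L),
        (Sum.elim (jt dh fun i => u.cl fun E => p E i) fun j =>
          u.cl fun E => mon (x E) fun k => ν j k E) =
          fun t => u.cl fun E => (Sum.elim (jet (δ E) (p E)) fun j =>
            mon (x E) fun k => ν j k E : (Fin N × ℕ) ⊕ Fin ρ → L) t := by
      intro p x
      funext t
      rcases t with w | j
      · exact u.jt_mk δ p w
      · rfl
    have h1 := hP
    rw [hel a α, hQp, u.zero] at h1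
    rw [hel b β, hQp, u.zero]
    filter_upwards [h1] with E hE
    exact spz_mon (δ E) (a E) (b E) (α E) (β E) (hβ E) (hS E) (fun j k => ν j k E) (Q E) hE
  -- the Jacobian at `a`
  have hJa : (Matrix.of fun i k => ∑ t, (nh i t k : G) * A' (c i t) *
      ∏ j, Y' j ^ e i t j).det ≠ 0 := by
    have h1 : (Matrix.of fun i k => ∑ t, (nh i t k : G) * A' (c i t) * ∏ j, Y' j ^ e i t j) =
        Matrix.of fun i k => u.cl fun E => Jy c (n E) (a E) (α E) i k := by
      ext i k
      exact hJcl α hα a i k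
    rw [h1, hdetcl, u.ne_iff]
    exact Eventually.of_forall fun E =>
      jy_ne (δ E) (a E) (b E) (α E) (β E) (hβ E) (hS E) c (n E) (hJ E)
  -- (d)
  have hmax : ∀ T : Finset (Fin ρ), AlgebraicIndependent A (fun j : T => Y' j) →
      T.card ≤ S.card := by
    intro T hTi
    let M : Fin m → Fin ρ → G := fun i j => ∑ t, (e i t j : G) * (A' (c i t) *
      ∏ j, Y' j ^ e i t j)
    have hnh : ∀ i t k, (nh i t k : G) = ∑ j, (e i t j : G) * (νh j k : G) := by
      intro i t k
      have h1 : ∀ j, (e i t j : G) * (νh j k : G) =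
          u.cl fun E => (e i t j : L) * (ν j k E : L) := by
        intro j
        change (e i t j : G) * u.cl _ = _
        rw [← map_intCast u.cl (e i t j), ← map_mul]
        congr 1
        funext E
        simp only [Pi.mul_apply, map_intCast, Pi.intCast_apply]
      simp only [h1]
      rw [← map_sum]
      change u.cl _ = _
      rw [u.eq_iff]
      filter_upwards [he i t k] with E hE
      rw [Finset.sum_apply, map_intCast, hE, Int.cast_sum]
      exact Finset.sum_congr rfl fun j _ => Int.cast_mul _ _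
    have hM : LinearIndependent G M := by
      rw [Fintype.linearIndependent_iff]
      intro g hg
      have h1 : Matrix.vecMul g (Matrix.of fun i k => ∑ t, (nh i t k : G) * A' (c i t) *
          ∏ j, Y' j ^ e i t j) = 0 := by
        funext k
        have h2 : ∀ i, ∑ t, (nh i t k : G) * A' (c i t) * ∏ j, Y' j ^ e i t j =
            ∑ j, M i j * (νh j k : G) := by
          intro i
          simp only [M, hnh, Finset.sum_mul]
          rw [Finset.sum_comm]
          refine Finset.sum_congr rfl fun j _ => Finset.sum_congr rfl fun t _ => ?_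
          ring
        change ∑ i, g i * (∑ t, (nh i t k : G) * A' (c i t) * ∏ j, Y' j ^ e i t j) = 0
        simp only [h2, Finset.mul_sum]
        rw [Finset.sum_comm]
        refine Finset.sum_eq_zero fun j _ => ?_
        have h3 := congrFun hg j
        rw [Finset.sum_apply] at h3
        have h4 : ∑ i, g i * (M i j * (νh j k : G)) = (∑ i, g i * M i j) * (νh j k : G) := by
          rw [Finset.sum_mul]
          exact Finset.sum_congr rfl fun i _ => (mul_assoc _ _ _).symm
        rw [h4]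
        have h5 : ∑ i, g i * M i j = 0 := h3
        rw [h5, zero_mul]
      exact fun i => congrFun (Matrix.eq_zero_of_vecMul_eq_zero hJa h1) i
    have hd : ∀ (d : Derivation A G G) (i : Fin m), ∑ j, M i j * (d (Y' j) / Y' j) = 0 := by
      intro d i
      have h1 : ∑ t, A' (c i t) * ∏ j, Y' j ^ e i t j = 0 := by
        rw [hsumT α hα (fun t E => a E (c i t)) i, u.zero]
        exact Eventually.of_forall fun E => congrFun (ha E) i
      have h2 := congrArg d h1
      rw [map_sum, map_zero] at h2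
      rw [← h2]
      have h3 : ∀ t, d (A' (c i t) * ∏ j, Y' j ^ e i t j) =
          ∑ j, (e i t j : G) * (A' (c i t) * ∏ j, Y' j ^ e i t j) * (d (Y' j) / Y' j) := by
        intro t
        have h4 : d (A' (c i t)) = 0 :=
          d.map_algebraMap (⟨A' (c i t), haA (c i t, 0)⟩ : A)
        rw [Derivation.leibniz, h4, smul_zero, add_zero, smul_eq_mul]
        change A' (c i t) * d (mon Y' (e i t)) = _
        rw [der_mon d hY', Finset.sum_mul, Finset.mul_sum]
        refine Finset.sum_congr rfl fun j _ => ?_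
        change _ = (e i t j : G) * (A' (c i t) * mon Y' (e i t)) * (d (Y' j) / Y' j)
        ring
      simp only [h3]
      rw [Finset.sum_comm]
      refine Finset.sum_congr rfl fun j _ => ?_
      rw [Finset.sum_mul]
    have := ub A Y' hY' M hM hd T hTi
    omega
  -- derivative of the system
  have hlog : ∀ (x : ℕ → Fin m → L) (hx : ∀ E k, x E k ≠ 0) (p : ℕ → Fin N → L),
      (∀ E, Sy c (n E) (p E) (x E) = 0) → ∀ i,
      ∑ t, dh (u.cl fun E => p E (c i t)) *
        ∏ j, (u.cl fun E => mon (x E) fun k => ν j k E) ^ e i t j +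
      ∑ k, (u.cl fun E => δ E (x E k) / x E k) *
        ∑ t, (nh i t k : G) * (u.cl fun E => p E (c i t)) *
          ∏ j, (u.cl fun E => mon (x E) fun k => ν j k E) ^ e i t j = 0 := by
    intro x hx p hp i
    simp only [hJcl x hx p i, u.der_mk, dh]
    rw [hsumT x hx (fun t E => δ E (p E (c i t))) i]
    have h1 : ∑ k, (u.cl fun E => δ E (x E k) / x E k) *
        (u.cl fun E => Jy c (n E) (p E) (x E) i k) =
        u.cl fun E => ∑ k, δ E (x E k) / x E k * Jy c (n E) (p E) (x E) i k := by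
      have h2 : (fun E => ∑ k, δ E (x E k) / x E k * Jy c (n E) (p E) (x E) i k) =
          ∑ k, (fun E => δ E (x E k) / x E k) * fun E => Jy c (n E) (p E) (x E) i k := by
        funext E
        rw [Finset.sum_apply]
        rfl
      rw [h2, map_sum]
      exact Finset.sum_congr rfl fun k _ => (map_mul _ _ _).symm
    rw [h1, ← map_add, u.zero]
    refine Eventually.of_forall fun E => ?_
    rw [Pi.add_apply]
    have h3 := congrArg (δ E) (congrFun (hp E) i)
    change δ E (∑ t, p E (c i t) * mon (x E) (n E i t)) = δ E 0 at h3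
    rw [map_sum, map_zero] at h3
    rw [← h3]
    have h4 : ∀ t, δ E (p E (c i t) * mon (x E) (n E i t)) =
        δ E (p E (c i t)) * mon (x E) (n E i t) +
          ∑ k, δ E (x E k) / x E k * ((n E i t k : L) * (p E (c i t) * mon (x E) (n E i t))) := by
      intro t
      rw [Derivation.leibniz, smul_eq_mul, smul_eq_mul, der_mon (δ E) (hx E), Finset.sum_mul,
        Finset.mul_sum, add_comm]
      congr 1
      · ring
      · refine Finset.sum_congr rfl fun k _ => ?_
        ring
    simp only [h4]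
    rw [Finset.sum_add_distrib]
    congr 1
    rw [Finset.sum_comm]
    refine Finset.sum_congr rfl fun k _ => ?_
    rw [← Finset.mul_sum]
    rfl
  have hfin := pairsM dh (u.cst K) (u.der_cst δ) A' B' (fun P hP => faith u hU δ a b hrel P hP)
    Y Y' hY hY' hspz B hCB hbB A hCA haA hAfr S hSind hmax c nh e hJb νh vb va hYv hYv'
    (hlog β hβ b hb) (hlog α hα a ha) ε
  have hYε : ∀ (x : ℕ → Fin m → L), (∀ E k, x E k ≠ 0) → ∀ k,
      ∏ j, (u.cl fun E => mon (x E) fun k => ν j k E) ^ ε k j = u.cl fun E => x E k := by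
    intro x hx k
    rw [cl_prodM u ν x hx (ε k) (fun k' _ => if k = k' then (1 : ℤ) else 0) (hε k)]
    congr 1
    funext E
    unfold mon
    rw [Finset.prod_eq_single k]
    · change x E k ^ (if k = k then (1 : ℤ) else 0) = x E k
      rw [if_pos rfl, zpow_one]
    · intro k' _ hk'
      change x E k' ^ (if k = k' then (1 : ℤ) else 0) = 1
      rw [if_neg hk'.symm, zpow_zero]
    · intro h
      exact absurd (Finset.mem_univ _) h
  choose Φ hΦ1 hΦ2 hΦ3 using hD
  obtain ⟨SS, hSS⟩ := exists_supp (N + m) D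
  obtain ⟨P, hP⟩ := u.back SS Φ fun E => hSS _ (hΦ1 E)
  have hsn : ∀ (p : ℕ → Fin N → L) (x : ℕ → Fin m → L),
      (Fin.append (fun i => u.cl fun E => p E i) fun k => u.cl fun E => x E k) =
        fun i => u.cl fun E => Fin.append (p E) (x E) i := by
    intro p x
    funext i
    refine Fin.addCases (fun i => ?_) (fun k => ?_) i
    · simp only [Fin.append_left]
    · simp only [Fin.append_right]
  have hjt2 : ∀ (c : ℕ → Fin (N + m) → L), (jt dh fun i => u.cl fun E => c E i) =
      fun w => u.cl fun E => jet (δ E) (c E) w := fun c => funext fun w => u.jt_mk δ c w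
  have e1 : (fun k => ∏ j, Y j ^ ε k j) = fun k => u.cl fun E => β E k :=
    funext fun k => hYε β hβ k
  have e2 : (fun k => ∏ j, Y' j ^ ε k j) = fun k => u.cl fun E => α E k :=
    funext fun k => hYε α hα k
  rw [e1, e2] at hfin
  have h4 := hfin P (by
    rw [hsn b β, hjt2 fun E => Fin.append (b E) (β E), hP, u.zero]
    exact Eventually.of_forall fun E => hΦ3 E)
  rw [hsn a α, hjt2 fun E => Fin.append (a E) (α E), hP, u.zero] at h4
  obtain ⟨E, hE⟩ := h4.exists
  exact hΦ2 E hE

/-- case G for systems -/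
theorem case_gM (K L : Type) [Field K] [CharZero K] [Field L] [IsAlgClosed L] [Algebra K L]
    (m s N D : ℕ) (c : Fin m → Fin s → Fin N) : ∃ D1 E : ℕ, ∀ δ : Derivation K L L, CK δ →
      ∀ a b : Fin N → L, Spz δ a b → ¬ RelV δ E a b → ∀ (n : Fin m → Fin s → Fin m → ℤ)
        (α β : Fin m → L), (∀ k, α k ≠ 0) → (∀ k, β k ≠ 0) → Sy c n a α = 0 → Sy c n b β = 0 →
          (Jy c n b β).det ≠ 0 →
          (∀ q : Fin m → ℤ, q ≠ 0 → ¬ ∃ R : Fin (D1 + 1) → MvPolynomial (Fin N × ℕ) K,
            (∀ k, Bdd D1 (R k)) ∧ (∃ k, aeval (jet δ b) (R k) ≠ 0) ∧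
              ∑ k, aeval (jet δ b) (R k) * (∏ k, β k ^ q k) ^ (k : ℕ) = 0) →
          Spz δ (Fin.append a α) (Fin.append b β) →
            ¬ RelV δ D (Fin.append a α) (Fin.append b β) := by
  by_contra hcon
  have h : ∀ E : ℕ, ∃ (δ : Derivation K L L) (a b : Fin N → L) (n : Fin m → Fin s → Fin m → ℤ)
      (α β : Fin m → L), CK δ ∧ ¬ RelV δ E a b ∧ (∀ k, α k ≠ 0) ∧ (∀ k, β k ≠ 0) ∧
        Sy c n a α = 0 ∧ Sy c n b β = 0 ∧ (Jy c n b β).det ≠ 0 ∧
        (∀ q : Fin m → ℤ, q ≠ 0 → ¬ ∃ R : Fin (E + 1) → MvPolynomial (Fin N × ℕ) K,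
            (∀ k, Bdd E (R k)) ∧ (∃ k, aeval (jet δ b) (R k) ≠ 0) ∧
              ∑ k, aeval (jet δ b) (R k) * (∏ k, β k ^ q k) ^ (k : ℕ) = 0) ∧
        Spz δ (Fin.append a α) (Fin.append b β) ∧
          RelV δ D (Fin.append a α) (Fin.append b β) := by
    intro E
    by_contra h
    exact hcon ⟨E, E, fun δ hδ a b _ hrel n α β h1 h2 h3 h4 h5 h6 h7 h8 => h
      ⟨δ, a, b, n, α, β, hδ, hrel, h1, h2, h3, h4, h5, h6, h7, h8⟩⟩
  choose δ a b n α β hδ hrel h1 h2 h3 h4 h5 h6 h7 h8 using h
  exact case_gM_core K L m s N D c δ hδ a b hrel n α β h1 h2 h3 h4 h5 h6 h7 h8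

end Pool.Agent.FNY
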