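import Pool.Agent.FNS.Jt

/-! # Systems of polynomials with few terms: definitions -/

namespace Pool.Agent.FNY

open MvPolynomial

/-- a system of `m` sparse Laurent polynomials, coefficients are entries -/
def Sy {L : Type} [Field L] {m s N : ℕ} (c : Fin m → Fin s → Fin N)
    (n : Fin m → Fin s → Fin m → ℤ) (b : Fin N → L) (β : Fin m → L) : Fin m → L :=
  fun i => ∑ t, b (c i t) * ∏ k, β k ^ n i t k

/-- its logarithmic Jacobian -/
def Jy {L : Type} [Field L] {m s N : ℕ} (c : Fin m → Fin s → Fin N)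
    (n : Fin m → Fin s → Fin m → ℤ) (b : Fin N → L) (β : Fin m → L) :
    Matrix (Fin m) (Fin m) L :=
  Matrix.of fun i k => ∑ t, (n i t k : L) * (b (c i t) * ∏ k, β k ^ n i t k)

/-- `z` is a coordinate of a nonsingular zero of a system of at most `s` polynomials with at most
`s` terms in the numbers of `S` and the unknowns -/
def Gvy (K : Type) {L : Type} [Field K] [Field L] [Algebra K L] (s : ℕ) (S : Set L) (z : L) :
    Prop :=
  ∃ (m : ℕ) (β : Fin m → L) (P : Fin m → MvPolynomial (S ⊕ Fin m) K), m ≤ s ∧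
    (∀ i, (P i).support.card ≤ s) ∧ (∀ i, aeval (Sum.elim (fun x : S => (x : L)) β) (P i) = 0) ∧
      (Matrix.of fun i k => aeval (Sum.elim (fun x : S => (x : L)) β)
        (pderiv (Sum.inr k) (P i))).det ≠ 0 ∧ ∃ k, β k = z

end Pool.Agent.FNY
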