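import Pool.Agent.FNY.LiftAlg
import Pool.Agent.FNY.Def

/-! # Lifting a nonsingular zero of a system: the differential part -/

set_option autoImplicit false

namespace Pool.Agent.FNY

open MvPolynomial Pool.Agent.FN Pool.Agent.FNX Pool.Agent.FNR Pool.Agent.FNS

section pr

variable {S L : Type} [CommRing S] [Field L]

/-- pairs of values of fractions at two points -/
def Pr2 (ea eb : S →+* L) (p q : L) : Prop :=
  ∃ A B : S, eb B ≠ 0 ∧ p * ea B = ea A ∧ q * eb B = eb A

theorem Pr2.mul {ea eb : S →+* L} {p q p1 q1 : L} (h : Pr2 ea eb p q) (h1 : Pr2 ea eb p1 q1) :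
    Pr2 ea eb (p * p1) (q * q1) := by
  obtain ⟨A, B, hB, hp, hq⟩ := h
  obtain ⟨A1, B1, hB1, hp1, hq1⟩ := h1
  refine ⟨A * A1, B * B1, ?_, ?_, ?_⟩
  · rw [map_mul]; exact mul_ne_zero hB hB1
  · rw [map_mul, map_mul, ← hp, ← hp1]; ring
  · rw [map_mul, map_mul, ← hq, ← hq1]; ring

theorem Pr2.add {ea eb : S →+* L} {p q p1 q1 : L} (h : Pr2 ea eb p q) (h1 : Pr2 ea eb p1 q1) :
    Pr2 ea eb (p + p1) (q + q1) := by
  obtain ⟨A, B, hB, hp, hq⟩ := h
  obtain ⟨A1, B1, hB1, hp1, hq1⟩ := h1
  refine ⟨A * B1 + A1 * B, B * B1, ?_, ?_, ?_⟩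
  · rw [map_mul]; exact mul_ne_zero hB hB1
  · rw [map_mul, map_add, map_mul, map_mul, ← hp, ← hp1]; ring
  · rw [map_mul, map_add, map_mul, map_mul, ← hq, ← hq1]; ring

theorem Pr2.val (ea eb : S →+* L) (A : S) : Pr2 ea eb (ea A) (eb A) :=
  ⟨A, 1, by rw [map_one]; exact one_ne_zero, by rw [map_one, mul_one], by rw [map_one, mul_one]⟩

theorem Pr2.neg {ea eb : S →+* L} {p q : L} (h : Pr2 ea eb p q) : Pr2 ea eb (-p) (-q) := by
  obtain ⟨A, B, hB, hp, hq⟩ := h
  exact ⟨-A, B, hB, by rw [map_neg, ← hp]; ring, by rw [map_neg, ← hq]; ring⟩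

theorem Pr2.div {ea eb : S →+* L} {p q : L} {B : S} (hB : eb B ≠ 0)
    (h : Pr2 ea eb (p * ea B) (q * eb B)) : Pr2 ea eb p q := by
  obtain ⟨A1, B1, hB1, hp, hq⟩ := h
  refine ⟨A1, B * B1, ?_, ?_, ?_⟩
  · rw [map_mul]; exact mul_ne_zero hB hB1
  · rw [map_mul, ← hp]; ring
  · rw [map_mul, ← hq]; ring

theorem Pr2.zero {ea eb : S →+* L} (hI : ∀ P : S, ea P = 0 → eb P = 0) {q : L}
    (h : Pr2 ea eb 0 q) : q = 0 := by
  obtain ⟨A, B, hB, hp, hq⟩ := h
  rw [zero_mul] at hp
  rw [hI A hp.symm] at hq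
  exact (mul_eq_zero.1 hq).resolve_right hB

/-- closure under a derivation -/
theorem Pr2.der {K : Type} [Field K] [Algebra K L] (δ : Derivation K L L) {ea eb : S →+* L}
    (hd : ∀ P : S, Pr2 ea eb (δ (ea P)) (δ (eb P))) {p q : L} (h : Pr2 ea eb p q) :
    Pr2 ea eb (δ p) (δ q) := by
  have h0 := h
  obtain ⟨A, B, hB, hp, hq⟩ := h
  refine Pr2.div hB ?_
  have hp2 : δ p * ea B = δ (ea A) + -(p * δ (ea B)) := by
    rw [← hp, Derivation.leibniz, smul_eq_mul, smul_eq_mul]
    ring
  have hq2 : δ q * eb B = δ (eb A) + -(q * δ (eb B)) := by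
    rw [← hq, Derivation.leibniz, smul_eq_mul, smul_eq_mul]
    ring
  rw [hp2, hq2]
  exact (hd A).add (h0.mul (hd B)).neg

/-- Cramer's rule in the image of a ring -/
theorem cramer_hom (e : S →+* L) {m : ℕ} (J : Matrix (Fin m) (Fin m) S) (G : Fin m → S)
    (x : Fin m → L) (h : ∀ i, e (G i) + ∑ k, e (J i k) * x k = 0) (k : Fin m) :
    x k * e J.det = e (∑ i, J.adjugate k i * (-G i)) := by
  classical
  have h1 : (e.mapMatrix J).mulVec x = fun i => e (-G i) := by
    funext i
    have h2 := h i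
    change ∑ k, e (J i k) * x k = e (-G i)
    rw [map_neg]
    linear_combination h2
  have h3 : ((e.mapMatrix J).adjugate).mulVec ((e.mapMatrix J).mulVec x) =
      (e.mapMatrix J).det • x := by
    rw [Matrix.mulVec_mulVec, Matrix.adjugate_mul, Matrix.smul_mulVec, Matrix.one_mulVec]
  have h4 := congrFun h3 k
  rw [h1, ← RingHom.map_adjugate, ← RingHom.map_det, Pi.smul_apply, smul_eq_mul] at h4
  rw [mul_comm, ← h4, map_sum]
  change ∑ i, (e.mapMatrix J.adjugate) k i * e (-G i) = _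
  refine Finset.sum_congr rfl fun i _ => ?_
  rw [map_mul]
  rfl

end pr

/-- the derivative of a value of a polynomial in `α` over the jet polynomials -/
theorem der_val {K L : Type} [Field K] [Field L] [Algebra K L] (δ : Derivation K L L) {N m : ℕ}
    (P : MvPolynomial (Fin m) (MvPolynomial (Fin N × ℕ) K)) :
    ∃ P' : MvPolynomial (Fin m) (MvPolynomial (Fin N × ℕ) K), ∀ (a : Fin N → L) (α : Fin m → L),
      δ (eval₂ (aeval (jet δ a) : _ →ₐ[K] L).toRingHom α P) =
        eval₂ (aeval (jet δ a) : _ →ₐ[K] L).toRingHom α P' +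
          ∑ k, eval₂ (aeval (jet δ a) : _ →ₐ[K] L).toRingHom α (pderiv k P) * δ (α k) := by
  classical
  induction P using MvPolynomial.induction_on with
  | C r =>
    refine ⟨C (sh K N r), fun a α => ?_⟩
    rw [eval₂_C, eval₂_C]
    rw [Finset.sum_eq_zero fun k _ => by rw [pderiv_C, eval₂_zero, zero_mul], add_zero]
    exact sh_aeval_jet δ a r
  | add p q hp hq =>
    obtain ⟨p', hp'⟩ := hp
    obtain ⟨q', hq'⟩ := hq
    refine ⟨p' + q', fun a α => ?_⟩
    rw [eval₂_add, map_add, hp', hq', eval₂_add]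
    simp only [map_add, eval₂_add, add_mul, Finset.sum_add_distrib]
    ring
  | mul_X p i hp =>
    obtain ⟨p', hp'⟩ := hp
    refine ⟨p' * X i, fun a α => ?_⟩
    rw [eval₂_mul, eval₂_X, Derivation.leibniz, hp', smul_eq_mul, smul_eq_mul, eval₂_mul,
      eval₂_X]
    have h1 : ∀ k, eval₂ (aeval (jet δ a) : _ →ₐ[K] L).toRingHom α (pderiv k (p * X i)) *
        δ (α k) = α i * (eval₂ (aeval (jet δ a) : _ →ₐ[K] L).toRingHom α (pderiv k p) *
          δ (α k)) + if k = i then
            eval₂ (aeval (jet δ a) : _ →ₐ[K] L).toRingHom α p * δ (α i) else 0 := by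
      intro k
      rw [Derivation.leibniz, smul_eq_mul, smul_eq_mul, eval₂_add, eval₂_mul, eval₂_mul, eval₂_X,
        pderiv_X]
      by_cases hk : k = i
      · subst hk
        rw [if_pos rfl, Pi.single_eq_same, eval₂_one]
        ring
      · rw [if_neg hk, Pi.single_eq_of_ne (Ne.symm hk), eval₂_zero]
        ring
    rw [Finset.sum_congr rfl fun k _ => h1 k, Finset.sum_add_distrib, ← Finset.mul_sum,
      Finset.sum_ite_eq' Finset.univ i, if_pos (Finset.mem_univ i)]
    ring

/-- the algebraic part over the jet polynomials -/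
theorem lift_jet {K L : Type} [Field K] [CharZero K] [Field L] [IsAlgClosed L] [Algebra K L]
    (δ : Derivation K L L) {N m : ℕ} (a b : Fin N → L) (h : Spz δ a b)
    (F : Fin m → MvPolynomial (Fin m) (MvPolynomial (Fin N × ℕ) K)) (β : Fin m → L)
    (h0 : ∀ i, eval₂ (aeval (jet δ b) : _ →ₐ[K] L).toRingHom β (F i) = 0)
    (hJ : (Matrix.of fun i k =>
      eval₂ (aeval (jet δ b) : _ →ₐ[K] L).toRingHom β (pderiv k (F i))).det ≠ 0) :
    ∃ α : Fin m → L, (∀ i, eval₂ (aeval (jet δ a) : _ →ₐ[K] L).toRingHom α (F i) = 0) ∧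
      ∀ P : MvPolynomial (Fin m) (MvPolynomial (Fin N × ℕ) K),
        eval₂ (aeval (jet δ a) : _ →ₐ[K] L).toRingHom α P = 0 →
          eval₂ (aeval (jet δ b) : _ →ₐ[K] L).toRingHom β P = 0 := by
  classical
  have : CharZero L := charZero_of_injective_algebraMap (algebraMap K L).injective
  let ga : MvPolynomial (Fin N × ℕ) K →+* L := (aeval (jet δ a) : _ →ₐ[K] L).toRingHom
  let gb : MvPolynomial (Fin N × ℕ) K →+* L := (aeval (jet δ b) : _ →ₐ[K] L).toRingHom
  have : (RingHom.ker ga).IsPrime := RingHom.ker_isPrime ga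
  let mk : MvPolynomial (Fin N × ℕ) K →+* MvPolynomial (Fin N × ℕ) K ⧸ RingHom.ker ga :=
    Ideal.Quotient.mk (RingHom.ker ga)
  let f : MvPolynomial (Fin N × ℕ) K ⧸ RingHom.ker ga →+* L := RingHom.kerLift ga
  let φ : MvPolynomial (Fin N × ℕ) K ⧸ RingHom.ker ga →+* L :=
    Ideal.Quotient.lift (RingHom.ker ga) gb fun x hx => h x hx
  have hfm : f.comp mk = ga := RingHom.ext fun x => rfl
  have hφm : φ.comp mk = gb := RingHom.ext fun x => rfl
  have ea : ∀ (α : Fin m → L) (P : MvPolynomial (Fin m) (MvPolynomial (Fin N × ℕ) K)),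
      eval₂ f α (map mk P) = eval₂ ga α P := fun α P => by rw [eval₂_map, hfm]
  have eb : ∀ (P : MvPolynomial (Fin m) (MvPolynomial (Fin N × ℕ) K)),
      eval₂ φ β (map mk P) = eval₂ gb β P := fun P => by rw [eval₂_map, hφm]
  obtain ⟨α, hα, hP⟩ := lift_alg f φ (RingHom.kerLift_injective ga) (fun i => map mk (F i)) β
    (fun i => by rw [eb]; exact h0 i) (by
      have h1 : (Matrix.of fun i k => eval₂ φ β (pderiv k (map mk (F i)))) =
          Matrix.of fun i k => eval₂ gb β (pderiv k (F i)) := by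
        ext i k
        change eval₂ φ β (pderiv k (map mk (F i))) = eval₂ gb β (pderiv k (F i))
        rw [pderiv_map, eb]
      rw [h1]
      exact hJ)
  refine ⟨α, fun i => ?_, fun P h1 => ?_⟩
  · have h1 := hα i
    rw [ea] at h1
    exact h1
  · have h2 := hP (map mk P) (by rw [ea]; exact h1)
    rw [eb] at h2
    exact h2

/-- a differential specialization extends to a nonsingular zero of a system -/
theorem lift_sys {K L : Type} [Field K] [CharZero K] [Field L] [IsAlgClosed L] [Algebra K L]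
    (δ : Derivation K L L) {N m : ℕ} (a b : Fin N → L) (h : Spz δ a b)
    (F : Fin m → MvPolynomial (Fin m) (MvPolynomial (Fin N × ℕ) K)) (β : Fin m → L)
    (h0 : ∀ i, eval₂ (aeval (jet δ b) : _ →ₐ[K] L).toRingHom β (F i) = 0)
    (hJ : (Matrix.of fun i k =>
      eval₂ (aeval (jet δ b) : _ →ₐ[K] L).toRingHom β (pderiv k (F i))).det ≠ 0) :
    ∃ α : Fin m → L, (∀ i, eval₂ (aeval (jet δ a) : _ →ₐ[K] L).toRingHom α (F i) = 0) ∧
      Spz δ (Fin.append a α) (Fin.append b β) := by
  classical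
  obtain ⟨α, hα, hI⟩ := lift_jet δ a b h F β h0 hJ
  refine ⟨α, hα, ?_⟩
  let ea : MvPolynomial (Fin m) (MvPolynomial (Fin N × ℕ) K) →+* L :=
    eval₂Hom (aeval (jet δ a) : _ →ₐ[K] L).toRingHom α
  let eb : MvPolynomial (Fin m) (MvPolynomial (Fin N × ℕ) K) →+* L :=
    eval₂Hom (aeval (jet δ b) : _ →ₐ[K] L).toRingHom β
  have hIe : ∀ P, ea P = 0 → eb P = 0 := hI
  choose F' hF' using fun i => der_val δ (F i)
  let J : Matrix (Fin m) (Fin m) (MvPolynomial (Fin m) (MvPolynomial (Fin N × ℕ) K)) :=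
    Matrix.of fun i k => pderiv k (F i)
  have hJe : eb J.det ≠ 0 := by
    rw [RingHom.map_det]
    exact hJ
  -- the derivatives of the new numbers
  have hk : ∀ k, Pr2 ea eb (δ (α k)) (δ (β k)) := by
    intro k
    refine ⟨∑ i, J.adjugate k i * (-F' i), J.det, hJe, ?_, ?_⟩
    · refine cramer_hom ea J F' (fun k => δ (α k)) (fun i => ?_) k
      have h1 := hF' i a α
      rw [hα i, map_zero] at h1
      exact h1.symm
    · refine cramer_hom eb J F' (fun k => δ (β k)) (fun i => ?_) k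
      have h1 := hF' i b β
      rw [h0 i, map_zero] at h1
      exact h1.symm
  have hval : ∀ P, Pr2 ea eb (δ (ea P)) (δ (eb P)) := by
    intro P
    obtain ⟨P', hP'⟩ := der_val δ P
    have h1 : δ (ea P) = ea P' + ∑ k, ea (pderiv k P) * δ (α k) := hP' a α
    have h2 : δ (eb P) = eb P' + ∑ k, eb (pderiv k P) * δ (β k) := hP' b β
    rw [h1, h2]
    refine (Pr2.val ea eb P').add ?_
    have h3 : ∀ T : Finset (Fin m), Pr2 ea eb (∑ k ∈ T, ea (pderiv k P) * δ (α k))
        (∑ k ∈ T, eb (pderiv k P) * δ (β k)) := by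
      intro T
      induction T using Finset.induction_on with
      | empty =>
        rw [Finset.sum_empty, Finset.sum_empty]
        have h4 := Pr2.val ea eb 0
        rwa [map_zero, map_zero] at h4
      | insert i T hi ih =>
        rw [Finset.sum_insert hi, Finset.sum_insert hi]
        exact ((Pr2.val ea eb _).mul (hk i)).add ih
    exact h3 _
  have hit : ∀ (k : ℕ) (i : Fin m), Pr2 ea eb (δ^[k] (α i)) (δ^[k] (β i)) := by
    intro k i
    induction k with
    | zero =>
      have h4 := Pr2.val ea eb (X i)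
      have h5 : ea (X i) = α i := eval₂_X _ _ _
      have h6 : eb (X i) = β i := eval₂_X _ _ _
      rw [h5, h6] at h4
      exact h4
    | succ k ih =>
      rw [Function.iterate_succ_apply', Function.iterate_succ_apply']
      exact ih.der δ hval
  have hall : ∀ v, Pr2 ea eb (jet δ (Fin.append a α) v) (jet δ (Fin.append b β) v) := by
    rintro ⟨i, k⟩
    unfold jet
    refine Fin.addCases (fun i => ?_) (fun i => ?_) i
    · simp only [Fin.append_left]
      have h4 := Pr2.val ea eb (C (X (i, k)))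
      have h5 : ea (C (X (i, k))) = δ^[k] (a i) := (eval₂_C _ _ _).trans (aeval_X _ _)
      have h6 : eb (C (X (i, k))) = δ^[k] (b i) := (eval₂_C _ _ _).trans (aeval_X _ _)
      rw [h5, h6] at h4
      exact h4
    · simp only [Fin.append_right]
      exact hit k i
  intro Φ hΦ
  have hfin : Pr2 ea eb (aeval (jet δ (Fin.append a α)) Φ) (aeval (jet δ (Fin.append b β)) Φ) := by
    clear hΦ
    induction Φ using MvPolynomial.induction_on with
    | C c =>
      have h4 := Pr2.val ea eb (C (C c))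
      have h5 : ea (C (C c)) = algebraMap K L c := (eval₂_C _ _ _).trans (aeval_C _ _)
      have h6 : eb (C (C c)) = algebraMap K L c := (eval₂_C _ _ _).trans (aeval_C _ _)
      rw [h5, h6] at h4
      rw [aeval_C, aeval_C]
      exact h4
    | add p q hp hq => rw [map_add, map_add]; exact hp.add hq
    | mul_X p v hp =>
      rw [map_mul, map_mul, aeval_X, aeval_X]
      exact hp.mul (hall v)
  rw [hΦ] at hfin
  exact hfin.zero hIe

end Pool.Agent.FNY
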