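import Pool.Agent.FNY.SsyC
import Pool.Agent.FNY.LiftSys
import Pool.Agent.FNY.CaseGM

/-! # Nonsingular zeros of systems of sparse Laurent polynomials -/

namespace Pool.Agent.FNY

open MvPolynomial Pool.Agent.FN Pool.Agent.FNX Pool.Agent.FNR Pool.Agent.FNS

/-- (7) page 0, 1: induction on `m`, from `case_r` (with `s = 0`), `case_gM`, `lift_sys` -/
theorem ssy (K L : Type) [Field K] [CharZero K] [Field L] [IsAlgClosed L] [Algebra K L]
    (m s N D : ℕ) : ∃ E : ℕ, ∀ δ : Derivation K L L, CK δ → ∀ a b : Fin N → L, Spz δ a b →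
      ¬ RelV δ E a b → ∀ (c : Fin m → Fin s → Fin N) (n : Fin m → Fin s → Fin m → ℤ)
        (β : Fin m → L), (∀ k, β k ≠ 0) → Sy c n b β = 0 → (Jy c n b β).det ≠ 0 →
          ∃ α : Fin m → L, Spz δ (Fin.append a α) (Fin.append b β) ∧
            ¬ RelV δ D (Fin.append a α) (Fin.append b β) :=
  ssy_of K L (fun δ _ _ a b h F β h0 hJ => lift_sys δ a b h F β h0 hJ)
    (fun m s N D c => case_gM K L m s N D c) m s N D

end Pool.Agent.FNY
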