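import Pool.Agent.FNY.SblockC
import Pool.Agent.FNY.Ssy

/-! # One block: a nonsingular zero of a system of polynomials with few terms -/

set_option autoImplicit false

namespace Pool.Agent.FNY

open MvPolynomial Pool.Agent.FN Pool.Agent.FNX Pool.Agent.FNR Pool.Agent.FNS

/-- one block: a nonsingular zero of a system of polynomials with at most `s` terms -/
theorem sblock (K L : Type) [Field K] [CharZero K] [Field L] [IsAlgClosed L] [Algebra K L]
    (m s N D : ℕ) : ∃ E : ℕ, ∀ δ : Derivation K L L, CK δ → ∀ a b : Fin N → L, Spz δ a b →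
      ¬ RelV δ E a b → ∀ F : IntermediateField K L, (∀ x : L, IsAlgebraic F x → x ∈ F) →
        ∀ P : Fin m → MvPolynomial (Fin N ⊕ Fin m) K, (∀ i, (P i).support.card ≤ s) →
          (∀ i (j : Fin N), Sum.inl j ∈ (P i).vars → a j ∈ F) → ∀ β : Fin m → L,
            (∀ i, aeval (Sum.elim b β) (P i) = 0) →
            (Matrix.of fun i k => aeval (Sum.elim b β) (pderiv (Sum.inr k) (P i))).det ≠ 0 →
              ∃ α : Fin m → L, (∀ k, α k ∈ F) ∧
                Spz δ (Fin.append a α) (Fin.append b β) ∧
                  ¬ RelV δ D (Fin.append a α) (Fin.append b β) :=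
  sblock_of K L (fun m s N D => ssy K L m s N D) m s N D

end Pool.Agent.FNY
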