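import Pool.Agent.FNY.Def
import Pool.Agent.FNR.MainR

/-! # Systems and the density theorem: the differential polynomial -/

set_option autoImplicit false

namespace Pool.Agent.FNY

open MvPolynomial Pool.Agent.FN Pool.Agent.FNX Pool.Agent.FNR

/-- as `FNS.DepS`, with systems -/
def DepY (s : ℕ) {k l : ℕ} (x : Fin k → ℂ) (y : Fin l → ℂ) : Prop :=
  ∃ (I : Set (Fin k)) (J : Set (Fin l)) (N : ℕ) (u w : Fin N → ℂ), N ≤ s ∧
    (∀ i, Gvy KA s (Set.range x ∪ y '' J) (u i)) ∧ (∀ i, Gvy KA s (x '' I ∪ y '' Jᶜ) (w i)) ∧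
      LinearIndependent (aclF KA (x '' I)) u ∧ ∑ i, w i * u i = 0 ∧ w ≠ 0

/-- one differential polynomial for all systems; the hypothesis is `multiY` with `D = 2` -/
theorem keyY_of (k l s : ℕ)
    (hM : ∀ N : ℕ, ∃ E : ℕ, ∀ δ : Derivation KA ℂ ℂ, CK δ → ∀ p q : Fin (k + l) → ℂ,
      Spz δ p q → ¬ RelV δ E p q → ∀ (T : Fin (N + N) → Set (Fin (k + l)))
        (z : Fin (N + N) → ℂ), (∀ t, Gvy KA s (q '' T t) (z t)) →
          ∃ V : Fin (N + N) → ℂ, (∀ t, V t ∈ acl KA (p '' T t)) ∧
            Spz δ (Fin.append p V) (Fin.append q z) ∧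
              ¬ RelV δ 2 (Fin.append p V) (Fin.append q z)) :
    ∃ E r : ℕ, ∀ x : Fin k → ℂ,
      ∃ δ : Derivation KA ℂ ℂ, CK δ ∧ ∃ Ψ : MvPolynomial (Fin l × ℕ) ℂ, Ψ ≠ 0 ∧
        Ψ.totalDegree ≤ E ∧ (∀ v ∈ Ψ.vars, v.2 < r) ∧
          ∀ y : Fin l → ℂ, DepY s x y → eval (jet δ y) Ψ = 0 := by
  choose D hD using hM
  obtain ⟨E, r, hEr⟩ := psiV k l (∑ N ∈ Finset.range (s + 1), D N)
  refine ⟨E, r, fun x => ?_⟩
  have := isAlgClosed_KA
  have := countable_KA
  obtain ⟨δ, hδ, hU⟩ := exists_uni (K := KA)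
  obtain ⟨z, hz⟩ := hU k l x
  obtain ⟨Ψ, hΨ0, hΨE, hΨr, hΨ⟩ := hEr δ hδ x z hz
  refine ⟨δ, hδ, Ψ, hΨ0, hΨE, hΨr, fun y hy => ?_⟩
  have hrel : RelV δ (∑ N ∈ Finset.range (s + 1), D N) (Fin.append x z) (Fin.append x y) := by
    obtain ⟨I, J, N, u, w, hN, hu, hw, hli, h0, hw0⟩ := hy
    by_contra hnr
    have hnr' : ¬ RelV δ (D N) (Fin.append x z) (Fin.append x y) := fun h =>
      hnr (h.mono (Finset.single_le_sum (f := fun N => D N) (fun _ _ => Nat.zero_le _)
        (Finset.mem_range.2 (Nat.lt_succ_of_le hN))))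
    have hu' : ∀ i, Gvy KA s (Fin.append x y ''
        (Fin.castAdd l '' Set.univ ∪ Fin.natAdd k '' J)) (u i) := by
      intro i
      rw [append_image, Set.image_univ]
      exact hu i
    have hw' : ∀ i, Gvy KA s (Fin.append x y ''
        (Fin.castAdd l '' I ∪ Fin.natAdd k '' Jᶜ)) (w i) := by
      intro i
      rw [append_image]
      exact hw i
    obtain ⟨V, hV, hs, hrel⟩ := hD N δ hδ _ _ (hz y) hnr'
      (Fin.append (fun _ => Fin.castAdd l '' Set.univ ∪ Fin.natAdd k '' J)
        (fun _ => Fin.castAdd l '' I ∪ Fin.natAdd k '' Jᶜ)) (Fin.append u w)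
      (fun i => by
        refine Fin.addCases (fun i => ?_) (fun i => ?_) i
        · simp only [Fin.append_left]
          exact hu' i
        · simp only [Fin.append_right]
          exact hw' i)
    let U : Fin N → ℂ := fun i => V (Fin.castAdd N i)
    let W : Fin N → ℂ := fun i => V (Fin.natAdd N i)
    have hU : ∀ i, U i ∈ acl KA (Set.range x ∪ z '' J) := by
      intro i
      have h1 := hV (Fin.castAdd N i)
      simp only [Fin.append_left] at h1
      rw [append_image, Set.image_univ] at h1
      exact h1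
    have hW : ∀ i, W i ∈ acl KA (x '' I ∪ z '' Jᶜ) := by
      intro i
      have h1 := hV (Fin.natAdd N i)
      simp only [Fin.append_right] at h1
      rwa [append_image] at h1
    -- the `U` are linearly independent
    have hsU : Spz δ (Fin.append (Fin.append x z) U) (Fin.append (Fin.append x y) u) := by
      refine spz_comp hs (Fin.append (Fin.castAdd (N + N)) fun i => Fin.natAdd (k + l)
        (Fin.castAdd N i)) (fun i => ?_) (fun i => ?_)
      · refine Fin.addCases (fun i => ?_) (fun i => ?_) i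
        · simp only [Fin.append_left]
        · simp only [Fin.append_right]
          rfl
      · refine Fin.addCases (fun i => ?_) (fun i => ?_) i
        · simp only [Fin.append_left]
        · simp only [Fin.append_right, Fin.append_left]
    have hxI : ∀ y : Fin l → ℂ, Fin.append x y '' (Fin.castAdd l '' I) = x '' I := by
      intro y
      have h6 := append_image x y I ∅
      rwa [Set.image_empty, Set.image_empty, Set.union_empty, Set.union_empty] at h6
    have hliU : LinearIndependent (aclF KA (x '' I)) U := by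
      have h1 := li_transfer hsU (Fin.castAdd l '' I) (by
        rintro _ ⟨i, -, rfl⟩
        rw [Fin.append_left, Fin.append_left])
      rw [hxI y] at h1
      exact h1 hli
    -- the `W` are not all zero
    have hW0 : W ≠ 0 := by
      intro h
      apply hw0
      funext i
      by_contra h1
      have h2 := spz_ne hs (i := Fin.natAdd (k + l) (Fin.natAdd N i)) (by
        rw [Fin.append_right, Fin.append_right]
        exact h1)
      rw [Fin.append_right] at h2
      exact h2 (congrFun h i)
    have hsum : ∑ i, W i * U i ≠ 0 := fun h =>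
      hW0 (li_gen x z hz I J U W hU hW hliU h)
    refine hrel ⟨∑ i : Fin N, X (Fin.natAdd (k + l) (Fin.natAdd N i), 0) *
      X (Fin.natAdd (k + l) (Fin.castAdd N i), 0), ?_, ?_, ?_⟩
    · exact Bdd.sum _ _ fun i _ => (Bdd.X _ (Nat.zero_le _) le_rfl).mul
        (Bdd.X _ (Nat.zero_le _) le_rfl)
    · rw [map_sum]
      simp only [map_mul, aeval_X]
      change ∑ i, Fin.append (Fin.append x z) V (Fin.natAdd (k + l) (Fin.natAdd N i)) *
        Fin.append (Fin.append x z) V (Fin.natAdd (k + l) (Fin.castAdd N i)) ≠ 0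
      simp only [Fin.append_right]
      exact hsum
    · rw [map_sum]
      simp only [map_mul, aeval_X]
      change ∑ i, Fin.append (Fin.append x y) (Fin.append u w)
        (Fin.natAdd (k + l) (Fin.natAdd N i)) *
          Fin.append (Fin.append x y) (Fin.append u w) (Fin.natAdd (k + l) (Fin.castAdd N i)) = 0
      simp only [Fin.append_right, Fin.append_left]
      exact h0
  rw [← hΨ y hrel, aeval_def, Algebra.algebraMap_self, eval₂_id]

end Pool.Agent.FNY
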