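import Pool.Agent.FNY.MultiYC
import Pool.Agent.FNY.Sblock

/-! # Several numbers, each a coordinate of a nonsingular zero of a system -/

set_option autoImplicit false

namespace Pool.Agent.FNY

open MvPolynomial Pool.Agent.FN Pool.Agent.FNX Pool.Agent.FNR Pool.Agent.FNS

/-- several numbers, from `sblock` -/
theorem multiY (K L : Type) [Field K] [CharZero K] [Field L] [IsAlgClosed L] [Algebra K L]
    (s M n D : ℕ) : ∃ E : ℕ, ∀ δ : Derivation K L L, CK δ → ∀ p q : Fin n → L, Spz δ p q →
      ¬ RelV δ E p q → ∀ (T : Fin M → Set (Fin n)) (z : Fin M → L),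
        (∀ t, Gvy K s (q '' T t) (z t)) →
          ∃ V : Fin M → L, (∀ t, V t ∈ acl K (p '' T t)) ∧
            Spz δ (Fin.append p V) (Fin.append q z) ∧
              ¬ RelV δ D (Fin.append p V) (Fin.append q z) :=
  multiY_of K L (fun m s N D => sblock K L m s N D) s M n D

end Pool.Agent.FNY
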