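import Pool.Agent.FNS.Mono
import Pool.Agent.FNS.CaseR
import Pool.Agent.FNY.Def

/-! # Systems: elimination of one unknown in the case of a monomial of bounded complexity -/

set_option autoImplicit false

namespace Pool.Agent.FNY

open MvPolynomial Pool.Agent.FN Pool.Agent.FNX Pool.Agent.FNR Pool.Agent.FNS

/-- a matrix with independent columns has a nonsingular square submatrix -/
theorem crm_rows {L : Type} [Field L] {M m : ℕ} (A : Matrix (Fin M) (Fin m) L)
    (h : ∀ v : Fin m → L, A.mulVec v = 0 → v = 0) :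
    ∃ σ : Fin m → Fin M, (A.submatrix σ id).det ≠ 0 := by
  classical
  have hr : A.rank = m := by
    unfold Matrix.rank
    rw [LinearMap.finrank_range_of_inj, Module.finrank_fin_fun]
    exact LinearMap.ker_eq_bot.1 (LinearMap.ker_eq_bot'.2 h)
  rw [Matrix.rank_eq_finrank_span_row] at hr
  obtain ⟨f, hf, hli⟩ : ∃ f : Fin m → Fin m → L, (∀ i, f i ∈ Set.range A.row) ∧
      LinearIndependent L f := by
    obtain ⟨f, hf, -, hli⟩ := Submodule.exists_fun_fin_finrank_span_eq L (Set.range A.row)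
    exact ⟨fun i => f (Fin.cast hr.symm i), fun i => hf _,
      hli.comp _ (Fin.cast_injective hr.symm)⟩
  choose σ hσ using hf
  refine ⟨σ, ?_⟩
  have h1 : LinearIndependent L (A.submatrix σ id).row := by
    have h2 : (A.submatrix σ id).row = f := by
      funext i
      rw [← hσ i]
      rfl
    rw [h2]
    exact hli
  exact ((Matrix.isUnit_iff_isUnit_det _).1
    (Matrix.linearIndependent_rows_iff_isUnit.1 h1)).ne_zero

/-- a monomial in the old unknowns as a monomial in the new ones -/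
theorem crm_mon {L : Type} [Field L] {m : ℕ} (k0 : Fin (m + 1)) (p : ℕ) (q : Fin m → ℤ)
    (g : L) (η : Fin m → L) (hη : ∀ j, η j ≠ 0) (β : Fin (m + 1) → L)
    (h0 : β k0 = g * ∏ j, η j ^ (-q j)) (h1 : ∀ j, β (k0.succAbove j) = η j ^ p)
    (n : Fin (m + 1) → ℤ) :
    ∏ k, β k ^ n k = g ^ n k0 * ∏ j, η j ^ (p * n (k0.succAbove j) - q j * n k0) := by
  rw [Fin.prod_univ_succAbove _ k0, h0, mul_zpow, mul_assoc, ← Finset.prod_zpow,
    ← Finset.prod_mul_distrib]
  congr 1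
  refine Finset.prod_congr rfl fun j _ => ?_
  rw [h1, ← zpow_natCast, ← zpow_mul, ← zpow_mul, ← zpow_add₀ (hη j)]
  congr 1
  ring

/-- reversed coefficients -/
theorem crm_rev {L : Type} [Field L] {D : ℕ} (r : Fin (D + 1) → L) (x : L) (hx : x ≠ 0)
    (h : ∑ k, r k * x ^ (k : ℕ) = 0) : ∑ k, r (Fin.rev k) * x⁻¹ ^ (k : ℕ) = 0 := by
  have h1 : ∑ k, r (Fin.rev k) * x⁻¹ ^ (k : ℕ) = x⁻¹ ^ D * ∑ k, r k * x ^ (k : ℕ) := by
    rw [← Equiv.sum_comp Fin.revPerm (fun k => r k * x ^ (k : ℕ)), Finset.mul_sum]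
    refine Finset.sum_congr rfl fun k _ => ?_
    have h2 : (k : ℕ) + (Fin.rev k : ℕ) = D := by
      rw [Fin.val_rev]
      have := k.2
      omega
    have h3 : x⁻¹ ^ D = x⁻¹ ^ (k : ℕ) * x⁻¹ ^ (Fin.rev k : ℕ) := by rw [← pow_add, h2]
    have h4 : x⁻¹ ^ (Fin.rev k : ℕ) * x ^ (Fin.rev k : ℕ) = 1 := by
      rw [← mul_pow, inv_mul_cancel₀ hx, one_pow]
    rw [h3, Fin.revPerm_apply]
    calc r (Fin.rev k) * x⁻¹ ^ (k : ℕ) =
        r (Fin.rev k) * x⁻¹ ^ (k : ℕ) * (x⁻¹ ^ (Fin.rev k : ℕ) * x ^ (Fin.rev k : ℕ)) := by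
          rw [h4, mul_one]
      _ = _ := by ring
  rw [h1, h, mul_zero]

/-- some exponent is positive -/
theorem crm_pos {K L : Type} [Field K] [Field L] [Algebra K L] {m N D1 : ℕ}
    (y : Fin N × ℕ → L) (β : Fin (m + 1) → L) (hβ : ∀ k, β k ≠ 0)
    (h : ∃ q : Fin (m + 1) → ℤ, q ≠ 0 ∧ ∃ R : Fin (D1 + 1) → MvPolynomial (Fin N × ℕ) K,
      (∀ k, Bdd D1 (R k)) ∧ (∃ k, aeval y (R k) ≠ 0) ∧
        ∑ k, aeval y (R k) * (∏ k, β k ^ q k) ^ (k : ℕ) = 0) :
    ∃ (k0 : Fin (m + 1)) (p : ℕ) (q : Fin m → ℤ), p ≠ 0 ∧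
      ∃ R : Fin (D1 + 1) → MvPolynomial (Fin N × ℕ) K,
      (∀ k, Bdd D1 (R k)) ∧ (∃ k, aeval y (R k) ≠ 0) ∧
        ∑ k, aeval y (R k) * (β k0 ^ p * ∏ j, β (k0.succAbove j) ^ q j) ^ (k : ℕ) = 0 := by
  obtain ⟨q, hq, R, hR1, hR2, hR3⟩ := h
  obtain ⟨k0, hk0⟩ := Function.ne_iff.1 hq
  rw [Pi.zero_apply] at hk0
  rcases lt_or_gt_of_ne hk0 with h0 | h0
  · refine ⟨k0, (-q k0).toNat, fun j => -q (k0.succAbove j), by omega, fun k => R (Fin.rev k),
      fun k => hR1 _, ?_, ?_⟩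
    · obtain ⟨k, hk⟩ := hR2
      refine ⟨Fin.rev k, ?_⟩
      change aeval y (R (Fin.rev (Fin.rev k))) ≠ 0
      rw [Fin.rev_rev]
      exact hk
    · have h1 : β k0 ^ (-q k0).toNat * ∏ j, β (k0.succAbove j) ^ (-q (k0.succAbove j)) =
          (∏ k, β k ^ q k)⁻¹ := by
        rw [Fin.prod_univ_succAbove _ k0, mul_inv, ← Finset.prod_inv_distrib]
        have h2 : ((-q k0).toNat : ℤ) = -q k0 := Int.toNat_of_nonneg (by omega)
        rw [← zpow_natCast, h2, zpow_neg]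
        simp only [zpow_neg]
      rw [h1]
      exact crm_rev (fun k => aeval y (R k)) _
        (Finset.prod_ne_zero_iff.2 fun k _ => zpow_ne_zero _ (hβ k)) hR3
  · refine ⟨k0, (q k0).toNat, fun j => q (k0.succAbove j), by omega, R, hR1, hR2, ?_⟩
    have h1 : β k0 ^ (q k0).toNat * ∏ j, β (k0.succAbove j) ^ (q (k0.succAbove j)) =
        ∏ k, β k ^ q k := by
      rw [Fin.prod_univ_succAbove _ k0]
      have h2 : ((q k0).toNat : ℤ) = q k0 := Int.toNat_of_nonneg (by omega)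
      rw [← zpow_natCast, h2]
    rw [h1]
    exact hR3

theorem caseRm (K L : Type) [Field K] [CharZero K] [Field L] [IsAlgClosed L] [Algebra K L]
    (m s N D D1 : ℕ)
    (hS : ∀ N D : ℕ, ∃ E : ℕ, ∀ δ : Derivation K L L, CK δ → ∀ a b : Fin N → L, Spz δ a b →
      ¬ RelV δ E a b → ∀ (c : Fin m → Fin s → Fin N) (n : Fin m → Fin s → Fin m → ℤ)
        (β : Fin m → L), (∀ k, β k ≠ 0) → Sy c n b β = 0 → (Jy c n b β).det ≠ 0 →
          ∃ α : Fin m → L, Spz δ (Fin.append a α) (Fin.append b β) ∧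
            ¬ RelV δ D (Fin.append a α) (Fin.append b β)) :
    ∃ E : ℕ, ∀ δ : Derivation K L L, CK δ → ∀ a b : Fin N → L, Spz δ a b →
      ¬ RelV δ E a b → ∀ (c : Fin (m + 1) → Fin s → Fin N)
        (n : Fin (m + 1) → Fin s → Fin (m + 1) → ℤ) (β : Fin (m + 1) → L), (∀ k, β k ≠ 0) →
          Sy c n b β = 0 → (Jy c n b β).det ≠ 0 →
          (∃ q : Fin (m + 1) → ℤ, q ≠ 0 ∧ ∃ R : Fin (D1 + 1) → MvPolynomial (Fin N × ℕ) K,
            (∀ k, Bdd D1 (R k)) ∧ (∃ k, aeval (jet δ b) (R k) ≠ 0) ∧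
              ∑ k, aeval (jet δ b) (R k) * (∏ k, β k ^ q k) ^ (k : ℕ) = 0) →
            ∃ α : Fin (m + 1) → L, Spz δ (Fin.append a α) (Fin.append b β) ∧
              ¬ RelV δ D (Fin.append a α) (Fin.append b β) := by
  classical
  have hL : CharZero L := charZero_of_injective_algebraMap (algebraMap K L).injective
  obtain ⟨D2, h2⟩ := mono_entries (N + 1 + (m + 1) * s + m) m (N + (m + 1)) D
  obtain ⟨D3, h3⟩ := hS (N + 1 + (m + 1) * s) D2
  obtain ⟨D4, h4⟩ := mono_entries (N + 1) 1 (N + 1 + (m + 1) * s) D3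
  obtain ⟨D5, h5⟩ := case_r 0 N D4 D1
  refine ⟨D5, ?_⟩
  intro δ hδ a b hab hnr c n β hβ hF hJ hR
  obtain ⟨k0, p, q, hp, R, hR1, hR2, hR3⟩ := crm_pos (jet δ b) β hβ hR
  -- the new unknowns
  choose η hη using fun j => IsAlgClosed.exists_pow_nat_eq (β (k0.succAbove j))
    (Nat.pos_of_ne_zero hp)
  have hη0 : ∀ j, η j ≠ 0 := fun j h => hβ (k0.succAbove j) (by rw [← hη j, h, zero_pow hp])
  obtain ⟨g, hg⟩ : ∃ g, g = β k0 * ∏ j, η j ^ q j := ⟨_, rfl⟩
  have hP0 : ∏ j, η j ^ q j ≠ 0 := Finset.prod_ne_zero_iff.2 fun j _ => zpow_ne_zero _ (hη0 j)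
  have hg0 : g ≠ 0 := by rw [hg]; exact mul_ne_zero (hβ k0) hP0
  have hgp : g ^ p = β k0 ^ p * ∏ j, β (k0.succAbove j) ^ q j := by
    rw [hg, mul_pow, ← Finset.prod_pow]
    congr 1
    refine Finset.prod_congr rfl fun j _ => ?_
    rw [← hη j, ← zpow_natCast, ← zpow_natCast, ← zpow_mul, ← zpow_mul, mul_comm]
  have hβ0 : β k0 = g * ∏ j, η j ^ (-q j) := by
    have h6 : ∏ j, η j ^ (-q j) = (∏ j, η j ^ q j)⁻¹ := by
      rw [← Finset.prod_inv_distrib]
      exact Finset.prod_congr rfl fun j _ => zpow_neg _ _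
    rw [hg, h6, mul_assoc, mul_inv_cancel₀ hP0, mul_one]
  have hmon : ∀ w : Fin (m + 1) → ℤ, ∏ k, β k ^ w k =
      g ^ w k0 * ∏ j, η j ^ (p * w (k0.succAbove j) - q j * w k0) := fun w =>
    crm_mon k0 p q g η hη0 β hβ0 (fun j => (hη j).symm) w
  obtain ⟨g', -, hs1, hr1⟩ := h5 δ hδ a b hab hnr Fin.elim0 Fin.elim0 Fin.elim0 g hg0
    (by rw [Finset.univ_eq_empty, Finset.sum_empty]) p hp ⟨R, hR1, hR2, by rw [hgp]; exact hR3⟩
  -- the coefficients
  obtain ⟨c4, hc4⟩ : ∃ c4 : Fin (N + 1 + (m + 1) * s) → Fin (N + 1),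
    c4 = Fin.append (fun i : Fin (N + 1) => i) (fun x : Fin ((m + 1) * s) =>
      (c (finProdFinEquiv.symm x).1 (finProdFinEquiv.symm x).2).castSucc) := ⟨_, rfl⟩
  obtain ⟨n4, hn4⟩ : ∃ n4 : Fin (N + 1 + (m + 1) * s) → Fin 1 → ℤ,
    n4 = Fin.append (fun (_ : Fin (N + 1)) (_ : Fin 1) => (0 : ℤ)) (fun (x : Fin ((m + 1) * s)) _ =>
      n (finProdFinEquiv.symm x).1 (finProdFinEquiv.symm x).2 k0) := ⟨_, rfl⟩
  obtain ⟨hs2, hr2⟩ := h4 δ hδ _ _ hs1 (fun _ => Fin.last N)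
    (fun _ => by rw [Fin.snoc_last]; exact hg0) c4 n4
  replace hr2 := fun h => hr1 (hr2 h)
  obtain ⟨Z, hZ⟩ : ∃ Z : (Fin N → L) → L → Fin (N + 1 + (m + 1) * s) → L, Z = fun y x j =>
    (Fin.snoc y x : Fin (N + 1) → L) (c4 j) *
      ∏ k : Fin 1, (Fin.snoc y x : Fin (N + 1) → L) (Fin.last N) ^ n4 j k := ⟨_, rfl⟩
  have hZl : ∀ y x i, Z y x (Fin.castAdd ((m + 1) * s) i) = (Fin.snoc y x : Fin (N + 1) → L) i := by
    intro y x i
    rw [hZ]
    simp only [hc4, hn4, Fin.append_left, zpow_zero, Finset.prod_const_one, mul_one]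
  have hZr : ∀ y x i t, Z y x (Fin.natAdd (N + 1) (finProdFinEquiv (i, t))) =
      y (c i t) * x ^ n i t k0 := by
    intro y x i t
    rw [hZ]
    simp only [hc4, hn4, Fin.append_right, Equiv.symm_apply_apply, Fin.snoc_castSucc,
      Fin.snoc_last, Finset.univ_unique, Finset.prod_singleton]
  have hZs : Spz δ (Z a g') (Z b g) := by rw [hZ]; exact hs2
  have hZn : ¬ RelV δ D3 (Z a g') (Z b g) := by rw [hZ]; exact hr2
  -- the new system
  obtain ⟨T, hT⟩ : ∃ T : Fin (m + 1) → Fin s → L, ∀ i t, T i t = b (c i t) * ∏ k, β k ^ n i t k :=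
    ⟨_, fun i t => rfl⟩
  obtain ⟨n3, hn3⟩ : ∃ n3 : Fin (m + 1) → Fin s → Fin m → ℤ, ∀ i t j,
    n3 i t j = p * n i t (k0.succAbove j) - q j * n i t k0 := ⟨_, fun i t j => rfl⟩
  have hT' : ∀ i t, Z b g (Fin.natAdd (N + 1) (finProdFinEquiv (i, t))) *
      ∏ j, η j ^ n3 i t j = T i t := by
    intro i t
    rw [hZr, hT, hmon, mul_assoc]
    simp only [hn3]
  have hJe : ∀ i k, Jy c n b β i k = ∑ t, (n i t k : L) * T i t := by
    intro i k
    unfold Jy
    rw [Matrix.of_apply]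
    exact Finset.sum_congr rfl fun t _ => by rw [hT]
  obtain ⟨σ, hσ⟩ := crm_rows (Matrix.of fun (i : Fin (m + 1)) (j : Fin m) =>
    ∑ t, (n3 i t j : L) * T i t) (by
      intro v hv
      obtain ⟨w, hw⟩ : ∃ w : Fin (m + 1) → L, w = Fin.insertNth (α := fun _ => L) k0
        (-∑ j, (q j : L) * v j) (fun j => (p : L) * v j) := ⟨_, rfl⟩
      have hw0 : w k0 = -∑ j, (q j : L) * v j := by rw [hw, Fin.insertNth_apply_same]
      have hw1 : ∀ j, w (k0.succAbove j) = (p : L) * v j := fun j => by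
        rw [hw, Fin.insertNth_apply_succAbove]
      have h6 : w = 0 := by
        apply Matrix.eq_zero_of_mulVec_eq_zero hJ
        funext i
        have h7 := congrFun hv i
        rw [Matrix.mulVec, dotProduct, Pi.zero_apply] at h7 ⊢
        rw [Fin.sum_univ_succAbove _ k0, hw0, ← h7]
        simp only [hw1, hJe, Matrix.of_apply, hn3]
        rw [mul_neg, Finset.mul_sum, ← Finset.sum_neg_distrib, ← Finset.sum_add_distrib]
        refine Finset.sum_congr rfl fun j _ => ?_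
        rw [Finset.sum_mul, Finset.sum_mul, Finset.sum_mul, ← Finset.sum_neg_distrib,
          ← Finset.sum_add_distrib]
        refine Finset.sum_congr rfl fun t _ => ?_
        push_cast
        ring
      funext j
      have h7 := congrFun h6 (k0.succAbove j)
      rw [hw1, Pi.zero_apply, mul_eq_zero] at h7
      exact h7.resolve_left (Nat.cast_ne_zero.2 hp))
  obtain ⟨η', hs3, hr3⟩ := h3 δ hδ _ _ hZs hZn
    (fun i t => Fin.natAdd (N + 1) (finProdFinEquiv (σ i, t))) (fun i t j => n3 (σ i) t j) η hη0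
    (by
      funext i
      have h6 := congrFun hF (σ i)
      unfold Sy at h6 ⊢
      rw [Pi.zero_apply] at h6 ⊢
      rw [← h6]
      exact Finset.sum_congr rfl fun t _ => by rw [hT', hT])
    (by
      have h6 : Jy (fun i t => Fin.natAdd (N + 1) (finProdFinEquiv (σ i, t)))
          (fun i t j => n3 (σ i) t j) (Z b g) η = (Matrix.of fun (i : Fin (m + 1)) (j : Fin m) =>
            ∑ t, (n3 i t j : L) * T i t).submatrix σ id := by
        ext i j
        unfold Jy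
        rw [Matrix.of_apply, Matrix.submatrix_apply, Matrix.of_apply]
        exact Finset.sum_congr rfl fun t _ => by rw [hT']; rfl
      rw [h6]
      exact hσ)
  -- the old unknowns
  obtain ⟨c2, hc2⟩ : ∃ c2 : Fin (N + (m + 1)) → Fin (N + 1 + (m + 1) * s + m),
    c2 = Fin.append (fun i : Fin N => Fin.castAdd m (Fin.castAdd ((m + 1) * s) i.castSucc))
      (Fin.insertNth (α := fun _ => Fin (N + 1 + (m + 1) * s + m)) k0
        (Fin.castAdd m (Fin.castAdd ((m + 1) * s) (Fin.last N)))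
        (fun j : Fin m => Fin.natAdd (N + 1 + (m + 1) * s) j)) := ⟨_, rfl⟩
  obtain ⟨n2, hn2⟩ : ∃ n2 : Fin (N + (m + 1)) → Fin m → ℤ,
    n2 = Fin.append (fun (_ : Fin N) (_ : Fin m) => (0 : ℤ))
      (Fin.insertNth (α := fun _ => Fin m → ℤ) k0 (fun j => -q j)
        (fun j : Fin m => Pi.single j ((p : ℤ) - 1))) := ⟨_, rfl⟩
  obtain ⟨hs4, hr4⟩ := h2 δ hδ _ _ hs3 (fun k => Fin.natAdd (N + 1 + (m + 1) * s) k)
    (fun k => by rw [Fin.append_right]; exact hη0 k) c2 n2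
  obtain ⟨W, hW⟩ : ∃ W : (Fin N → L) → L → (Fin m → L) → Fin (N + (m + 1)) → L,
    W = fun y x e i => (Fin.append (Z y x) e : Fin (N + 1 + (m + 1) * s + m) → L) (c2 i) *
      ∏ k : Fin m, (Fin.append (Z y x) e : Fin (N + 1 + (m + 1) * s + m) → L)
        (Fin.natAdd (N + 1 + (m + 1) * s) k) ^ n2 i k := ⟨_, rfl⟩
  have hWl : ∀ y x e i, W y x e (Fin.castAdd (m + 1) i) = y i := by
    intro y x e i
    rw [hW]
    simp only [hc2, hn2, Fin.append_left, hZl, Fin.snoc_castSucc, zpow_zero,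
      Finset.prod_const_one, mul_one]
  have hWa : W a g' η' = Fin.append a fun k => W a g' η' (Fin.natAdd N k) := by
    funext i
    refine Fin.addCases (fun i => ?_) (fun i => ?_) i
    · rw [hWl, Fin.append_left]
    · rw [Fin.append_right]
  have hWb : W b g η = Fin.append b β := by
    funext i
    refine Fin.addCases (fun i => ?_) (fun i => ?_) i
    · rw [hWl, Fin.append_left]
    · rw [Fin.append_right]
      refine Fin.succAboveCases k0 ?_ (fun j => ?_) i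
      · rw [hW]
        simp only [hc2, hn2, Fin.append_right, Fin.insertNth_apply_same, Fin.append_left, hZl,
          Fin.snoc_last]
        exact hβ0.symm
      · rw [hW]
        simp only [hc2, hn2, Fin.append_right, Fin.insertNth_apply_succAbove]
        rw [Finset.prod_eq_single j, Pi.single_eq_same, ← hη j]
        · rw [← zpow_one_add₀ (hη0 j), add_sub_cancel, zpow_natCast]
        · intro k _ hk
          rw [Pi.single_eq_of_ne hk, zpow_zero]
        · intro h6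
          exact absurd (Finset.mem_univ j) h6
  refine ⟨fun k => W a g' η' (Fin.natAdd N k), ?_, ?_⟩
  · rw [← hWa, ← hWb, hW]
    exact hs4
  · rw [← hWa, ← hWb, hW]
    exact fun h => hr3 (hr4 h)

end Pool.Agent.FNY
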