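import Pool.Agent.FNY.Def
import Pool.Agent.FNS.CaseG

/-! # The ultraproduct: monomials in several numbers -/

namespace Pool.Agent.FNY

open MvPolynomial Pool.Agent.FN Pool.Agent.FNX Pool.Agent.FNR Pool.Agent.FNS Filter

/-- vectors of exponents in a lattice -/
theorem expsM (U : Ultrafilter ℕ) {q m : ℕ} (x : Fin q → Fin m → ℕ → ℤ) :
    ∃ (r : ℕ) (ν : Fin r → Fin m → ℕ → ℤ) (e : Fin q → Fin r → ℤ),
      (∀ i k, ∀ᶠ E in (U : Filter ℕ), x i k E = ∑ j, e i j * ν j k E) ∧
        ∀ c : Fin r → ℤ, (∀ k, ∀ᶠ E in (U : Filter ℕ), ∑ j, c j * ν j k E = 0) → c = 0 := by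
  classical
  obtain ⟨r, ν, e, he, hind⟩ := lattice (M := Fin m → Germ (U : Filter ℕ) ℤ) (fun n y hy => by
    by_cases hn : n = 0
    · exact Or.inl hn
    · right
      funext k
      have hk := congrFun hy k
      rw [Pi.smul_apply, Pi.zero_apply] at hk
      rw [Pi.zero_apply]
      generalize y k = z at hk
      induction z using Germ.inductionOn with
      | _ f =>
        have h1 : ((n • f : ℕ → ℤ) : Germ (U : Filter ℕ) ℤ) = ((0 : ℕ → ℤ) : Germ _ ℤ) := hk
        rw [Germ.coe_eq] at h1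
        change (f : Germ (U : Filter ℕ) ℤ) = ((0 : ℕ → ℤ) : Germ _ ℤ)
        rw [Germ.coe_eq]
        filter_upwards [h1] with E hE
        simpa [hn] using hE) (fun i k => (x i k : Germ (U : Filter ℕ) ℤ))
  have hrep : ∀ j k, ∃ (f : ℕ → ℤ), (f : Germ (U : Filter ℕ) ℤ) = ν j k := fun j k =>
    Germ.inductionOn (ν j k) fun f => ⟨f, rfl⟩
  choose f hf using hrep
  have hsum : ∀ (c : Fin r → ℤ) (k : Fin m), (∑ j, c j • ν j) k =
      ((fun E => ∑ j, c j * f j k E : ℕ → ℤ) : Germ (U : Filter ℕ) ℤ) := by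
    intro c k
    have h1 : (fun E => ∑ j, c j * f j k E : ℕ → ℤ) = ∑ j, c j • f j k := by
      funext E
      rw [Finset.sum_apply]
      rfl
    rw [h1]
    have h2 : ∀ g : ℕ → ℤ, (g : Germ (U : Filter ℕ) ℤ) = Germ.coeRingHom (U : Filter ℕ) g :=
      fun g => rfl
    rw [h2, map_sum, Finset.sum_apply]
    refine Finset.sum_congr rfl fun j _ => ?_
    rw [Pi.smul_apply, ← hf j k]
    rfl
  refine ⟨r, f, e, fun i k => ?_, fun c hc => hind c ?_⟩
  · have h1 := congrFun (he i) k
    rw [hsum, Germ.coe_eq] at h1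
    exact h1
  · funext k
    rw [hsum]
    change _ = ((0 : ℕ → ℤ) : Germ (U : Filter ℕ) ℤ)
    rw [Germ.coe_eq]
    exact hc k

/-- a monomial with integer exponents -/
def mon {L : Type} [Field L] {m : ℕ} (x : Fin m → L) (q : Fin m → ℤ) : L := ∏ k, x k ^ q k

theorem mon_ne {L : Type} [Field L] {m : ℕ} {x : Fin m → L} (hx : ∀ k, x k ≠ 0)
    (q : Fin m → ℤ) : mon x q ≠ 0 :=
  Finset.prod_ne_zero_iff.2 fun k _ => zpow_ne_zero _ (hx k)

theorem mon_sum {L : Type} [Field L] {m r : ℕ} {x : Fin m → L} (hx : ∀ k, x k ≠ 0)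
    (w : Fin r → ℤ) (ν : Fin r → Fin m → ℤ) :
    ∏ j, mon x (ν j) ^ w j = mon x fun k => ∑ j, w j * ν j k := by
  unfold mon
  simp only [← Finset.prod_zpow]
  rw [Finset.prod_comm]
  refine Finset.prod_congr rfl fun k _ => ?_
  rw [zpow_fin_sum (hx k)]
  refine Finset.prod_congr rfl fun j _ => ?_
  rw [← zpow_mul, mul_comm]

theorem der_mon {R L : Type} [CommRing R] [Field L] [Algebra R L] (d : Derivation R L L) {m : ℕ}
    {x : Fin m → L} (hx : ∀ k, x k ≠ 0) (q : Fin m → ℤ) :
    d (mon x q) = (∑ k, (q k : L) * (d (x k) / x k)) * mon x q := by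
  have h1 := dlog_prod d Finset.univ (fun k => x k ^ q k) fun k _ => zpow_ne_zero _ (hx k)
  change d (mon x q) / mon x q = _ at h1
  rw [div_eq_iff (mon_ne hx q)] at h1
  rw [h1]
  congr 1
  exact Finset.sum_congr rfl fun k _ => dlog_zpow d (hx k) _

section powers

variable {U : Ultrafilter ℕ} {K L G : Type} [Field K] [Field L] [Algebra K L] [Field G]
  (u : UP U L G)

theorem cl_prodM {r m : ℕ} (ν : Fin r → Fin m → ℕ → ℤ) (x : ℕ → Fin m → L)
    (hx : ∀ E k, x E k ≠ 0) (w : Fin r → ℤ) (q : Fin m → ℕ → ℤ)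
    (h : ∀ k, ∀ᶠ E in (U : Filter ℕ), q k E = ∑ j, w j * ν j k E) :
    ∏ j, (u.cl fun E => mon (x E) fun k => ν j k E) ^ w j =
      u.cl fun E => mon (x E) fun k => q k E := by
  have h1 : ∀ j, (u.cl fun E => mon (x E) fun k => ν j k E) ^ w j =
      u.cl fun E => (mon (x E) fun k => ν j k E) ^ w j :=
    fun j => u.cl_zpow _ (fun E => mon_ne (hx E) _) _
  simp only [h1]
  rw [← map_prod, u.eq_iff]
  filter_upwards [eventually_all.2 h] with E hE
  rw [Finset.prod_apply, mon_sum (hx E)]
  congr 1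
  funext k
  rw [hE k]

theorem der_clM (δ : ℕ → Derivation K L L) {m : ℕ} (x : ℕ → Fin m → L)
    (hx : ∀ E k, x E k ≠ 0) (ν : Fin m → ℕ → ℤ) :
    u.der δ (u.cl fun E => mon (x E) fun k => ν k E) =
      (∑ k, (u.cl fun E => algebraMap K L (ν k E : K)) *
        u.cl fun E => δ E (x E k) / x E k) * u.cl fun E => mon (x E) fun k => ν k E := by
  have h1 : ∑ k, (u.cl fun E => algebraMap K L (ν k E : K)) *
      (u.cl fun E => δ E (x E k) / x E k) =
        u.cl fun E => ∑ k, (ν k E : L) * (δ E (x E k) / x E k) := by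
    have h2 : (fun E => ∑ k, (ν k E : L) * (δ E (x E k) / x E k)) =
        ∑ k, (fun E => algebraMap K L (ν k E : K)) * fun E => δ E (x E k) / x E k := by
      funext E
      rw [Finset.sum_apply]
      refine Finset.sum_congr rfl fun k _ => ?_
      rw [Pi.mul_apply, map_intCast]
    rw [h2, map_sum]
    exact Finset.sum_congr rfl fun k _ => (map_mul _ _ _).symm
  rw [h1, u.der_mk, ← map_mul]
  congr 1
  funext E
  exact der_mon (δ E) (hx E) _

end powers

/-- inverses as new entries -/
theorem spz_invs {K L : Type} [Field K] [Field L] [Algebra K L] (δ : Derivation K L L)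
    {N : ℕ} (a b : Fin N → L) (hab : Spz δ a b) (r : ℕ) : ∀ I : Fin r → Fin N,
      (∀ t, b (I t) ≠ 0) →
        Spz δ (Fin.append a fun t => (a (I t))⁻¹) (Fin.append b fun t => (b (I t))⁻¹) := by
  induction r with
  | zero =>
    intro I _
    refine spz_comp hab (Fin.append id Fin.elim0) (fun i => ?_) (fun i => ?_)
    · refine Fin.addCases (fun i => ?_) (fun i => i.elim0) i
      rw [Fin.append_left, Fin.append_left]
      rfl
    · refine Fin.addCases (fun i => ?_) (fun i => i.elim0) i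
      rw [Fin.append_left, Fin.append_left]
      rfl
  | succ r ih =>
    intro I hI
    have h1 := ih (fun t => I t.castSucc) fun t => hI _
    have h2 := spz_inv δ _ _ h1 (Fin.castAdd r (I (Fin.last r))) (by
      rw [Fin.append_left]
      exact hI _)
    rw [Fin.append_left, Fin.append_left] at h2
    refine spz_comp h2 (Fin.append (fun i => (Fin.castAdd r i).castSucc)
      (Fin.snoc (fun t => (Fin.natAdd N t).castSucc) (Fin.last _))) (fun i => ?_) (fun i => ?_)
    · refine Fin.addCases (fun i => ?_) (fun t => ?_) i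
      · rw [Fin.append_left, Fin.append_left, Fin.snoc_castSucc, Fin.append_left]
      · rw [Fin.append_right, Fin.append_right]
        refine Fin.lastCases ?_ (fun t => ?_) t
        · rw [Fin.snoc_last, Fin.snoc_last]
        · rw [Fin.snoc_castSucc, Fin.snoc_castSucc, Fin.append_right]
    · refine Fin.addCases (fun i => ?_) (fun t => ?_) i
      · rw [Fin.append_left, Fin.append_left, Fin.snoc_castSucc, Fin.append_left]
      · rw [Fin.append_right, Fin.append_right]
        refine Fin.lastCases ?_ (fun t => ?_) t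
        · rw [Fin.snoc_last, Fin.snoc_last]
        · rw [Fin.snoc_castSucc, Fin.snoc_castSucc, Fin.append_right]

/-- a specialization is a specialization for the monomials with integer exponents -/
theorem spz_mon {K L : Type} [Field K] [Field L] [Algebra K L] (δ : Derivation K L L)
    {N m ρ : ℕ} (a b : Fin N → L) (α β : Fin m → L) (hβ : ∀ k, β k ≠ 0)
    (h : Spz δ (Fin.append a α) (Fin.append b β)) (ν : Fin ρ → Fin m → ℤ)
    (Q : MvPolynomial ((Fin N × ℕ) ⊕ Fin ρ) K)
    (hQ : aeval (Sum.elim (jet δ a) fun j => mon α (ν j)) Q = 0) :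
    aeval (Sum.elim (jet δ b) fun j => mon β (ν j)) Q = 0 := by
  have h1 := spz_invs δ _ _ h m (fun k => Fin.natAdd N k) fun k => by
    rw [Fin.append_right]
    exact hβ k
  have hαk : ∀ k, α k ≠ 0 := by
    intro k
    have h3 := spz_ne h (i := Fin.natAdd N k) (by
      rw [Fin.append_right]
      exact hβ k)
    rwa [Fin.append_right] at h3
  have h2 : ∀ (p : Fin N → L) (x : Fin m → L), (∀ k, x k ≠ 0) →
      aeval (Sum.elim (jet δ p) fun j => mon x (ν j)) Q =
        aeval (jet δ (Fin.append (Fin.append p x) fun t =>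
          (Fin.append p x (Fin.natAdd N t))⁻¹)) (bind₁ (Sum.elim
            (fun v : Fin N × ℕ => (X (Fin.castAdd m (Fin.castAdd m v.1), v.2) :
              MvPolynomial (Fin (N + m + m) × ℕ) K))
            fun j => ∏ k, X (Fin.castAdd m (Fin.natAdd N k), 0) ^ (ν j k).toNat *
              X (Fin.natAdd (N + m) k, 0) ^ (-ν j k).toNat) Q) := by
    intro p x hx
    rw [aeval_bind₁]
    congr 1
    congr 1
    funext t
    rcases t with w | j
    · change jet δ p w = aeval _ (X (Fin.castAdd m (Fin.castAdd m w.1), w.2))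
      rw [aeval_X]
      change _ = (δ)^[w.2] (Fin.append (Fin.append p x) _ (Fin.castAdd m (Fin.castAdd m w.1)))
      rw [Fin.append_left, Fin.append_left]
      rfl
    · change mon x (ν j) = aeval _ (∏ k, X (Fin.castAdd m (Fin.natAdd N k), 0) ^ (ν j k).toNat *
        X (Fin.natAdd (N + m) k, 0) ^ (-ν j k).toNat)
      rw [map_prod]
      refine Finset.prod_congr rfl fun k _ => ?_
      rw [map_mul, map_pow, map_pow, aeval_X, aeval_X]
      have hj : ∀ (y : Fin (N + m + m) → L) i, jet δ y (i, 0) = y i := fun _ _ => rfl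
      rw [hj, hj, Fin.append_left, Fin.append_right, Fin.append_right, Fin.append_right, inv_pow,
        ← zpow_natCast, ← zpow_natCast, ← zpow_neg, ← zpow_add₀ (hx k)]
      congr 1
      omega
  rw [h2 a α hαk] at hQ
  rw [h2 b β hβ]
  exact h1 _ hQ

end Pool.Agent.FNY
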