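import Pool.Agent.FNS.Entry
import Pool.Agent.FNR.Multi

/-! # Laurent monomials in the entries, as new entries -/

namespace Pool.Agent.FNY

open MvPolynomial Pool.Agent.FN Pool.Agent.FNX Pool.Agent.FNR Pool.Agent.FNS

/-- an intermediate entry can be forgotten -/
theorem stp_drop {K L : Type} [Field K] [Field L] [Algebra K L] {δ : Derivation K L L}
    {E1 E2 : ℕ → ℕ} {N : ℕ} {a b : Fin N → L} {γ γ' α β : L} (h1 : Stp δ E1 a b γ γ')
    (h2 : Stp δ E2 (Fin.snoc a γ : Fin (N + 1) → L) (Fin.snoc b γ') α β) :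
    Stp δ (fun D => E1 (E2 D)) a b α β := by
  let f : Fin (N + 1) → Fin (N + 1 + 1) :=
    Fin.snoc (fun i => i.castSucc.castSucc) (Fin.last (N + 1))
  have hf : ∀ (y : Fin N → L) (u w : L) (i : Fin (N + 1)), (Fin.snoc y w : Fin (N + 1) → L) i =
      (Fin.snoc (Fin.snoc y u : Fin (N + 1) → L) w : Fin (N + 1 + 1) → L) (f i) := by
    intro y u w i
    refine Fin.lastCases ?_ (fun i => ?_) i
    · simp only [f, Fin.snoc_last]
    · simp only [f, Fin.snoc_castSucc]
  exact ⟨spz_comp h2.1 f (hf a γ α) (hf b γ' β), fun D hD =>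
    h1.2 _ (h2.2 D (relV_comp hD f (hf a γ α) (hf b γ' β)))⟩

/-- a monomial, of any degree -/
theorem stp_mono (N : ℕ) : ∃ E : ℕ → ℕ, ∀ {K L : Type} [Field K] [CharZero K] [Field L]
    [Algebra K L] (δ : Derivation K L L), CK δ → ∀ (a b : Fin N → L), Spz δ a b →
      ∀ f : MvPolynomial (Fin N) K, f.support.card ≤ 1 →
        Stp δ E a b (aeval a f) (aeval b f) := by
  choose E hE using fun D => entry 1 N D
  refine ⟨E, fun {K L} _ _ _ _ δ hδ a b hab f hf => ⟨spz_poly hab f, fun D hD => ?_⟩⟩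
  exact hE D δ hδ a b hab f hf hD

theorem card_support_monomial {σ K : Type} [Field K] (d : σ →₀ ℕ) (κ : K) :
    (monomial d κ : MvPolynomial σ K).support.card ≤ 1 := by
  classical
  refine (Finset.card_le_card (MvPolynomial.support_monomial_subset)).trans ?_
  rw [Finset.card_singleton]

/-- a power of an entry -/
theorem stp_zpow (N : ℕ) : ∃ E : ℕ → ℕ, ∀ {K L : Type} [Field K] [CharZero K] [Field L]
    [IsAlgClosed L] [Algebra K L] (δ : Derivation K L L), CK δ → ∀ (a b : Fin N → L), Spz δ a b →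
      ∀ (i : Fin N) (e : ℤ), (e < 0 → b i ≠ 0) → Stp δ E a b (a i ^ e) (b i ^ e) := by
  obtain ⟨E1, h1⟩ := stp_mono N
  obtain ⟨E2, h2⟩ := exists_stp 0 N
  obtain ⟨E3, h3⟩ := stp_mono (N + 1)
  refine ⟨fun D => max (E1 D) (E2 (E3 D)), ?_⟩
  intro K L _ _ _ _ _ δ hδ a b hab i e he
  have hX : ∀ (M : ℕ) (j : Fin M) (k : ℕ), ((X j : MvPolynomial (Fin M) K) ^ k).support.card ≤ 1 :=
    fun M j k => by
      rw [X_pow_eq_monomial]
      exact card_support_monomial _ _
  rcases le_or_gt 0 e with h0 | h0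
  · obtain ⟨k, rfl⟩ := Int.eq_ofNat_of_zero_le h0
    have h := h1 δ hδ a b hab ((X i : MvPolynomial (Fin N) K) ^ k) (hX N i k)
    rw [map_pow, map_pow, aeval_X, aeval_X] at h
    rw [zpow_natCast, zpow_natCast]
    exact h.mono fun D => le_max_left _ _
  · obtain ⟨k, hk⟩ := Int.exists_eq_neg_ofNat h0.le
    have hb := he h0
    have g1 := (h2 δ hδ a b hab).2.1 i hb
    have g2 := h3 δ hδ _ _ g1.1 ((X (Fin.last N) : MvPolynomial (Fin (N + 1)) K) ^ k)
      (hX (N + 1) _ k)
    rw [map_pow, map_pow, aeval_X, aeval_X, Fin.snoc_last, Fin.snoc_last] at g2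
    have g3 := stp_drop g1 g2
    have h4 : ∀ y : L, y ^ e = y⁻¹ ^ k := by
      intro y
      rw [hk, zpow_neg, zpow_natCast, inv_pow]
    rw [h4, h4]
    exact g3.mono fun D => le_max_right _ _

/-- a Laurent monomial -/
theorem stp_prod (h : ℕ) : ∀ N : ℕ, ∃ E : ℕ → ℕ, ∀ {K L : Type} [Field K] [CharZero K] [Field L]
    [IsAlgClosed L] [Algebra K L] (δ : Derivation K L L), CK δ → ∀ (a b : Fin N → L), Spz δ a b →
      ∀ (ι : Fin h → Fin N) (e : Fin h → ℤ), (∀ x, e x < 0 → b (ι x) ≠ 0) →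
        Stp δ E a b (∏ x, a (ι x) ^ e x) (∏ x, b (ι x) ^ e x) := by
  induction h with
  | zero =>
    intro N
    obtain ⟨E, hE⟩ := stp_mono N
    refine ⟨E, ?_⟩
    intro K L _ _ _ _ _ δ hδ a b hab ι e he
    have h := hE δ hδ a b hab (monomial 0 (1 : K)) (card_support_monomial _ _)
    rw [monomial_zero', map_one, map_one, map_one] at h
    rw [Finset.univ_eq_empty, Finset.prod_empty, Finset.prod_empty]
    exact h
  | succ h ih =>
    intro N
    obtain ⟨E1, h1⟩ := ih N
    obtain ⟨E2, h2⟩ := stp_zpow (N + 1)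
    obtain ⟨E3, h3⟩ := stp_mono (N + 1 + 1)
    refine ⟨fun D => E1 (E2 (E3 D)), ?_⟩
    intro K L _ _ _ _ _ δ hδ a b hab ι e he
    have g1 := h1 δ hδ a b hab (fun x => ι x.castSucc) (fun x => e x.castSucc)
      fun x hx => he x.castSucc hx
    have g2 := h2 δ hδ _ _ g1.1 (ι (Fin.last h)).castSucc (e (Fin.last h)) (by
      intro hx
      rw [Fin.snoc_castSucc]
      exact he _ hx)
    rw [Fin.snoc_castSucc, Fin.snoc_castSucc] at g2
    have g3 := h3 δ hδ _ _ g2.1 (monomial (Finsupp.single (Fin.last N).castSucc 1 +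
      Finsupp.single (Fin.last (N + 1)) 1) (1 : K)) (card_support_monomial _ _)
    have h4 : ∀ y : Fin (N + 1 + 1) → L, aeval y (monomial (Finsupp.single (Fin.last N).castSucc 1 +
        Finsupp.single (Fin.last (N + 1)) 1) (1 : K)) =
          y (Fin.last N).castSucc * y (Fin.last (N + 1)) := by
      intro y
      have h5 : (monomial (Finsupp.single (Fin.last N).castSucc 1 +
          Finsupp.single (Fin.last (N + 1)) 1) (1 : K) : MvPolynomial (Fin (N + 1 + 1)) K) =
            X (Fin.last N).castSucc * X (Fin.last (N + 1)) := by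
        rw [X, X, monomial_mul, one_mul]
      rw [h5, map_mul, aeval_X, aeval_X]
    rw [h4, h4] at g3
    simp only [Fin.snoc_last, Fin.snoc_castSucc] at g3
    rw [Fin.prod_univ_castSucc, Fin.prod_univ_castSucc]
    exact stp_drop g1 (stp_drop g2 g3)

/-- several Laurent monomials -/
theorem laur (h N r : ℕ) : ∃ E : ℕ → ℕ, ∀ {K L : Type} [Field K] [CharZero K] [Field L]
    [IsAlgClosed L] [Algebra K L] (δ : Derivation K L L), CK δ → ∀ (a b : Fin N → L), Spz δ a b →
      ∀ (ι : Fin r → Fin h → Fin N) (e : Fin r → Fin h → ℤ),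
        (∀ j x, e j x < 0 → b (ι j x) ≠ 0) →
          Spz δ (Fin.append a (fun j => ∏ x, a (ι j x) ^ e j x) : Fin (N + r) → L)
            (Fin.append b fun j => ∏ x, b (ι j x) ^ e j x) ∧
          ∀ D : ℕ, RelV δ D (Fin.append a (fun j => ∏ x, a (ι j x) ^ e j x) : Fin (N + r) → L)
            (Fin.append b fun j => ∏ x, b (ι j x) ^ e j x) → RelV δ (E D) a b := by
  induction r with
  | zero =>
    refine ⟨fun D => D, ?_⟩
    intro K L _ _ _ _ _ δ hδ a b hab ι e he
    refine ⟨?_, fun D hD => ?_⟩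
    · refine spz_comp hab (fun j : Fin (N + 0) => j) (fun j => ?_) (fun j => ?_)
      · rw [Fin.append_right_nil _ _ rfl]
        rfl
      · rw [Fin.append_right_nil _ _ rfl]
        rfl
    · refine relV_comp hD (fun j : Fin (N + 0) => j) (fun j => ?_) (fun j => ?_)
      · rw [Fin.append_right_nil _ _ rfl]
        rfl
      · rw [Fin.append_right_nil _ _ rfl]
        rfl
  | succ r ih =>
    obtain ⟨E1, h1⟩ := ih
    obtain ⟨E2, h2⟩ := stp_prod h (N + r)
    refine ⟨fun D => E1 (E2 D), ?_⟩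
    intro K L _ _ _ _ _ δ hδ a b hab ι e he
    obtain ⟨g1, g2⟩ := h1 δ hδ a b hab (fun j => ι j.castSucc) (fun j => e j.castSucc)
      fun j x hx => he j.castSucc x hx
    have g3 := h2 δ hδ _ _ g1 (fun x => Fin.castAdd r (ι (Fin.last r) x)) (e (Fin.last r)) (by
      intro x hx
      rw [Fin.append_left]
      exact he _ x hx)
    simp only [Fin.append_left] at g3
    have key : ∀ (y : Fin N → L) (z : Fin (r + 1) → L) (i : Fin (N + (r + 1))),
        (Fin.append y z : Fin (N + (r + 1)) → L) i =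
          (Fin.snoc (Fin.append y (fun j => z j.castSucc) : Fin (N + r) → L) (z (Fin.last r)) :
            Fin (N + r + 1) → L) i := by
      intro y z i
      refine Fin.addCases (fun i => ?_) (fun i => ?_) i
      · rw [Fin.append_left]
        change _ = (Fin.snoc (Fin.append y (fun j => z j.castSucc) : Fin (N + r) → L)
          (z (Fin.last r)) : Fin (N + r + 1) → L) (Fin.castSucc (Fin.castAdd r i))
        rw [Fin.snoc_castSucc, Fin.append_left]
      · rw [Fin.append_right]
        refine Fin.lastCases ?_ (fun i => ?_) i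
        · change _ = (Fin.snoc (Fin.append y (fun j => z j.castSucc) : Fin (N + r) → L)
            (z (Fin.last r)) : Fin (N + r + 1) → L) (Fin.last (N + r))
          rw [Fin.snoc_last]
        · change _ = (Fin.snoc (Fin.append y (fun j => z j.castSucc) : Fin (N + r) → L)
            (z (Fin.last r)) : Fin (N + r + 1) → L) (Fin.castSucc (Fin.natAdd N i))
          rw [Fin.snoc_castSucc, Fin.append_right]
    exact ⟨spz_comp g3.1 (fun i : Fin (N + (r + 1)) => (i : Fin (N + r + 1))) (key _ _) (key _ _),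
      fun D hD => g2 _ (g3.2 D (relV_comp hD
        (fun i : Fin (N + (r + 1)) => (i : Fin (N + r + 1))) (key _ _) (key _ _)))⟩

end Pool.Agent.FNY
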