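import Mathlib
import Pool.Agent.SMS.ConXder

/-!
# Lifting a nonsingular zero of a system along a specialization
-/

set_option autoImplicit false

namespace Pool.Agent.FNY

open MvPolynomial

/-- a nonsingular zero over a specialization comes from a prime over the generic point -/
theorem lift_prime {R L : Type} [CommRing R] [IsDomain R] [Field L] (φ : R →+* L) {m : ℕ}
    (F : Fin m → MvPolynomial (Fin m) R) (β : Fin m → L)
    (hF : ∀ i, eval₂ φ β (F i) = 0)
    (hJ : eval₂ φ β (Matrix.of fun i j => pderiv i (F j)).det ≠ 0) :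
    ∃ q : Ideal (MvPolynomial (Fin m) R), q.IsPrime ∧ (∀ i, F i ∈ q) ∧
      (∀ r : R, C r ∈ q → r = 0) ∧ ∀ p ∈ q, eval₂ φ β p = 0 := by
  classical
  let P : Algebra.PreSubmersivePresentation R
    (MvPolynomial (Fin m) R ⧸ Ideal.span (Set.range F)) (Fin m) (Fin m) :=
    Algebra.PreSubmersivePresentation.naive (v := F) id Function.injective_id
  let A := MvPolynomial (Fin m) R ⧸ Ideal.span (Set.range F)
  let S := Localization.Away (P.jacobian : A)
  let P2 : Algebra.SubmersivePresentation A S Unit Unit :=
    Algebra.SubmersivePresentation.localizationAway S (P.jacobian : A)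
  have hunit : IsUnit (P2.toPreSubmersivePresentation.comp P).jacobian := by
    rw [Algebra.PreSubmersivePresentation.comp_jacobian_eq_jacobian_smul_jacobian,
      Algebra.smul_def, IsUnit.mul_iff]
    exact ⟨IsLocalization.map_units S (⟨P.jacobian, 1, by simp⟩ : Submonoid.powers P.jacobian),
      P2.jacobian_isUnit⟩
  let P3 : Algebra.SubmersivePresentation R S (Unit ⊕ Fin m) (Unit ⊕ Fin m) :=
    { __ := P2.toPreSubmersivePresentation.comp P
      jacobian_isUnit := hunit }
  have : Algebra.IsStandardSmooth R S := P3.isStandardSmooth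
  have : Algebra.Smooth R S := inferInstance
  have : Module.Flat R S := inferInstance
  -- the point `β`
  let ψ0 : MvPolynomial (Fin m) R →+* L := eval₂Hom φ β
  have hψ0 : ∀ x ∈ Ideal.span (Set.range F), ψ0 x = 0 := by
    intro x hx
    have h1 : Ideal.span (Set.range F) ≤ RingHom.ker ψ0 := by
      rw [Ideal.span_le]
      rintro _ ⟨i, rfl⟩
      exact hF i
    exact h1 hx
  let ψ1 : A →+* L := Ideal.Quotient.lift _ ψ0 hψ0
  have hjac : P.jacobian = Ideal.Quotient.mk _ (Matrix.of fun i j => pderiv i (F j)).det := by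
    rw [Algebra.PreSubmersivePresentation.jacobian_eq_jacobiMatrix_det]
    have h1 : P.jacobiMatrix = (Matrix.of fun i j => pderiv i (F j)) := by
      ext i j : 1
      rw [Algebra.PreSubmersivePresentation.jacobiMatrix_naive]
      rfl
    rw [h1]
    rfl
  have hψ1 : IsUnit (ψ1 P.jacobian) := by
    rw [hjac]
    exact isUnit_iff_ne_zero.2 hJ
  let ψ : S →+* L := IsLocalization.Away.lift (P.jacobian : A) hψ1
  let Q : Ideal S := RingHom.ker ψ
  have : Q.IsPrime := RingHom.ker_isPrime ψ
  obtain ⟨P0, hP0, hP1, hP2⟩ := Ideal.exists_ideal_le_liesOver_of_le (R := R) (S := S)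
    (p := (⊥ : Ideal R)) (q := Q.under R) Q bot_le
  let f : MvPolynomial (Fin m) R →+* S := (algebraMap A S).comp (Ideal.Quotient.mk _)
  refine ⟨P0.comap f, Ideal.comap_isPrime _ _, ?_, ?_, ?_⟩
  · intro i
    have h1 : Ideal.Quotient.mk (Ideal.span (Set.range F)) (F i) = 0 :=
      Ideal.Quotient.eq_zero_iff_mem.2 (Ideal.subset_span ⟨i, rfl⟩)
    change algebraMap A S (Ideal.Quotient.mk (Ideal.span (Set.range F)) (F i)) ∈ P0
    rw [h1, map_zero]
    exact P0.zero_mem
  · intro r hr
    have h1 : algebraMap R S r ∈ P0 := hr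
    have h2 : r ∈ P0.under R := h1
    rw [← hP2.over] at h2
    exact h2
  · intro p hp
    have h1 : f p ∈ Q := hP0 hp
    have h2 : ψ (f p) = 0 := h1
    have h3 : ψ (f p) = ψ0 p := by
      change ψ (algebraMap A S (Ideal.Quotient.mk (Ideal.span (Set.range F)) p)) = ψ0 p
      rw [IsLocalization.Away.lift_eq]
      rfl
    rw [h3] at h2
    exact h2

/-- a derivation kills the coordinates of a nonsingular zero -/
theorem der_zero {k E : Type} [Field k] [Field E] [Algebra k E] (δ : Derivation k E E) {m : ℕ}
    (F : Fin m → MvPolynomial (Fin m) k) (z : Fin m → E) (hF : ∀ i, aeval z (F i) = 0)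
    (hJ : aeval z (Matrix.of fun i j => pderiv i (F j)).det ≠ 0) (j : Fin m) : δ (z j) = 0 := by
  classical
  have h1 : ∀ p : MvPolynomial (Fin m) k, δ (aeval z p) = ∑ i, aeval z (pderiv i p) * δ (z i) := by
    intro p
    induction p using MvPolynomial.induction_on with
    | C a => simp
    | add p q hp hq =>
      simp only [map_add, hp, hq, add_mul, Finset.sum_add_distrib]
    | mul_X p i hp =>
      simp only [map_mul, aeval_X, Derivation.leibniz, smul_eq_mul, hp, pderiv_X, map_add]
      simp only [add_mul, Finset.sum_add_distrib, Finset.mul_sum]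
      congr 1
      · rw [Finset.sum_eq_single i]
        · simp
        · intro b _ hb
          rw [Pi.single_eq_of_ne (Ne.symm hb)]
          simp
        · simp
      · exact Finset.sum_congr rfl fun b _ => by ring
  have h2 : Matrix.vecMul (fun i => δ (z i))
      (Matrix.of fun i j => aeval z (pderiv i (F j))) = 0 := by
    funext j
    have h3 := h1 (F j)
    rw [hF, map_zero] at h3
    change ∑ i, δ (z i) * aeval z (pderiv i (F j)) = 0
    rw [h3]
    exact Finset.sum_congr rfl fun b _ => mul_comm _ _
  have h4 : (Matrix.of fun i j => aeval z (pderiv i (F j))).det ≠ 0 := by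
    rw [AlgHom.map_det] at hJ
    exact hJ
  exact congrFun (Matrix.eq_zero_of_vecMul_eq_zero h4 h2) j

/-- embedding of an algebraic extension -/
theorem emb {k E L : Type} [Field k] [Field E] [Algebra k E] [Field L] [Algebra k L]
    [IsAlgClosed L] (S : Set E) (hS : ∀ x ∈ S, IsAlgebraic k x) :
    Nonempty (IntermediateField.adjoin k S →ₐ[k] L) := by
  have hM : Algebra.IsAlgebraic k (IntermediateField.adjoin k S) :=
    IntermediateField.isAlgebraic_adjoin fun x hx => (hS x hx).isIntegral
  exact ⟨IsAlgClosed.lift⟩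

/-- a nonsingular zero over a specialization lifts to an algebraic point -/
theorem lift_alg0 {R L : Type} [CommRing R] [IsDomain R] [Field L] [CharZero L] [IsAlgClosed L]
    (f φ : R →+* L) (hf : Function.Injective f) {m : ℕ}
    (F : Fin m → MvPolynomial (Fin m) R) (β : Fin m → L)
    (hF : ∀ i, eval₂ φ β (F i) = 0)
    (hJ : eval₂ φ β (Matrix.of fun i j => pderiv i (F j)).det ≠ 0) :
    ∃ α : Fin m → L, (∀ i, eval₂ f α (F i) = 0) ∧
      ∀ P : MvPolynomial (Fin m) R, eval₂ f α P = 0 → eval₂ φ β P = 0 := by
  classical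
  obtain ⟨q, hq, hFq, hCq, hqβ⟩ := lift_prime φ F β hF hJ
  let D := MvPolynomial (Fin m) R ⧸ q
  have : IsDomain D := Ideal.Quotient.isDomain q
  let E := FractionRing D
  let k := FractionRing R
  have : CharZero R := ⟨fun a b h => by
    have h1 := congrArg f h
    rw [map_natCast, map_natCast] at h1
    exact Nat.cast_injective h1⟩
  let g : MvPolynomial (Fin m) R →+* E := (algebraMap D E).comp (Ideal.Quotient.mk q)
  have hg : ∀ p, g p = 0 ↔ p ∈ q := by
    intro p
    rw [← Ideal.Quotient.eq_zero_iff_mem]
    exact map_eq_zero_iff _ (IsFractionRing.injective D E)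
  have hgC : Function.Injective (g.comp C) := by
    rw [injective_iff_map_eq_zero]
    intro r hr
    exact hCq r ((hg _).1 hr)
  let : Algebra k E := (IsFractionRing.lift (K := k) hgC).toAlgebra
  let : Algebra k L := (IsFractionRing.lift (K := k) hf).toAlgebra
  have hkE : ∀ r : R, algebraMap k E (algebraMap R k r) = g (C r) := fun r =>
    IsFractionRing.lift_algebraMap hgC r
  have hkL : ∀ r : R, algebraMap k L (algebraMap R k r) = f r := fun r =>
    IsFractionRing.lift_algebraMap hf r
  have : CharZero k := charZero_of_injective_algebraMap (IsFractionRing.injective R k)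
  let z : Fin m → E := fun i => g (X i)
  have hev : ∀ p : MvPolynomial (Fin m) R, aeval z (map (algebraMap R k) p) = g p := by
    intro p
    rw [aeval_def, eval₂_map]
    have h1 : (algebraMap k E).comp (algebraMap R k) = g.comp C := RingHom.ext hkE
    rw [h1]
    change eval₂ (g.comp C) (g ∘ X) p = g p
    rw [← eval₂_comp_left, eval₂_eta]
  have hz : ∀ j, IsAlgebraic k (z j) := by
    intro j
    by_contra hj
    obtain ⟨δ, hδ⟩ := Pool.Agent.SMS.exists_der (z j) hj
    have h1 := der_zero δ (fun i => map (algebraMap R k) (F i)) z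
      (fun i => by rw [hev]; exact (hg _).2 (hFq i)) (by
        have h2 : (Matrix.of fun i j => pderiv i (map (algebraMap R k) (F j))) =
            (map (algebraMap R k)).mapMatrix (Matrix.of fun i j => pderiv i (F j)) := by
          ext i j : 1
          simp [pderiv_map]
        rw [h2, ← RingHom.map_det, hev]
        intro h3
        exact hJ (hqβ _ ((hg _).1 h3))) j
    rw [hδ] at h1
    exact one_ne_zero h1
  let M : IntermediateField k E := IntermediateField.adjoin k (Set.range z)
  obtain ⟨σ⟩ : Nonempty (M →ₐ[k] L) := emb (Set.range z) (by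
    rintro _ ⟨j, rfl⟩
    exact hz j)
  let z' : Fin m → M := fun i => ⟨z i, IntermediateField.subset_adjoin k _ ⟨i, rfl⟩⟩
  have h5 : ∀ p : MvPolynomial (Fin m) R,
      eval₂ f (fun i => σ (z' i)) p = σ (aeval z' (map (algebraMap R k) p)) := by
    intro p
    rw [← AlgHom.comp_apply, comp_aeval, aeval_def, eval₂_map]
    congr 1
    exact RingHom.ext fun r => (hkL r).symm
  have h6 : ∀ p : MvPolynomial (Fin m) R,
      ((aeval z' (map (algebraMap R k) p) : M) : E) = g p := by
    intro p
    rw [← hev]
    change M.val (aeval z' (map (algebraMap R k) p)) = _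
    rw [← AlgHom.comp_apply, comp_aeval]
    rfl
  refine ⟨fun i => σ (z' i), fun i => ?_, fun P hP => ?_⟩
  · rw [h5]
    have h7 : aeval z' (map (algebraMap R k) (F i)) = 0 := by
      apply Subtype.ext
      rw [h6]
      exact (hg _).2 (hFq i)
    rw [h7, map_zero]
  · rw [h5, map_eq_zero] at hP
    have h8 := h6 P
    rw [hP] at h8
    exact hqβ P ((hg P).1 h8.symm)

/-- page 2, the algebraic part -/
theorem lift_alg {R L : Type} [CommRing R] [IsDomain R] [Field L] [CharZero L] [IsAlgClosed L]
    (f φ : R →+* L) (hf : Function.Injective f) {m : ℕ} (F : Fin m → MvPolynomial (Fin m) R)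
    (β : Fin m → L) (h0 : ∀ i, eval₂ φ β (F i) = 0)
    (hJ : (Matrix.of fun i k => eval₂ φ β (pderiv k (F i))).det ≠ 0) :
    ∃ α : Fin m → L, (∀ i, eval₂ f α (F i) = 0) ∧
      ∀ P : MvPolynomial (Fin m) R, eval₂ f α P = 0 → eval₂ φ β P = 0 := by
  refine lift_alg0 f φ hf F β h0 ?_
  have h1 : eval₂ φ β (Matrix.of fun i j => pderiv i (F j)).det =
      (Matrix.of fun i k => eval₂ φ β (pderiv k (F i))).det := by
    change eval₂Hom φ β (Matrix.of fun i j => pderiv i (F j)).det = _
    rw [RingHom.map_det, ← Matrix.det_transpose]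
    rfl
  rw [h1]
  exact hJ

end Pool.Agent.FNY
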