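import Pool.Agent.FNY.MainC
import Pool.Agent.FNY.MultiY

/-! # Systems and the density theorem -/

set_option autoImplicit false

namespace Pool.Agent.FNY

open MvPolynomial Pool.Agent.FN Pool.Agent.FNX Pool.Agent.FNR

/-- as `FNS.keyS`, with systems -/
theorem keyY (k l s : ℕ) : ∃ E r : ℕ, ∀ x : Fin k → ℂ,
    ∃ δ : Derivation KA ℂ ℂ, CK δ ∧ ∃ Ψ : MvPolynomial (Fin l × ℕ) ℂ, Ψ ≠ 0 ∧
      Ψ.totalDegree ≤ E ∧ (∀ v ∈ Ψ.vars, v.2 < r) ∧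
        ∀ y : Fin l → ℂ, DepY s x y → eval (jet δ y) Ψ = 0 :=
  keyY_of k l s fun N => multiY KA ℂ s (N + N) (k + l) 2

end Pool.Agent.FNY
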