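import Pool.Agent.FNS.MultiC
import Pool.Agent.FNY.Def

/-! # Several numbers, each a coordinate of a nonsingular zero of a system -/

set_option autoImplicit false

namespace Pool.Agent.FNY

open MvPolynomial Pool.Agent.FN Pool.Agent.FNX Pool.Agent.FNR Pool.Agent.FNS

theorem pderiv_rename_inj {K σ τ : Type} [Field K] (P : MvPolynomial σ K) (f : σ → τ)
    (k : σ) (k' : τ) (h : ∀ i, f i = k' ↔ i = k) :
    pderiv k' (rename f P) = rename f (pderiv k P) := by
  classical
  induction P using MvPolynomial.induction_on with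
  | C a => simp
  | add p q hp hq => simp only [map_add, hp, hq]
  | mul_X p i hp =>
    rw [map_mul, rename_X, Derivation.leibniz, Derivation.leibniz, hp, pderiv_X, pderiv_X]
    simp only [smul_eq_mul, map_add, map_mul, rename_X]
    congr 1
    congr 1
    by_cases hi : i = k
    · subst hi
      rw [(h i).2 rfl]
      simp
    · rw [Pi.single_eq_of_ne hi, Pi.single_eq_of_ne (fun hh => hi ((h i).1 hh)), map_zero]

/-- one number -/
theorem oneY (K L : Type) [Field K] [CharZero K] [Field L] [IsAlgClosed L] [Algebra K L]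
    (hb : ∀ m s N D : ℕ, ∃ E : ℕ, ∀ δ : Derivation K L L, CK δ → ∀ a b : Fin N → L, Spz δ a b →
      ¬ RelV δ E a b → ∀ F : IntermediateField K L, (∀ x : L, IsAlgebraic F x → x ∈ F) →
        ∀ P : Fin m → MvPolynomial (Fin N ⊕ Fin m) K, (∀ i, (P i).support.card ≤ s) →
          (∀ i (j : Fin N), Sum.inl j ∈ (P i).vars → a j ∈ F) → ∀ β : Fin m → L,
            (∀ i, aeval (Sum.elim b β) (P i) = 0) →
            (Matrix.of fun i k => aeval (Sum.elim b β) (pderiv (Sum.inr k) (P i))).det ≠ 0 →
              ∃ α : Fin m → L, (∀ k, α k ∈ F) ∧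
                Spz δ (Fin.append a α) (Fin.append b β) ∧
                  ¬ RelV δ D (Fin.append a α) (Fin.append b β))
    (s n D : ℕ) : ∃ E : ℕ, ∀ δ : Derivation K L L, CK δ → ∀ p q : Fin n → L, Spz δ p q →
      ¬ RelV δ E p q → ∀ (T : Set (Fin n)) (z : L), Gvy K s (q '' T) z →
        ∃ V : L, V ∈ acl K (p '' T) ∧ Spz δ (Fin.snoc p V : Fin (n + 1) → L) (Fin.snoc q z) ∧
          ¬ RelV δ D (Fin.snoc p V : Fin (n + 1) → L) (Fin.snoc q z) := by
  classical
  choose E hE using fun m => hb m s n D
  refine ⟨∑ m ∈ Finset.range (s + 1), E m, fun δ hδ p q hpq hr T z hz => ?_⟩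
  obtain ⟨m, β, P, hm, hs, h0, hJ, k, hk⟩ := hz
  have hr1 : ¬ RelV δ (E m) p q := fun h => hr (h.mono
    (Finset.single_le_sum (f := E) (fun _ _ => Nat.zero_le _)
      (Finset.mem_range.2 (Nat.lt_succ_of_le hm))))
  choose ι hι hιq using fun x : (q '' T : Set L) => x.2
  let f : (q '' T : Set L) ⊕ Fin m → Fin n ⊕ Fin m := Sum.map ι id
  have hf : ∀ w, (Sum.elim q β : Fin n ⊕ Fin m → L) (f w) =
      Sum.elim (fun x : (q '' T : Set L) => (x : L)) β w := by
    rintro (x | j)
    · exact hιq x
    · rfl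
  have hfe : ∀ Q : MvPolynomial ((q '' T : Set L) ⊕ Fin m) K,
      aeval (Sum.elim q β : Fin n ⊕ Fin m → L) (rename f Q) =
        aeval (Sum.elim (fun x : (q '' T : Set L) => (x : L)) β) Q := fun Q =>
    aeval_rename_of_vars Q f _ _ fun i _ => hf i
  obtain ⟨α, hα, hα1, hα2⟩ := hE m δ hδ p q hpq hr1 (aclF K (p '' T))
    (fun x hx => aclF_closed hx) (fun i => rename f (P i))
    (fun i => (card_support_rename_le _ _).trans (hs i))
    (fun i j hj => by
      obtain ⟨w, _, hw⟩ := Finset.mem_image.1 (vars_rename f (P i) hj)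
      rcases w with x | l
      · have h1 : ι x = j := Sum.inl_injective hw
        rw [← h1]
        exact mem_aclF.2 (subset_acl _ ⟨_, hι x, rfl⟩)
      · exact absurd hw (by simp [f])) β
    (fun i => by rw [hfe]; exact h0 i) (by
      have h2 : (Matrix.of fun i l => aeval (Sum.elim q β : Fin n ⊕ Fin m → L)
          (pderiv (Sum.inr l) (rename f (P i)))) =
          Matrix.of fun i l => aeval (Sum.elim (fun x : (q '' T : Set L) => (x : L)) β)
            (pderiv (Sum.inr l) (P i)) := by
        ext i l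
        simp only [Matrix.of_apply]
        rw [pderiv_rename_inj (P i) f (Sum.inr l) (Sum.inr l), hfe]
        rintro (x | j)
        · simp [f]
        · simp [f]
      rw [h2]
      exact hJ)
  let g : Fin (n + 1) → Fin (n + m) := Fin.snoc (fun j => Fin.castAdd m j) (Fin.natAdd n k)
  have hga : ∀ j, (Fin.snoc p (α k) : Fin (n + 1) → L) j =
      (Fin.append p α : Fin (n + m) → L) (g j) := by
    intro j
    refine Fin.lastCases ?_ (fun j => ?_) j
    · simp only [g, Fin.snoc_last, Fin.append_right]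
    · simp only [g, Fin.snoc_castSucc, Fin.append_left]
  have hgb : ∀ j, (Fin.snoc q z : Fin (n + 1) → L) j =
      (Fin.append q β : Fin (n + m) → L) (g j) := by
    intro j
    refine Fin.lastCases ?_ (fun j => ?_) j
    · simp only [g, Fin.snoc_last, Fin.append_right]
      exact hk.symm
    · simp only [g, Fin.snoc_castSucc, Fin.append_left]
  exact ⟨α k, mem_aclF.1 (hα k), spz_comp hα1 g hga hgb, fun h => hα2 (relV_comp h g hga hgb)⟩

theorem multiY_of (K L : Type) [Field K] [CharZero K] [Field L] [IsAlgClosed L] [Algebra K L]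
    (hb : ∀ m s N D : ℕ, ∃ E : ℕ, ∀ δ : Derivation K L L, CK δ → ∀ a b : Fin N → L, Spz δ a b →
      ¬ RelV δ E a b → ∀ F : IntermediateField K L, (∀ x : L, IsAlgebraic F x → x ∈ F) →
        ∀ P : Fin m → MvPolynomial (Fin N ⊕ Fin m) K, (∀ i, (P i).support.card ≤ s) →
          (∀ i (j : Fin N), Sum.inl j ∈ (P i).vars → a j ∈ F) → ∀ β : Fin m → L,
            (∀ i, aeval (Sum.elim b β) (P i) = 0) →
            (Matrix.of fun i k => aeval (Sum.elim b β) (pderiv (Sum.inr k) (P i))).det ≠ 0 →
              ∃ α : Fin m → L, (∀ k, α k ∈ F) ∧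
                Spz δ (Fin.append a α) (Fin.append b β) ∧
                  ¬ RelV δ D (Fin.append a α) (Fin.append b β))
    (s M : ℕ) : ∀ n D : ℕ, ∃ E : ℕ, ∀ δ : Derivation K L L, CK δ → ∀ p q : Fin n → L,
      Spz δ p q → ¬ RelV δ E p q → ∀ (T : Fin M → Set (Fin n)) (z : Fin M → L),
        (∀ t, Gvy K s (q '' T t) (z t)) →
          ∃ V : Fin M → L, (∀ t, V t ∈ acl K (p '' T t)) ∧
            Spz δ (Fin.append p V) (Fin.append q z) ∧
              ¬ RelV δ D (Fin.append p V) (Fin.append q z) := by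
  classical
  induction M with
  | zero =>
    intro n D
    refine ⟨D, fun δ _ p q hpq hr T z _ => ⟨Fin.elim0, fun t => t.elim0, ?_, ?_⟩⟩
    · refine spz_comp hpq (fun j : Fin (n + 0) => j) (fun j => ?_) (fun j => ?_)
      · rw [Fin.append_right_nil _ _ rfl]
        rfl
      · rw [Fin.append_right_nil _ _ rfl]
        rfl
    · intro h
      refine hr (relV_comp h (fun j : Fin (n + 0) => j) (fun j => ?_) (fun j => ?_))
      · rw [Fin.append_right_nil _ _ rfl]
        rfl
      · rw [Fin.append_right_nil _ _ rfl]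
        rfl
  | succ M ih =>
    intro n D
    obtain ⟨E1, h1⟩ := ih (n + 1) D
    obtain ⟨E2, h2⟩ := oneY K L hb s n E1
    refine ⟨E2, fun δ hδ p q hpq hr T z hz => ?_⟩
    obtain ⟨W, hW, hW1, hW2⟩ := h2 δ hδ p q hpq hr (T 0) (z 0) (hz 0)
    have himg : ∀ (c : Fin n → L) (x : L) (U : Set (Fin n)),
        (Fin.snoc c x : Fin (n + 1) → L) '' (Fin.castSucc '' U) = c '' U := by
      intro c x U
      rw [Set.image_image]
      exact Set.image_congr fun j _ => Fin.snoc_castSucc (α := fun _ => L) x c j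
    obtain ⟨V, hV, hV1, hV2⟩ := h1 δ hδ _ _ hW1 hW2 (fun t => Fin.castSucc '' T t.succ)
      (fun t => z t.succ) (fun t => by rw [himg]; exact hz t.succ)
    let e : Fin (n + (M + 1)) → Fin (n + 1 + M) :=
      Fin.append (fun j => Fin.castAdd M j.castSucc)
        (Fin.cons (Fin.castAdd M (Fin.last n)) fun t => Fin.natAdd (n + 1) t)
    have hea : ∀ j, (Fin.append p (Fin.cons W V : Fin (M + 1) → L) :
        Fin (n + (M + 1)) → L) j =
        (Fin.append (Fin.snoc p W : Fin (n + 1) → L) V : Fin (n + 1 + M) → L) (e j) := by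
      intro j
      refine Fin.addCases (fun j => ?_) (fun j => ?_) j
      · simp only [e, Fin.append_left, Fin.snoc_castSucc]
      · refine Fin.cases ?_ (fun t => ?_) j
        · simp only [e, Fin.append_right, Fin.cons_zero, Fin.append_left, Fin.snoc_last]
        · simp only [e, Fin.append_right, Fin.cons_succ]
    have heb : ∀ j, (Fin.append q z : Fin (n + (M + 1)) → L) j =
        (Fin.append (Fin.snoc q (z 0) : Fin (n + 1) → L) (fun t => z t.succ) :
          Fin (n + 1 + M) → L) (e j) := by
      intro j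
      refine Fin.addCases (fun j => ?_) (fun j => ?_) j
      · simp only [e, Fin.append_left, Fin.snoc_castSucc]
      · refine Fin.cases ?_ (fun t => ?_) j
        · simp only [e, Fin.append_right, Fin.cons_zero, Fin.append_left, Fin.snoc_last]
        · simp only [e, Fin.append_right, Fin.cons_succ]
    refine ⟨Fin.cons W V, fun t => ?_, spz_comp hV1 e hea heb,
      fun h => hV2 (relV_comp h e hea heb)⟩
    refine Fin.cases ?_ (fun t => ?_) t
    · rw [Fin.cons_zero]
      exact hW
    · rw [Fin.cons_succ]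
      have h4 := hV t
      rw [himg] at h4
      exact h4

end Pool.Agent.FNY
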