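import Pool.Agent.FNS.SStepC
import Pool.Agent.FNY.Def
import Pool.Agent.FNS.Ax2

/-! # One block: a nonsingular zero of a system of polynomials with few terms -/

set_option autoImplicit false

namespace Pool.Agent.FNY

open MvPolynomial Matrix Pool.Agent.FN Pool.Agent.FNX Pool.Agent.FNR Pool.Agent.FNS

/-- a square minor of full rank -/
private theorem rows {L : Type} [Field L] {m r : ℕ} (A : Matrix (Fin m) (Fin r) L)
    (h : ∀ v : Fin r → L, A *ᵥ v = 0 → v = 0) :
    ∃ ρ : Fin r → Fin m, (A.submatrix ρ id).det ≠ 0 := by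
  classical
  obtain ⟨κ, a, ha, hs, hl⟩ := exists_linearIndependent' L (fun i => A i)
  have hfin : Finite κ := Finite.of_injective a ha
  have : Fintype κ := Fintype.ofFinite κ
  have hinj : ∀ v : Fin r → L, (∀ i : κ, A (a i) ⬝ᵥ v = 0) → v = 0 := by
    intro v hv
    apply h
    funext i
    have hi : A i ∈ Submodule.span L (Set.range ((fun i => A i) ∘ a)) := by
      rw [hs]
      exact Submodule.subset_span ⟨i, rfl⟩
    change A i ⬝ᵥ v = 0
    generalize A i = w at hi
    induction hi using Submodule.span_induction with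
    | mem x hx =>
      obtain ⟨j, rfl⟩ := hx
      exact hv j
    | zero => exact zero_dotProduct v
    | add x y _ _ hx hy => rw [add_dotProduct, hx, hy, add_zero]
    | smul c x _ hx => rw [smul_dotProduct, hx, smul_zero]
  have hle : Fintype.card κ ≤ r := by
    have h1 := hl.fintype_card_le_finrank
    simpa using h1
  have hge : r ≤ Fintype.card κ := by
    let T : (Fin r → L) →ₗ[L] (κ → L) := Matrix.mulVecLin (A.submatrix a id)
    have hT : Function.Injective T := by
      rw [← LinearMap.ker_eq_bot, LinearMap.ker_eq_bot']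
      intro v hv
      exact hinj v fun i => congrFun hv i
    have h1 := LinearMap.finrank_le_finrank_of_injective hT
    simpa using h1
  have hcard : Fintype.card κ = r := le_antisymm hle hge
  let e : Fin r ≃ κ := (Fintype.equivFinOfCardEq hcard).symm
  refine ⟨fun i => a (e i), fun hdet => ?_⟩
  obtain ⟨v, hv0, hv⟩ := Matrix.exists_mulVec_eq_zero_iff.2 hdet
  apply hv0
  refine hinj v fun i => ?_
  have h1 := congrFun hv (e.symm i)
  change A (a (e (e.symm i))) ⬝ᵥ v = 0 at h1
  rwa [Equiv.apply_symm_apply] at h1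

/-- a polynomial as a sum of terms -/
private theorem by_terms {K : Type} [Field K] {N m s : ℕ} (P : MvPolynomial (Fin N ⊕ Fin m) K)
    (hP : P.support.card ≤ s) : ∃ (g : Fin s → MvPolynomial (Fin N) K) (n : Fin s → Fin m → ℕ),
      (∀ t, (g t).support.card ≤ 1) ∧ (∀ t, ∀ j ∈ (g t).vars, Sum.inl j ∈ P.vars) ∧
        P = ∑ t, rename Sum.inl (g t) * ∏ k, X (Sum.inr k) ^ n t k := by
  classical
  obtain ⟨ι, hι⟩ : ∃ ι : P.support → Fin s, Function.Injective ι :=
    ⟨fun μ => Fin.castLE hP (P.support.equivFin μ),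
      (Fin.castLE_injective hP).comp P.support.equivFin.injective⟩
  obtain ⟨F, hF⟩ : ∃ F : Fin s → (Fin N ⊕ Fin m →₀ ℕ),
      F = Function.extend ι (fun μ => μ.1) (fun _ => 0) := ⟨_, rfl⟩
  obtain ⟨c, hc⟩ : ∃ c : Fin s → K,
      c = Function.extend ι (fun μ => P.coeff μ.1) (fun _ => 0) := ⟨_, rfl⟩
  obtain ⟨res, hres⟩ : ∃ res : (Fin N ⊕ Fin m →₀ ℕ) → (Fin N →₀ ℕ), ∀ μ i,
      res μ i = μ (Sum.inl i) :=
    ⟨fun μ => Finsupp.equivFunOnFinite.symm fun i => μ (Sum.inl i), fun μ i => rfl⟩
  refine ⟨fun t => monomial (res (F t)) (c t), fun t k => F t (Sum.inr k), fun t => ?_,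
    fun t j hj => ?_, ?_⟩
  · exact (Finset.card_le_card support_monomial_subset).trans (Finset.card_singleton _).le
  · obtain ⟨x, hx, hjx⟩ := (mem_vars_iff_mem_support j).1 hj
    have h0 : c t ≠ 0 := by
      intro h0
      have hx' : x ∈ (monomial (res (F t)) (c t)).support := hx
      rw [h0, monomial_zero, support_zero] at hx'
      exact absurd hx' (Finset.notMem_empty _)
    have h1 := support_monomial_subset hx
    rw [Finset.mem_singleton] at h1
    rw [h1] at hjx
    by_cases ht : ∃ μ, ι μ = t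
    · obtain ⟨μ, rfl⟩ := ht
      rw [hF, hι.extend_apply] at hjx
      refine (mem_vars_iff_mem_support _).2 ⟨μ.1, μ.2, ?_⟩
      rw [Finsupp.mem_support_iff] at hjx ⊢
      rwa [hres] at hjx
    · exact absurd (by rw [hc, Function.extend_apply' _ _ _ ht]) h0
  · have h1 : ∀ t, rename Sum.inl (monomial (res (F t)) (c t)) *
        ∏ k, X (Sum.inr k) ^ F t (Sum.inr k) = (monomial (F t) (c t) :
          MvPolynomial (Fin N ⊕ Fin m) K) := by
      intro t
      rw [monomial_eq, monomial_eq, Finsupp.prod_fintype _ _ (fun i => pow_zero _),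
        Finsupp.prod_fintype _ _ (fun i => pow_zero _), Fintype.prod_sum_type, map_mul, rename_C,
        map_prod, mul_assoc]
      simp only [map_pow, rename_X, hres]
    rw [Finset.sum_congr rfl fun t _ => h1 t]
    conv_lhs => rw [← support_sum_monomial_coeff P, ← Finset.sum_coe_sort]
    refine Fintype.sum_of_injective ι hι _ _ (fun t ht => ?_) (fun μ => ?_)
    · rw [hc, Function.extend_apply' _ _ _ (fun h => ht h), monomial_zero]
    · rw [hc, hF, hι.extend_apply, hι.extend_apply]

private theorem der_prod {A R ι : Type} [CommRing A] [CommRing R] [Algebra A R] (D : Derivation A R R)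
    (s : Finset ι) (f c : ι → R) (h : ∀ i ∈ s, D (f i) = c i * f i) :
    D (∏ i ∈ s, f i) = (∑ i ∈ s, c i) * ∏ i ∈ s, f i := by
  classical
  induction s using Finset.induction_on with
  | empty => simp
  | insert a s ha ih =>
    rw [Finset.prod_insert ha, Finset.sum_insert ha, D.leibniz, h a (by simp),
      ih fun i hi => h i (by simp [hi])]
    simp only [smul_eq_mul]
    ring

private theorem ev_terms {K L : Type} [Field K] [Field L] [Algebra K L] {N m s : ℕ}
    {P : MvPolynomial (Fin N ⊕ Fin m) K} {g : Fin s → MvPolynomial (Fin N) K}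
    {n : Fin s → Fin m → ℕ} (h : P = ∑ t, rename Sum.inl (g t) * ∏ k, X (Sum.inr k) ^ n t k)
    (c : Fin N → L) (γ : Fin m → L) :
    aeval (Sum.elim c γ) P = ∑ t, aeval c (g t) * ∏ k, γ k ^ n t k := by
  rw [h, map_sum]
  refine Finset.sum_congr rfl fun t _ => ?_
  rw [map_mul, map_prod, aeval_rename]
  simp only [map_pow, aeval_X, Sum.elim_inr]
  rfl

private theorem ev_der {K L : Type} [Field K] [Field L] [Algebra K L] {N m s : ℕ}
    {P : MvPolynomial (Fin N ⊕ Fin m) K} {g : Fin s → MvPolynomial (Fin N) K}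
    {n : Fin s → Fin m → ℕ} (h : P = ∑ t, rename Sum.inl (g t) * ∏ k, X (Sum.inr k) ^ n t k)
    (c : Fin N → L) (γ : Fin m → L) (k : Fin m) :
    γ k * aeval (Sum.elim c γ) (pderiv (Sum.inr k) P) =
      ∑ t, (n t k : L) * (aeval c (g t) * ∏ k, γ k ^ n t k) := by
  classical
  have hD : ∀ Q : MvPolynomial (Fin N ⊕ Fin m) K,
      γ k * aeval (Sum.elim c γ) (pderiv (Sum.inr k) Q) =
        aeval (Sum.elim c γ) (((X (Sum.inr k) : MvPolynomial (Fin N ⊕ Fin m) K) •
          pderiv (Sum.inr k) : Derivation K _ _) Q) := by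
    intro Q
    rw [Derivation.smul_apply, smul_eq_mul, map_mul, aeval_X, Sum.elim_inr]
  generalize hDD : ((X (Sum.inr k) : MvPolynomial (Fin N ⊕ Fin m) K) •
          pderiv (Sum.inr k) : Derivation K (MvPolynomial (Fin N ⊕ Fin m) K) _) = D at hD
  have h1 : ∀ k', D (X (Sum.inr k')) = (if k' = k then 1 else 0) * X (Sum.inr k') := by
    intro k'
    rw [← hDD, Derivation.smul_apply, smul_eq_mul, pderiv_X]
    by_cases hk : k' = k
    · subst hk
      rw [Pi.single_eq_same, if_pos rfl, mul_one, one_mul]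
    · rw [Pi.single_eq_of_ne (by simpa using hk), if_neg hk, mul_zero, zero_mul]
  have h2 : ∀ k' (e : ℕ), D (X (Sum.inr k') ^ e) =
      ((if k' = k then (e : MvPolynomial (Fin N ⊕ Fin m) K) else 0)) * X (Sum.inr k') ^ e := by
    intro k' e
    rw [D.leibniz_pow, h1]
    rcases Nat.eq_zero_or_pos e with rfl | he
    · simp
    · obtain ⟨e, rfl⟩ := Nat.exists_eq_succ_of_ne_zero he.ne'
      simp only [Nat.succ_eq_add_one, Nat.add_sub_cancel, smul_eq_mul, nsmul_eq_mul]
      split_ifs <;> ring
  have h3 : ∀ Q : MvPolynomial (Fin N) K, D (rename Sum.inl Q) = 0 := by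
    intro Q
    rw [← hDD, Derivation.smul_apply, pderiv_eq_zero_of_notMem_vars, smul_zero]
    intro hmem
    obtain ⟨j, -, hj⟩ := Finset.mem_image.1 (vars_rename _ _ hmem)
    exact absurd hj (by simp)
  have h4 : ∀ t, D (rename Sum.inl (g t) * ∏ k, X (Sum.inr k) ^ n t k) =
      (n t k : MvPolynomial (Fin N ⊕ Fin m) K) *
        (rename Sum.inl (g t) * ∏ k, X (Sum.inr k) ^ n t k) := by
    intro t
    rw [D.leibniz, h3, smul_zero, add_zero, smul_eq_mul,
      der_prod D Finset.univ _ (fun k' => if k' = k then (n t k' : MvPolynomial _ K) else 0)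
        (fun k' _ => h2 k' (n t k'))]
    rw [Finset.sum_ite_eq' Finset.univ k (fun k' => (n t k' : MvPolynomial (Fin N ⊕ Fin m) K)),
      if_pos (Finset.mem_univ _)]
    ring
  rw [hD]
  conv_lhs => rw [h]
  rw [map_sum, map_sum]
  refine Finset.sum_congr rfl fun t _ => ?_
  rw [h4, map_mul, map_natCast, map_mul, map_prod, aeval_rename]
  simp only [map_pow, aeval_X, Sum.elim_inr]
  rfl

/-- a polynomial with few terms which vanishes at `b`, but not at `a` -/
private theorem few (M s : ℕ) : ∃ E : ℕ, ∀ {K L : Type} [Field K] [CharZero K] [Field L] [Algebra K L]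
    (δ : Derivation K L L), CK δ → ∀ (a b : Fin M → L), Spz δ a b →
      ∀ f : MvPolynomial (Fin M) K, f.support.card ≤ s → aeval a f ≠ 0 → aeval b f = 0 →
        RelV δ E a b := by
  obtain ⟨E, hE⟩ := progV M (s * (3 * M + 2) + 1)
  refine ⟨E, fun {K L} _ _ _ _ δ hδ a b hab f hf ha hb => ?_⟩
  obtain ⟨l, h1, h2, h3⟩ := prog_of_terms f hf
  exact hE δ hδ a b hab l h1 h3 f h2 ha hb

/-- the terms with a vanishing unknown are dropped -/
private theorem drop {L : Type} [Field L] {m r : ℕ} {e : Fin r → Fin m} (he : Function.Injective e)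
    (γ : Fin r → L) (n : Fin m → ℕ) (x y : L)
    (h1 : (∀ k, k ∉ Set.range e → n k = 0) → y = x)
    (h2 : ¬ (∀ k, k ∉ Set.range e → n k = 0) → y = 0) :
    x * ∏ k, (Function.extend e γ (fun _ => 0) k) ^ n k = y * ∏ k, γ k ^ n (e k) := by
  by_cases h : ∀ k, k ∉ Set.range e → n k = 0
  · rw [h1 h]
    congr 1
    refine (Fintype.prod_of_injective e he _ _ (fun k hk => ?_) (fun k => ?_)).symm
    · rw [h k hk, pow_zero]
    · rw [he.extend_apply]
  · rw [h2 h, zero_mul]
    push Not at h
    obtain ⟨k, hk, hn⟩ := h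
    rw [Finset.prod_eq_zero (Finset.mem_univ k), mul_zero]
    rw [Function.extend_apply' _ _ _ (fun h => hk h), zero_pow hn]

/-- a nonsingular zero of a system over an algebraically closed subfield -/
private theorem mem_of_zero {K L : Type} [Field K] [CharZero K] [Field L] [Algebra K L] {r s N : ℕ}
    (F : IntermediateField K L) (hF : ∀ x : L, IsAlgebraic F x → x ∈ F)
    (c : Fin r → Fin s → Fin N) (n : Fin r → Fin s → Fin r → ℤ) (a : Fin N → L)
    (ha : ∀ i t, a (c i t) ∈ F) (α : Fin r → L) (hα : ∀ k, α k ≠ 0)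
    (h0 : Sy c n a α = 0) (hJ : (Jy c n a α).det ≠ 0) (k0 : Fin r) : α k0 ∈ F := by
  have hF0 : CharZero F := charZero_of_injective_algebraMap (algebraMap K F).injective
  by_contra hk
  obtain ⟨D, hD⟩ := Pool.Agent.SMS.exists_der (k := F) (α k0) (fun h => hk (hF _ h))
  have hDa : ∀ i t, D (a (c i t)) = 0 := fun i t => D.map_algebraMap ⟨a (c i t), ha i t⟩
  have hz : Jy c n a α *ᵥ (fun k => D (α k) / α k) = 0 := by
    funext i
    have h1 : D (∑ t, a (c i t) * ∏ k, α k ^ n i t k) = 0 := by
      have h2 := congrFun h0 i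
      change ∑ t, a (c i t) * ∏ k, α k ^ n i t k = 0 at h2
      rw [h2, map_zero]
    rw [map_sum] at h1
    rw [Pi.zero_apply, ← h1]
    change ∑ k, (∑ t, (n i t k : L) * (a (c i t) * ∏ k, α k ^ n i t k)) * (D (α k) / α k) = _
    simp only [Finset.sum_mul]
    rw [Finset.sum_comm]
    refine Finset.sum_congr rfl fun t _ => ?_
    rw [D.leibniz, hDa, smul_zero, add_zero, smul_eq_mul,
      der_prod D Finset.univ _ (fun k => (n i t k : L) * (D (α k) / α k)) (fun k _ => ?_),
      Finset.sum_mul, Finset.mul_sum]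
    · exact Finset.sum_congr rfl fun k _ => by ring
    · have h3 := dlog_zpow D (hα k) (n i t k)
      rw [← h3, div_mul_cancel₀ _ (zpow_ne_zero _ (hα k))]
  have h4 := congrFun (Matrix.eq_zero_of_mulVec_eq_zero hJ hz) k0
  have h5 : D (α k0) / α k0 = 0 := h4
  rw [hD, one_div] at h5
  exact inv_ne_zero (hα k0) h5

/-- the logarithmic Jacobian does not vanish at the generic point -/
private theorem det_ne_of_spz {K L : Type} [Field K] [Field L] [Algebra K L] {r s N : ℕ}
    {δ : Derivation K L L} {a b : Fin N → L} {α β : Fin r → L}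
    (h : Spz δ (Fin.append a α) (Fin.append b β)) (c : Fin r → Fin s → Fin N)
    (n : Fin r → Fin s → Fin r → ℕ)
    (hJ : (Jy c (fun i t k => (n i t k : ℤ)) b β).det ≠ 0) :
    (Jy c (fun i t k => (n i t k : ℤ)) a α).det ≠ 0 := by
  intro h0
  apply hJ
  let G : Matrix (Fin r) (Fin r) (MvPolynomial (Fin (N + r) × ℕ) K) := Matrix.of fun i k =>
    ∑ t, (n i t k : MvPolynomial (Fin (N + r) × ℕ) K) * (X (Fin.castAdd r (c i t), 0) *
      ∏ k, X (Fin.natAdd N k, 0) ^ n i t k)
  have hG : ∀ (c' : Fin N → L) (γ : Fin r → L), aeval (jet δ (Fin.append c' γ)) G.det =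
      (Jy c (fun i t k => (n i t k : ℤ)) c' γ).det := by
    intro c' γ
    rw [AlgHom.map_det]
    congr 1
    ext i k
    change aeval (jet δ (Fin.append c' γ)) (∑ t, (n i t k : MvPolynomial (Fin (N + r) × ℕ) K) *
      (X (Fin.castAdd r (c i t), 0) * ∏ k, X (Fin.natAdd N k, 0) ^ n i t k)) =
        ∑ t, (((n i t k : ℕ) : ℤ) : L) * (c' (c i t) * ∏ k, γ k ^ ((n i t k : ℕ) : ℤ))
    rw [map_sum]
    refine Finset.sum_congr rfl fun t _ => ?_
    rw [map_mul, map_mul, map_prod, map_natCast, aeval_X]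
    simp only [map_pow, aeval_X, zpow_natCast, Int.cast_natCast]
    have h1 : jet δ (Fin.append c' γ) (Fin.castAdd r (c i t), 0) = c' (c i t) :=
      Fin.append_left _ _ _
    have h2 : ∀ k, jet δ (Fin.append c' γ) (Fin.natAdd N k, 0) = γ k :=
      fun k => Fin.append_right _ _ _
    rw [h1]
    simp only [h2]
  rw [← hG] at h0 ⊢
  exact h _ h0

/-- one block; the hypothesis is `ssy` -/
theorem sblock_of (K L : Type) [Field K] [CharZero K] [Field L] [IsAlgClosed L] [Algebra K L]
    (hssy : ∀ m s N D : ℕ, ∃ E : ℕ, ∀ δ : Derivation K L L, CK δ → ∀ a b : Fin N → L, Spz δ a b →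
      ¬ RelV δ E a b → ∀ (c : Fin m → Fin s → Fin N) (n : Fin m → Fin s → Fin m → ℤ)
        (β : Fin m → L), (∀ k, β k ≠ 0) → Sy c n b β = 0 → (Jy c n b β).det ≠ 0 →
          ∃ α : Fin m → L, Spz δ (Fin.append a α) (Fin.append b β) ∧
            ¬ RelV δ D (Fin.append a α) (Fin.append b β))
    (m s N D : ℕ) : ∃ E : ℕ, ∀ δ : Derivation K L L, CK δ → ∀ a b : Fin N → L, Spz δ a b →
      ¬ RelV δ E a b → ∀ F : IntermediateField K L, (∀ x : L, IsAlgebraic F x → x ∈ F) →
        ∀ P : Fin m → MvPolynomial (Fin N ⊕ Fin m) K, (∀ i, (P i).support.card ≤ s) →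
          (∀ i (j : Fin N), Sum.inl j ∈ (P i).vars → a j ∈ F) → ∀ β : Fin m → L,
            (∀ i, aeval (Sum.elim b β) (P i) = 0) →
            (Matrix.of fun i k => aeval (Sum.elim b β) (pderiv (Sum.inr k) (P i))).det ≠ 0 →
              ∃ α : Fin m → L, (∀ k, α k ∈ F) ∧
                Spz δ (Fin.append a α) (Fin.append b β) ∧
                  ¬ RelV δ D (Fin.append a α) (Fin.append b β) := by
  classical
  choose C1 hC1 using fun r => entry 1 (N + m * s + r) D
  choose C2 hC2 using fun r => few (N + m * s + r) s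
  choose E1 hE1 using fun r => hssy r s (N + m * s) (max (C1 r) (C2 r))
  choose E2 hE2 using fun r => entries 1 N (m * s) (E1 r)
  refine ⟨∑ r ∈ Finset.range (m + 1), E2 r, ?_⟩
  intro δ hδ a b hab hnr F hF P hP hPF β h0 hJ
  have hK : ∀ κ : K, algebraMap K L κ ∈ F := fun κ => F.algebraMap_mem κ
  choose g n hg1 hgv hgP using fun i => by_terms (P i) (hP i)
  -- the unknowns which do not vanish
  obtain ⟨r, e, he, hne, hex, hrm⟩ : ∃ (r : ℕ) (e : Fin r → Fin m), Function.Injective e ∧
      (∀ k, β (e k) ≠ 0) ∧ (∀ k, k ∉ Set.range e → β k = 0) ∧ r ≤ m := by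
    let U : Finset (Fin m) := Finset.univ.filter fun k => β k ≠ 0
    refine ⟨U.card, fun k => (U.equivFin.symm k).1, fun k k' h => ?_, fun k => ?_, fun k hk => ?_,
      (Finset.card_le_univ U).trans (Fintype.card_fin m).le⟩
    · exact U.equivFin.symm.injective (Subtype.ext h)
    · exact (Finset.mem_filter.1 (U.equivFin.symm k).2).2
    · by_contra hb
      exact hk ⟨U.equivFin ⟨k, Finset.mem_filter.2 ⟨Finset.mem_univ _, hb⟩⟩, by simp⟩
  have hβe : β = Function.extend e (fun k => β (e k)) (fun _ => 0) := by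
    funext k
    by_cases hk : k ∈ Set.range e
    · obtain ⟨k', rfl⟩ := hk
      rw [he.extend_apply]
    · rw [Function.extend_apply' _ _ _ (fun h => hk h), hex k hk]
  -- the coefficients
  obtain ⟨g', hg'⟩ : ∃ g' : Fin m → Fin s → MvPolynomial (Fin N) K, ∀ i t,
      g' i t = if ∀ k, k ∉ Set.range e → n i t k = 0 then g i t else 0 := ⟨_, fun _ _ => rfl⟩
  have hg'1 : ∀ i t, (g' i t).support.card ≤ 1 := by
    intro i t
    rw [hg']
    split_ifs
    · exact hg1 i t
    · simp
  have hg'F : ∀ i t, aeval a (g' i t) ∈ F := by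
    intro i t
    rw [hg']
    split_ifs
    · rw [aeval_def, eval₂_eq']
      refine sum_mem fun μ hμ => mul_mem (F.algebraMap_mem _) (prod_mem fun j _ => ?_)
      by_cases hj : μ j = 0
      · rw [hj, pow_zero]
        exact one_mem _
      · exact pow_mem (hPF i j (hgv i t j ((mem_vars_iff_mem_support j).2
          ⟨μ, hμ, Finsupp.mem_support_iff.2 hj⟩))) _
    · rw [map_zero]
      exact zero_mem _
  have hterm : ∀ (c : Fin N → L) (γ : Fin r → L) i t,
      aeval c (g i t) * ∏ k, (Function.extend e γ (fun _ => 0) k) ^ n i t k =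
        aeval c (g' i t) * ∏ k, γ k ^ n i t (e k) := by
    intro c γ i t
    refine drop he γ (n i t) _ _ (fun h => ?_) (fun h => ?_)
    · rw [hg', if_pos h]
    · rw [hg', if_neg h, map_zero]
  obtain ⟨f, hf⟩ : ∃ f : Fin (m * s) → MvPolynomial (Fin N) K, ∀ i t,
      f (finProdFinEquiv (i, t)) = g' i t :=
    ⟨fun q => g' (finProdFinEquiv.symm q).1 (finProdFinEquiv.symm q).2, fun i t => by simp⟩
  have hf1 : ∀ q, (f q).support.card ≤ 1 := by
    intro q
    obtain ⟨⟨i, t⟩, rfl⟩ := finProdFinEquiv.surjective q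
    rw [hf]
    exact hg'1 i t
  obtain ⟨h3, h4⟩ := hE2 r δ hδ a b hab f hf1
  -- the rows
  obtain ⟨ρ, hρ⟩ := rows (Matrix.of fun i (k : Fin r) => β (e k) *
    aeval (Sum.elim b β) (pderiv (Sum.inr (e k)) (P i))) (by
      intro v hv
      have h5 := Matrix.eq_zero_of_mulVec_eq_zero hJ
        (v := Function.extend e (fun k => β (e k) * v k) (fun _ => 0)) (by
          rw [← hv]
          funext i
          change ∑ k, aeval (Sum.elim b β) (pderiv (Sum.inr k) (P i)) *
            Function.extend e (fun k => β (e k) * v k) (fun _ => 0) k =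
            ∑ k, β (e k) * aeval (Sum.elim b β) (pderiv (Sum.inr (e k)) (P i)) * v k
          refine (Fintype.sum_of_injective e he _ _ (fun k hk => ?_) (fun k => ?_)).symm
          · rw [Function.extend_apply' _ _ _ (fun h => hk h), mul_zero]
          · rw [he.extend_apply]
            ring)
      funext k
      have h6 := congrFun h5 (e k)
      rw [he.extend_apply] at h6
      exact (mul_eq_zero.1 h6).resolve_left (hne k))
  obtain ⟨c, hc⟩ : ∃ c : Fin r → Fin s → Fin (N + m * s), ∀ i t,
      c i t = Fin.natAdd N (finProdFinEquiv (ρ i, t)) := ⟨_, fun _ _ => rfl⟩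
  have hcv : ∀ (c' : Fin N → L) i t,
      (Fin.append c' fun i => aeval c' (f i) : Fin (N + m * s) → L) (c i t) =
        aeval c' (g' (ρ i) t) := by
    intro c' i t
    rw [hc, Fin.append_right, hf]
  -- the system and its Jacobian at `b`
  have hS : Sy c (fun i t k => (n (ρ i) t (e k) : ℤ))
      (Fin.append b fun i => aeval b (f i) : Fin (N + m * s) → L) (fun k => β (e k)) = 0 := by
    funext i
    change ∑ t, (Fin.append b fun i => aeval b (f i) : Fin (N + m * s) → L) (c i t) *
      ∏ k, β (e k) ^ ((n (ρ i) t (e k) : ℕ) : ℤ) = 0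
    rw [← h0 (ρ i), ev_terms (hgP (ρ i)) b β]
    refine Finset.sum_congr rfl fun t _ => ?_
    rw [hcv]
    conv_rhs => rw [hβe]
    rw [hterm]
    simp only [zpow_natCast]
  have hJ1 : Jy c (fun i t k => (n (ρ i) t (e k) : ℤ))
      (Fin.append b fun i => aeval b (f i) : Fin (N + m * s) → L) (fun k => β (e k)) =
      (Matrix.of fun i (k : Fin r) => β (e k) *
        aeval (Sum.elim b β) (pderiv (Sum.inr (e k)) (P i))).submatrix ρ id := by
    ext i k
    change ∑ t, (((n (ρ i) t (e k) : ℕ) : ℤ) : L) *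
      ((Fin.append b fun i => aeval b (f i) : Fin (N + m * s) → L) (c i t) *
        ∏ k, β (e k) ^ ((n (ρ i) t (e k) : ℕ) : ℤ)) =
      β (e k) * aeval (Sum.elim b β) (pderiv (Sum.inr (e k)) (P (ρ i)))
    rw [ev_der (hgP (ρ i)) b β (e k)]
    refine Finset.sum_congr rfl fun t _ => ?_
    rw [hcv]
    conv_rhs => rw [hβe]
    rw [hterm]
    simp only [zpow_natCast, Int.cast_natCast]
  have hJ2 : (Jy c (fun i t k => (n (ρ i) t (e k) : ℤ))
      (Fin.append b fun i => aeval b (f i) : Fin (N + m * s) → L) (fun k => β (e k))).det ≠ 0 := by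
    rw [hJ1]
    exact hρ
  obtain ⟨α, hs, hr⟩ := hE1 r δ hδ _ _ h3 (fun h => hnr ((h4 h).mono
    (Finset.single_le_sum (f := E2) (fun _ _ => Nat.zero_le _)
      (Finset.mem_range.2 (Nat.lt_succ_of_le hrm))))) c _ _ hne hS hJ2
  have hr1 : ∀ E' ≤ max (C1 r) (C2 r), ¬ RelV δ E'
      (Fin.append (Fin.append a fun i => aeval a (f i) : Fin (N + m * s) → L) α)
      (Fin.append (Fin.append b fun i => aeval b (f i) : Fin (N + m * s) → L)
        fun k => β (e k)) := fun E' hE' h => hr (h.mono hE')
  have hα0 : ∀ k, α k ≠ 0 := by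
    intro k
    have h5 := spz_ne hs (i := Fin.natAdd (N + m * s) k) (by
      rw [Fin.append_right]
      exact hne k)
    rwa [Fin.append_right] at h5
  -- the system at the generic point
  have hSa : Sy c (fun i t k => (n (ρ i) t (e k) : ℤ))
      (Fin.append a fun i => aeval a (f i) : Fin (N + m * s) → L) α = 0 := by
    funext i
    let Q : MvPolynomial (Fin (N + m * s + r)) K := ∑ t, monomial
      (Finsupp.single (Fin.castAdd r (c i t)) 1 +
        ∑ k, Finsupp.single (Fin.natAdd (N + m * s) k) (n (ρ i) t (e k))) 1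
    have hQc : Q.support.card ≤ s := by
      refine (Finset.card_le_card (support_sum (R := K))).trans
        (Finset.card_biUnion_le.trans ?_)
      refine (Finset.sum_le_card_nsmul _ _ 1 fun t _ => ?_).trans (by simp)
      exact (Finset.card_le_card support_monomial_subset).trans (Finset.card_singleton _).le
    have hQ : ∀ (c' : Fin (N + m * s) → L) (γ : Fin r → L), aeval (Fin.append c' γ) Q =
        Sy c (fun i t k => (n (ρ i) t (e k) : ℤ)) c' γ i := by
      intro c' γ
      change aeval (Fin.append c' γ) (∑ t, monomial (Finsupp.single (Fin.castAdd r (c i t)) 1 +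
        ∑ k, Finsupp.single (Fin.natAdd (N + m * s) k) (n (ρ i) t (e k))) (1 : K)) =
          ∑ t, c' (c i t) * ∏ k, γ k ^ ((n (ρ i) t (e k) : ℕ) : ℤ)
      rw [map_sum]
      refine Finset.sum_congr rfl fun t _ => ?_
      have h5 : (monomial (Finsupp.single (Fin.castAdd r (c i t)) 1 +
        ∑ k, Finsupp.single (Fin.natAdd (N + m * s) k) (n (ρ i) t (e k))) (1 : K)) =
          X (Fin.castAdd r (c i t)) * ∏ k, X (Fin.natAdd (N + m * s) k) ^ n (ρ i) t (e k) := by
        rw [← one_mul (1 : K), ← monomial_mul, monomial_sum_one]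
        simp only [X_pow_eq_monomial]
        rfl
      rw [h5, map_mul, map_prod, aeval_X, Fin.append_left]
      simp only [map_pow, aeval_X, Fin.append_right, zpow_natCast]
    rw [← hQ]
    by_contra hcon
    exact hr1 _ (le_max_right _ _) (hC2 r δ hδ _ _ hs Q hQc hcon (by
      rw [hQ]
      exact congrFun hS i))
  have hJa := det_ne_of_spz hs c (fun i t k => n (ρ i) t (e k)) hJ2
  have hαF : ∀ k, α k ∈ F := mem_of_zero F hF c _ _ (fun i t => by
    rw [hcv]
    exact hg'F (ρ i) t) α hα0 hSa hJa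
  -- the result
  have h6 := spz_poly hs (0 : MvPolynomial (Fin (N + m * s + r)) K)
  have h7 : ¬ RelV δ D (Fin.snoc (Fin.append (Fin.append a fun i => aeval a (f i) :
        Fin (N + m * s) → L) α) (aeval (Fin.append (Fin.append a fun i => aeval a (f i) :
        Fin (N + m * s) → L) α) (0 : MvPolynomial (Fin (N + m * s + r)) K)) :
          Fin (N + m * s + r + 1) → L)
      (Fin.snoc (Fin.append (Fin.append b fun i => aeval b (f i) : Fin (N + m * s) → L)
        fun k => β (e k)) (aeval (Fin.append (Fin.append b fun i => aeval b (f i) :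
        Fin (N + m * s) → L) fun k => β (e k)) (0 : MvPolynomial (Fin (N + m * s + r)) K))) :=
    fun h => hr1 _ (le_max_left _ _) (hC1 r δ hδ _ _ hs 0 (by simp) h)
  let σ : Fin (N + m) → Fin (N + m * s + r + 1) := Fin.addCases
    (fun j => (Fin.castAdd r (Fin.castAdd (m * s) j)).castSucc)
    (fun k => if h : ∃ k', e k' = k then (Fin.natAdd (N + m * s) h.choose).castSucc
      else Fin.last _)
  have key : ∀ (c' : Fin N → L) (γ : Fin r → L) (i : Fin (N + m)),
      (Fin.append c' (Function.extend e γ fun _ => 0) : Fin (N + m) → L) i =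
      (Fin.snoc (Fin.append (Fin.append c' fun i => aeval c' (f i) : Fin (N + m * s) → L) γ)
        (aeval (Fin.append (Fin.append c' fun i => aeval c' (f i) : Fin (N + m * s) → L) γ)
          (0 : MvPolynomial (Fin (N + m * s + r)) K)) : Fin (N + m * s + r + 1) → L) (σ i) := by
    intro c' γ i
    refine Fin.addCases (fun j => ?_) (fun k => ?_) i
    · have h8 : σ (Fin.castAdd m j) = (Fin.castAdd r (Fin.castAdd (m * s) j)).castSucc :=
        Fin.addCases_left _
      rw [h8, Fin.snoc_castSucc, Fin.append_left, Fin.append_left, Fin.append_left]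
    · have h8 : σ (Fin.natAdd N k) = if h : ∃ k', e k' = k then
          (Fin.natAdd (N + m * s) h.choose).castSucc else Fin.last _ := Fin.addCases_right _
      rw [h8, Fin.append_right]
      split_ifs with h
      · rw [Fin.snoc_castSucc, Fin.append_right]
        conv_lhs => rw [← h.choose_spec]
        rw [he.extend_apply]
      · rw [Fin.snoc_last, map_zero, Function.extend_apply' _ _ _ h]
  have keyb := key b fun k => β (e k)
  rw [← hβe] at keyb
  refine ⟨Function.extend e α fun _ => 0, fun k => ?_, spz_comp h6 σ (key a α) keyb,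
    fun h => h7 (relV_comp h σ (key a α) keyb)⟩
  by_cases hk : k ∈ Set.range e
  · obtain ⟨k', rfl⟩ := hk
    rw [he.extend_apply]
    exact hαF k'
  · rw [Function.extend_apply' _ _ _ (fun h => hk h)]
    exact zero_mem _

end Pool.Agent.FNY
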