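import Pool.Agent.FNY.Def
import Pool.Agent.FNR.Multi

/-! # Systems of sparse Laurent polynomials: algebra -/

namespace Pool.Agent.FNY

open MvPolynomial Pool.Agent.FN Pool.Agent.FNX Pool.Agent.FNR Pool.Agent.FNS

/-- elimination of one unknown in the logarithmic Jacobian -/
theorem exists_minor {L : Type} [Field L] {m : ℕ} (J : Matrix (Fin (m + 1)) (Fin (m + 1)) L)
    (hJ : J.det ≠ 0) (k0 : Fin (m + 1)) (Q : L) (hQ : Q ≠ 0) (q : Fin m → L) :
    ∃ i0 : Fin (m + 1), (Matrix.of fun i k : Fin m =>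
      Q * J (i0.succAbove i) (k0.succAbove k) - q k * J (i0.succAbove i) k0).det ≠ 0 := by
  by_contra hcon
  push Not at hcon
  let A : Matrix (Fin (m + 1)) (Fin (m + 1)) L := Matrix.of fun i =>
    k0.insertNth (α := fun _ => L) (J i k0) fun k => Q * J i (k0.succAbove k) - q k * J i k0
  let B : Matrix (Fin (m + 1)) (Fin (m + 1)) L := Matrix.of fun i =>
    k0.insertNth (α := fun _ => L) (J i k0) fun k => Q * J i (k0.succAbove k)
  let d : Fin (m + 1) → L := k0.insertNth (α := fun _ => L) 1 fun _ => Q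
  have hA0 : A.det = 0 := by
    rw [Matrix.det_succ_column A k0]
    refine Finset.sum_eq_zero fun i _ => ?_
    have h1 : A.submatrix i.succAbove k0.succAbove = Matrix.of fun i' k : Fin m =>
        Q * J (i.succAbove i') (k0.succAbove k) - q k * J (i.succAbove i') k0 := by
      ext i' k
      simp only [A, Matrix.submatrix_apply, Matrix.of_apply, Fin.insertNth_apply_succAbove]
    rw [h1, hcon i, mul_zero]
  have hAB : A.det = B.det := by
    rw [← Matrix.det_transpose A, ← Matrix.det_transpose B]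
    refine Matrix.det_eq_of_forall_row_eq_smul_add_const
      (k0.insertNth (α := fun _ => L) 0 fun k => - q k) k0 (by
        rw [Fin.insertNth_apply_same]) fun k i => ?_
    simp only [Matrix.transpose_apply, A, B, Matrix.of_apply]
    refine Fin.succAboveCases k0 ?_ (fun k => ?_) k
    · simp only [Fin.insertNth_apply_same]
      ring
    · simp only [Fin.insertNth_apply_same, Fin.insertNth_apply_succAbove]
      ring
  have hB : B = J * Matrix.diagonal d := by
    ext i k
    rw [Matrix.mul_diagonal]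
    refine Fin.succAboveCases k0 ?_ (fun k => ?_) k
    · simp only [B, d, Matrix.of_apply, Fin.insertNth_apply_same, mul_one]
    · simp only [B, d, Matrix.of_apply, Fin.insertNth_apply_succAbove]
      ring
  have hd : (∏ k, d k) ≠ 0 := by
    refine Finset.prod_ne_zero_iff.2 fun k _ => ?_
    refine Fin.succAboveCases k0 ?_ (fun k => ?_) k
    · simp only [d, Fin.insertNth_apply_same]
      exact one_ne_zero
    · simp only [d, Fin.insertNth_apply_succAbove]
      exact hQ
  have h2 : B.det ≠ 0 := by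
    rw [hB, Matrix.det_mul, Matrix.det_diagonal]
    exact mul_ne_zero hJ hd
  rw [hAB] at hA0
  exact h2 hA0

/-- the substitution -/
theorem prod_sub {L : Type} [Field L] {m : ℕ} (k0 : Fin (m + 1)) (g : L) (hg : g ≠ 0)
    (η : Fin m → L) (hη : ∀ k, η k ≠ 0) (Q : ℤ) (q : Fin m → ℤ) (β : Fin (m + 1) → L)
    (h0 : β k0 = g * ∏ k, η k ^ (- q k)) (h1 : ∀ k, β (k0.succAbove k) = η k ^ Q)
    (n : Fin (m + 1) → ℤ) :
    ∏ k, β k ^ n k = g ^ n k0 * ∏ k, η k ^ (Q * n (k0.succAbove k) - q k * n k0) := by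
  rw [Fin.prod_univ_succAbove _ k0, h0, mul_zpow, ← Finset.prod_zpow, mul_assoc,
    ← Finset.prod_mul_distrib]
  congr 1
  refine Finset.prod_congr rfl fun k _ => ?_
  rw [h1, ← zpow_mul, ← zpow_mul, ← zpow_add₀ (hη k)]
  congr 1
  ring

/-- the exponents made nonnegative -/
theorem lift_sy {K L : Type} [Field K] [CharZero K] [Field L] [IsAlgClosed L] [Algebra K L]
    (δ : Derivation K L L)
    (hL : ∀ {N m : ℕ} (a b : Fin N → L), Spz δ a b →
      ∀ (F : Fin m → MvPolynomial (Fin m) (MvPolynomial (Fin N × ℕ) K)) (β : Fin m → L),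
        (∀ i, eval₂ (aeval (jet δ b) : _ →ₐ[K] L).toRingHom β (F i) = 0) →
        (Matrix.of fun i k =>
          eval₂ (aeval (jet δ b) : _ →ₐ[K] L).toRingHom β (pderiv k (F i))).det ≠ 0 →
        ∃ α : Fin m → L, (∀ i, eval₂ (aeval (jet δ a) : _ →ₐ[K] L).toRingHom α (F i) = 0) ∧
          Spz δ (Fin.append a α) (Fin.append b β))
    {N m s : ℕ} (a b : Fin N → L) (hab : Spz δ a b) (c : Fin m → Fin s → Fin N)
    (n : Fin m → Fin s → Fin m → ℤ) (β : Fin m → L) (hβ : ∀ k, β k ≠ 0)
    (h0 : Sy c n b β = 0) (hJ : (Jy c n b β).det ≠ 0) :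
    ∃ α : Fin m → L, (∀ k, α k ≠ 0) ∧ Sy c n a α = 0 ∧
      Spz δ (Fin.append a α) (Fin.append b β) := by
  classical
  obtain ⟨M, hM⟩ : ∃ M : ℕ, ∀ i t k, 0 ≤ n i t k + (M : ℤ) := by
    refine ⟨∑ i, ∑ t, ∑ k, (n i t k).natAbs, fun i t k => ?_⟩
    have h1 : (n i t k).natAbs ≤ ∑ i, ∑ t, ∑ k, (n i t k).natAbs := by
      refine le_trans ?_ (Finset.single_le_sum (f := fun i => ∑ t, ∑ k, (n i t k).natAbs)
        (fun _ _ => Nat.zero_le _) (Finset.mem_univ i))
      refine le_trans ?_ (Finset.single_le_sum (f := fun t => ∑ k, (n i t k).natAbs)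
        (fun _ _ => Nat.zero_le _) (Finset.mem_univ t))
      exact Finset.single_le_sum (f := fun k => (n i t k).natAbs)
        (fun _ _ => Nat.zero_le _) (Finset.mem_univ k)
    omega
  choose ex hex using fun i t k => Int.eq_ofNat_of_zero_le (hM i t k)
  let d : Fin m → Fin s → (Fin m →₀ ℕ) := fun i t => Finsupp.equivFunOnFinite.symm (ex i t)
  have hd : ∀ i t k, d i t k = ex i t k := fun i t k => rfl
  let F : Fin m → MvPolynomial (Fin m) (MvPolynomial (Fin N × ℕ) K) :=
    fun i => ∑ t, monomial (d i t) (X (c i t, 0))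
  -- values of monomials
  have hmon : ∀ (y : Fin N → L) (z : Fin m → L), (∀ k, z k ≠ 0) → ∀ i t,
      eval₂ (aeval (jet δ y) : _ →ₐ[K] L).toRingHom z
        (monomial (d i t) (X (c i t, 0) : MvPolynomial (Fin N × ℕ) K)) =
        (∏ k, z k ^ M) * (y (c i t) * ∏ k, z k ^ n i t k) := by
    intro y z hz i t
    rw [eval₂_monomial, Finsupp.prod_fintype _ _ (fun k => pow_zero _)]
    have h1 : (aeval (jet δ y) : _ →ₐ[K] L).toRingHom (X (c i t, 0)) = y (c i t) := by
      change aeval (jet δ y) (X (c i t, 0)) = y (c i t)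
      rw [aeval_X]
      rfl
    rw [h1, mul_left_comm, ← Finset.prod_mul_distrib]
    congr 1
    refine Finset.prod_congr rfl fun k _ => ?_
    rw [hd, ← zpow_natCast (z k) (ex i t k), ← hex i t k, zpow_add₀ (hz k), zpow_natCast,
      mul_comm]
  have hF : ∀ (y : Fin N → L) (z : Fin m → L), (∀ k, z k ≠ 0) → ∀ i,
      eval₂ (aeval (jet δ y) : _ →ₐ[K] L).toRingHom z (F i) = (∏ k, z k ^ M) * Sy c n y z i := by
    intro y z hz i
    simp only [F]
    rw [eval₂_sum, Sy, Finset.mul_sum]
    exact Finset.sum_congr rfl fun t _ => hmon y z hz i t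
  have hpd : ∀ i k, β k * eval₂ (aeval (jet δ b) : _ →ₐ[K] L).toRingHom β (pderiv k (F i)) =
      (∏ k, β k ^ M) * Jy c n b β i k := by
    intro i k
    have h1 : β k * eval₂ (aeval (jet δ b) : _ →ₐ[K] L).toRingHom β (pderiv k (F i)) =
        eval₂ (aeval (jet δ b) : _ →ₐ[K] L).toRingHom β (X k * pderiv k (F i)) := by
      rw [eval₂_mul, eval₂_X]
    have h2 : (X k * pderiv k (F i) : MvPolynomial (Fin m) (MvPolynomial (Fin N × ℕ) K)) =
        ∑ t, ex i t k • monomial (d i t) (X (c i t, 0)) := by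
      simp only [F]
      rw [map_sum, Finset.mul_sum]
      exact Finset.sum_congr rfl fun t _ => X_mul_pderiv_monomial
    rw [h1, h2, eval₂_sum]
    have h3 : ∀ t, eval₂ (aeval (jet δ b) : _ →ₐ[K] L).toRingHom β
        (ex i t k • monomial (d i t) (X (c i t, 0) : MvPolynomial (Fin N × ℕ) K)) =
        (∏ k, β k ^ M) * ((n i t k : L) * (b (c i t) * ∏ k, β k ^ n i t k)) +
          (M : L) * ((∏ k, β k ^ M) * (b (c i t) * ∏ k, β k ^ n i t k)) := by
      intro t
      have h4 : eval₂ (aeval (jet δ b) : _ →ₐ[K] L).toRingHom β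
          (ex i t k • monomial (d i t) (X (c i t, 0) : MvPolynomial (Fin N × ℕ) K)) =
          ex i t k • eval₂ (aeval (jet δ b) : _ →ₐ[K] L).toRingHom β
            (monomial (d i t) (X (c i t, 0) : MvPolynomial (Fin N × ℕ) K)) := by
        rw [← coe_eval₂Hom, map_nsmul]
      have h5 : (ex i t k : L) = (n i t k : L) + (M : L) := by
        have h6 := congrArg (Int.cast : ℤ → L) (hex i t k)
        push_cast at h6
        exact h6.symm
      rw [h4, hmon b β hβ i t, nsmul_eq_mul, h5]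
      ring
    rw [Finset.sum_congr rfl fun t _ => h3 t, Finset.sum_add_distrib, ← Finset.mul_sum,
      ← Finset.mul_sum, ← Finset.mul_sum]
    have h7 : ∑ t, b (c i t) * ∏ k, β k ^ n i t k = 0 := congrFun h0 i
    rw [h7, mul_zero, mul_zero, add_zero]
    rfl
  have hP : (∏ k, β k ^ M) ≠ 0 := Finset.prod_ne_zero_iff.2 fun k _ => pow_ne_zero _ (hβ k)
  obtain ⟨α, h1, h2⟩ := hL a b hab F β (fun i => by
      rw [hF b β hβ, h0]
      exact mul_zero _) (by
      have h3 : (Matrix.of fun i k =>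
          eval₂ (aeval (jet δ b) : _ →ₐ[K] L).toRingHom β (pderiv k (F i))) =
          (∏ k, β k ^ M) • (Jy c n b β * Matrix.diagonal fun k => (β k)⁻¹) := by
        ext i k
        rw [Matrix.smul_apply, Matrix.mul_diagonal, smul_eq_mul, ← mul_assoc, ← hpd i k,
          Matrix.of_apply]
        have := hβ k
        field_simp
      rw [h3, Matrix.det_smul, Matrix.det_mul, Matrix.det_diagonal]
      refine mul_ne_zero (pow_ne_zero _ hP) (mul_ne_zero hJ ?_)
      exact Finset.prod_ne_zero_iff.2 fun k _ => inv_ne_zero (hβ k))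
  have hα : ∀ k, α k ≠ 0 := by
    intro k
    have h3 : (Fin.append b β : Fin (N + m) → L) (Fin.natAdd N k) ≠ 0 := by
      rw [Fin.append_right]
      exact hβ k
    have h4 := spz_ne h2 h3
    rwa [Fin.append_right] at h4
  refine ⟨α, hα, ?_, h2⟩
  funext i
  have h3 := h1 i
  rw [hF a α hα] at h3
  have h4 : (∏ k, α k ^ M) ≠ 0 := Finset.prod_ne_zero_iff.2 fun k _ => pow_ne_zero _ (hα k)
  exact (mul_eq_zero.1 h3).resolve_left h4

end Pool.Agent.FNY
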