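import Pool.Agent.FNY.SsyA
import Pool.Agent.FNY.Laur
import Pool.Agent.FNS.CaseR

/-! # Systems of sparse Laurent polynomials: induction on the number of unknowns -/

namespace Pool.Agent.FNY

open MvPolynomial Pool.Agent.FN Pool.Agent.FNX Pool.Agent.FNR Pool.Agent.FNS

/-- a monomial in the unknowns is a zero of a polynomial of bounded size -/
def RootM {K L : Type} [Field K] [Field L] [Algebra K L] (δ : Derivation K L L) (D1 : ℕ)
    {N m : ℕ} (b : Fin N → L) (β : Fin m → L) (q : Fin m → ℤ) : Prop :=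
  ∃ R : Fin (D1 + 1) → MvPolynomial (Fin N × ℕ) K, (∀ k, Bdd D1 (R k)) ∧
    (∃ k, aeval (jet δ b) (R k) ≠ 0) ∧
      ∑ k, aeval (jet δ b) (R k) * (∏ k, β k ^ q k) ^ (k : ℕ) = 0

theorem RootM.neg {K L : Type} [Field K] [Field L] [Algebra K L] {δ : Derivation K L L} {D1 : ℕ}
    {N m : ℕ} {b : Fin N → L} {β : Fin m → L} {q : Fin m → ℤ} (hβ : ∀ k, β k ≠ 0)
    (h : RootM δ D1 b β q) : RootM δ D1 b β (-q) := by
  obtain ⟨R, h1, ⟨k0, h2⟩, h3⟩ := h
  refine ⟨fun k => R k.rev, fun k => h1 _, ⟨k0.rev, by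
    change aeval (jet δ b) (R k0.rev.rev) ≠ 0
    rw [Fin.rev_rev]
    exact h2⟩, ?_⟩
  have hg : (∏ k, β k ^ q k) ≠ 0 := Finset.prod_ne_zero_iff.2 fun k _ => zpow_ne_zero _ (hβ k)
  have h4 : ∏ k, β k ^ (-q) k = (∏ k, β k ^ q k)⁻¹ := by
    rw [← Finset.prod_inv_distrib]
    refine Finset.prod_congr rfl fun k _ => ?_
    rw [Pi.neg_apply, zpow_neg]
  rw [h4]
  have h5 : (∑ k : Fin (D1 + 1), aeval (jet δ b) (R k.rev) * ((∏ k, β k ^ q k)⁻¹) ^ (k : ℕ)) *
      (∏ k, β k ^ q k) ^ D1 = 0 := by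
    rw [← h3, Finset.sum_mul]
    refine Fintype.sum_equiv Fin.revPerm _ _ fun k => ?_
    rw [Fin.revPerm_apply, Fin.val_rev, mul_assoc]
    congr 1
    have h6 : (k : ℕ) ≤ D1 := Nat.lt_succ_iff.1 k.2
    obtain ⟨e, he⟩ := Nat.exists_eq_add_of_le h6
    have h7 : D1 + 1 - ((k : ℕ) + 1) = e := by omega
    have h8 : ∀ x : L, x ^ D1 = x ^ (k : ℕ) * x ^ e := fun x => by
      rw [← pow_add, ← he]
    rw [h7, h8, inv_pow, ← mul_assoc, inv_mul_cancel₀ (pow_ne_zero _ hg), one_mul]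
  exact (mul_eq_zero.1 h5).resolve_right (pow_ne_zero _ hg)

/-- the statement of `ssy` for `m` unknowns -/
def SsyP (K L : Type) [Field K] [Field L] [Algebra K L] (m : ℕ) : Prop :=
  ∀ s N D : ℕ, ∃ E : ℕ, ∀ δ : Derivation K L L, CK δ → ∀ a b : Fin N → L, Spz δ a b →
      ¬ RelV δ E a b → ∀ (c : Fin m → Fin s → Fin N) (n : Fin m → Fin s → Fin m → ℤ)
        (β : Fin m → L), (∀ k, β k ≠ 0) → Sy c n b β = 0 → (Jy c n b β).det ≠ 0 →
          ∃ α : Fin m → L, Spz δ (Fin.append a α) (Fin.append b β) ∧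
            ¬ RelV δ D (Fin.append a α) (Fin.append b β)

theorem case_rM (K L : Type) [Field K] [CharZero K] [Field L] [IsAlgClosed L] [Algebra K L]
    (m : ℕ) (ih : SsyP K L m) (s N D D1 : ℕ) : ∃ E : ℕ, ∀ δ : Derivation K L L, CK δ →
      ∀ a b : Fin N → L, Spz δ a b → ¬ RelV δ E a b →
        ∀ (c : Fin (m + 1) → Fin s → Fin N) (n : Fin (m + 1) → Fin s → Fin (m + 1) → ℤ)
          (β : Fin (m + 1) → L), (∀ k, β k ≠ 0) → Sy c n b β = 0 → (Jy c n b β).det ≠ 0 →
            ∀ (q : Fin (m + 1) → ℤ) (k0 : Fin (m + 1)), 0 < q k0 → RootM δ D1 b β q →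
          ∃ α : Fin (m + 1) → L, Spz δ (Fin.append a α) (Fin.append b β) ∧
            ¬ RelV δ D (Fin.append a α) (Fin.append b β) := by
  classical
  obtain ⟨E4, h4⟩ := laur (m + 1) (N + 1 + m * s + m) (m + 1)
  obtain ⟨E3, h3⟩ := ih s (N + 1 + m * s) (E4 D)
  obtain ⟨E2, h2⟩ := laur 2 (N + 1) (m * s)
  obtain ⟨E1, h1⟩ := case_r 0 N (E2 E3) D1
  refine ⟨E1, ?_⟩
  intro δ hδ a b hab hnr c n β hβ hS hJ q k0 hq hR
  obtain ⟨R, hR1, hR2, hR3⟩ := hR
  obtain ⟨Q, hQ⟩ := Int.eq_ofNat_of_zero_le hq.le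
  have hQ0 : Q ≠ 0 := by
    rintro rfl
    rw [hQ] at hq
    exact lt_irrefl _ hq
  choose η hη using fun k : Fin m =>
    IsAlgClosed.exists_pow_nat_eq (β (k0.succAbove k)) (Nat.pos_of_ne_zero hQ0)
  have hη0 : ∀ k, η k ≠ 0 := by
    intro k h
    apply hβ (k0.succAbove k)
    rw [← hη k, h, zero_pow hQ0]
  let g : L := β k0 * ∏ k, η k ^ q (k0.succAbove k)
  have hg0 : g ≠ 0 :=
    mul_ne_zero (hβ k0) (Finset.prod_ne_zero_iff.2 fun k _ => zpow_ne_zero _ (hη0 k))
  have hgQ : g ^ Q = ∏ k, β k ^ q k := by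
    rw [Fin.prod_univ_succAbove _ k0, mul_pow, ← Finset.prod_pow, hQ]
    have h9 : β k0 ^ (Int.ofNat Q) = β k0 ^ Q := zpow_natCast _ _
    try rw [zpow_natCast]
    try rw [h9]
    congr 1
    refine Finset.prod_congr rfl fun k _ => ?_
    rw [← hη k, ← zpow_natCast, ← zpow_natCast, ← zpow_mul, ← zpow_mul, mul_comm]
  obtain ⟨γ, -, hs1, hr1⟩ := h1 δ hδ a b hab hnr Fin.elim0 Fin.elim0 Fin.elim0 g hg0
    (by rw [Finset.univ_eq_empty, Finset.sum_empty]) Q hQ0
    ⟨R, hR1, hR2, by rw [hgQ]; exact hR3⟩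
  have hβ0 : β k0 = g * ∏ k, η k ^ (- q (k0.succAbove k)) := by
    simp only [g]
    rw [mul_assoc, ← Finset.prod_mul_distrib]
    have h5 : ∀ k, η k ^ q (k0.succAbove k) * η k ^ (- q (k0.succAbove k)) = 1 := fun k => by
      rw [← zpow_add₀ (hη0 k), add_neg_cancel, zpow_zero]
    rw [Finset.prod_congr rfl fun k _ => h5 k, Finset.prod_const_one, mul_one]
  have hβk : ∀ k, β (k0.succAbove k) = η k ^ (Q : ℤ) := fun k => by
    rw [zpow_natCast, hη]
  -- the row
  obtain ⟨i0, hi0⟩ := exists_minor (Jy c n b β) hJ k0 (Q : L)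
    (by
      have hz : algebraMap K L (Q : K) ≠ 0 := by
        rw [Ne, map_eq_zero_iff _ (algebraMap K L).injective]
        exact_mod_cast hQ0
      rwa [map_natCast] at hz) (fun k => ((q (k0.succAbove k) : ℤ) : L))
  -- the new coefficients
  let ι2 : Fin (m * s) → Fin 2 → Fin (N + 1) := fun j =>
    ![Fin.castSucc (c (i0.succAbove (finProdFinEquiv.symm j).1) (finProdFinEquiv.symm j).2),
      Fin.last N]
  let e2 : Fin (m * s) → Fin 2 → ℤ := fun j =>
    ![1, n (i0.succAbove (finProdFinEquiv.symm j).1) (finProdFinEquiv.symm j).2 k0]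
  obtain ⟨hs2, hr2⟩ := h2 δ hδ _ _ hs1 ι2 e2 (by
    intro j x hx
    fin_cases x
    · simp [e2] at hx
    · simp only [ι2]
      change (Fin.snoc b g : Fin (N + 1) → L) (Fin.last N) ≠ 0
      rw [Fin.snoc_last]
      exact hg0)
  have hnr2 : ¬ RelV δ E3 _ _ := fun h => hr1 (hr2 _ h)
  have hval2 : ∀ (y : Fin N → L) (u : L) (i : Fin m) (t : Fin s),
      (Fin.append (Fin.snoc y u : Fin (N + 1) → L)
        (fun j => ∏ x, (Fin.snoc y u : Fin (N + 1) → L) (ι2 j x) ^ e2 j x) :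
          Fin (N + 1 + m * s) → L) (Fin.natAdd (N + 1) (finProdFinEquiv (i, t))) =
        y (c (i0.succAbove i) t) * u ^ n (i0.succAbove i) t k0 := by
    intro y u i t
    rw [Fin.append_right, Fin.prod_univ_two]
    simp only [ι2, e2, Equiv.symm_apply_apply, Matrix.cons_val_zero, Matrix.cons_val_one,
      Fin.snoc_castSucc, Fin.snoc_last, zpow_one]
  let c' : Fin m → Fin s → Fin (N + 1 + m * s) := fun i t =>
    Fin.natAdd (N + 1) (finProdFinEquiv (i, t))
  let n' : Fin m → Fin s → Fin m → ℤ := fun i t k =>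
    (Q : ℤ) * n (i0.succAbove i) t (k0.succAbove k) -
      q (k0.succAbove k) * n (i0.succAbove i) t k0
  have hterm : ∀ (i : Fin m) (t : Fin s),
      (Fin.append (Fin.snoc b g : Fin (N + 1) → L)
        (fun j => ∏ x, (Fin.snoc b g : Fin (N + 1) → L) (ι2 j x) ^ e2 j x) :
          Fin (N + 1 + m * s) → L) (c' i t) * ∏ k, η k ^ n' i t k =
        b (c (i0.succAbove i) t) * ∏ k, β k ^ n (i0.succAbove i) t k := by
    intro i t
    simp only [c', n']
    rw [hval2 b g i t, prod_sub k0 g hg0 η hη0 (Q : ℤ) (fun k => q (k0.succAbove k)) β hβ0 hβk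
      (n (i0.succAbove i) t), mul_assoc]
  obtain ⟨α', hs3, hr3⟩ := h3 δ hδ _ _ hs2 hnr2 c' n' η hη0
    (by
      funext i
      simp only [Sy]
      rw [Finset.sum_congr rfl fun t _ => hterm i t]
      exact congrFun hS (i0.succAbove i))
    (by
      have h6 : Jy c' n' (Fin.append (Fin.snoc b g : Fin (N + 1) → L)
          (fun j => ∏ x, (Fin.snoc b g : Fin (N + 1) → L) (ι2 j x) ^ e2 j x) :
            Fin (N + 1 + m * s) → L) η = Matrix.of fun i k : Fin m =>
          (Q : L) * Jy c n b β (i0.succAbove i) (k0.succAbove k) -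
            ((q (k0.succAbove k) : ℤ) : L) * Jy c n b β (i0.succAbove i) k0 := by
        ext i k
        simp only [Jy, Matrix.of_apply]
        rw [Finset.mul_sum, Finset.mul_sum, ← Finset.sum_sub_distrib]
        refine Finset.sum_congr rfl fun t _ => ?_
        rw [hterm i t]
        simp only [n']
        push_cast
        ring
      rw [h6]
      exact hi0)
  -- the unknowns
  let ι4 : Fin (m + 1) → Fin (m + 1) → Fin (N + 1 + m * s + m) := fun _ =>
    Fin.cons (Fin.castAdd m (Fin.castAdd (m * s) (Fin.last N)))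
      (fun k => Fin.natAdd (N + 1 + m * s) k)
  let e4 : Fin (m + 1) → Fin (m + 1) → ℤ := k0.insertNth (α := fun _ => Fin (m + 1) → ℤ)
    (Fin.cons 1 fun k => - q (k0.succAbove k)) (fun k => Fin.cons 0 (Pi.single k (Q : ℤ)))
  obtain ⟨hs4, hr4⟩ := h4 δ hδ _ _ hs3 ι4 e4 (by
    intro j x _
    refine Fin.cases ?_ (fun k => ?_) x
    · simp only [ι4, Fin.cons_zero, Fin.append_left, Fin.snoc_last]
      exact hg0
    · simp only [ι4, Fin.cons_succ, Fin.append_right]
      exact hη0 k)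
  have hB4 : ∀ j, (∏ x, (Fin.append (Fin.append (Fin.snoc b g : Fin (N + 1) → L)
      (fun j => ∏ x, (Fin.snoc b g : Fin (N + 1) → L) (ι2 j x) ^ e2 j x) :
        Fin (N + 1 + m * s) → L) η : Fin (N + 1 + m * s + m) → L) (ι4 j x) ^ e4 j x) = β j := by
    intro j
    rw [Fin.prod_univ_succ]
    simp only [ι4, Fin.cons_zero, Fin.cons_succ, Fin.append_left, Fin.append_right, Fin.snoc_last]
    refine Fin.succAboveCases k0 ?_ (fun k => ?_) j
    · simp only [e4, Fin.insertNth_apply_same, Fin.cons_zero, Fin.cons_succ, zpow_one]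
      exact hβ0.symm
    · simp only [e4, Fin.insertNth_apply_succAbove, Fin.cons_zero, Fin.cons_succ, zpow_zero,
        one_mul]
      rw [Finset.prod_eq_single k, Pi.single_eq_same, hβk]
      · intro k' _ hk'
        rw [Pi.single_eq_of_ne hk', zpow_zero]
      · intro h
        exact absurd (Finset.mem_univ k) h
  let f : Fin (N + (m + 1)) → Fin (N + 1 + m * s + m + (m + 1)) :=
    Fin.append (fun i => Fin.castAdd (m + 1) (Fin.castAdd m (Fin.castAdd (m * s) i.castSucc)))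
      (fun j => Fin.natAdd (N + 1 + m * s + m) j)
  refine ⟨fun j => ∏ x, (Fin.append (Fin.append (Fin.snoc a γ : Fin (N + 1) → L)
      (fun j => ∏ x, (Fin.snoc a γ : Fin (N + 1) → L) (ι2 j x) ^ e2 j x) :
        Fin (N + 1 + m * s) → L) α' : Fin (N + 1 + m * s + m) → L) (ι4 j x) ^ e4 j x, ?_, ?_⟩
  · refine spz_comp hs4 f (fun i => ?_) (fun i => ?_)
    · refine Fin.addCases (fun i => ?_) (fun i => ?_) i
      · simp only [f, Fin.append_left, Fin.snoc_castSucc]
      · simp only [f, Fin.append_right]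
    · refine Fin.addCases (fun i => ?_) (fun i => ?_) i
      · simp only [f, Fin.append_left, Fin.snoc_castSucc]
      · simp only [f, Fin.append_right]
        exact (hB4 i).symm
  · intro h
    refine hr3 (hr4 D (relV_comp h f (fun i => ?_) (fun i => ?_)))
    · refine Fin.addCases (fun i => ?_) (fun i => ?_) i
      · simp only [f, Fin.append_left, Fin.snoc_castSucc]
      · simp only [f, Fin.append_right]
    · refine Fin.addCases (fun i => ?_) (fun i => ?_) i
      · simp only [f, Fin.append_left, Fin.snoc_castSucc]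
      · simp only [f, Fin.append_right]
        exact (hB4 i).symm

theorem ssy_of (K L : Type) [Field K] [CharZero K] [Field L] [IsAlgClosed L] [Algebra K L]
    (hL : ∀ (δ : Derivation K L L) {N m : ℕ} (a b : Fin N → L), Spz δ a b →
      ∀ (F : Fin m → MvPolynomial (Fin m) (MvPolynomial (Fin N × ℕ) K)) (β : Fin m → L),
        (∀ i, eval₂ (aeval (jet δ b) : _ →ₐ[K] L).toRingHom β (F i) = 0) →
        (Matrix.of fun i k =>
          eval₂ (aeval (jet δ b) : _ →ₐ[K] L).toRingHom β (pderiv k (F i))).det ≠ 0 →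
        ∃ α : Fin m → L, (∀ i, eval₂ (aeval (jet δ a) : _ →ₐ[K] L).toRingHom α (F i) = 0) ∧
          Spz δ (Fin.append a α) (Fin.append b β))
    (hG : ∀ (m s N D : ℕ) (c : Fin m → Fin s → Fin N), ∃ D1 E : ℕ, ∀ δ : Derivation K L L,
      CK δ → ∀ a b : Fin N → L, Spz δ a b → ¬ RelV δ E a b →
        ∀ (n : Fin m → Fin s → Fin m → ℤ) (α β : Fin m → L), (∀ k, α k ≠ 0) → (∀ k, β k ≠ 0) →
          Sy c n a α = 0 → Sy c n b β = 0 → (Jy c n b β).det ≠ 0 →
          (∀ q : Fin m → ℤ, q ≠ 0 → ¬ ∃ R : Fin (D1 + 1) → MvPolynomial (Fin N × ℕ) K,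
            (∀ k, Bdd D1 (R k)) ∧ (∃ k, aeval (jet δ b) (R k) ≠ 0) ∧
              ∑ k, aeval (jet δ b) (R k) * (∏ k, β k ^ q k) ^ (k : ℕ) = 0) →
          Spz δ (Fin.append a α) (Fin.append b β) →
            ¬ RelV δ D (Fin.append a α) (Fin.append b β)) (m : ℕ) : SsyP K L m := by
  classical
  induction m with
  | zero =>
    intro s N D
    refine ⟨D, fun δ hδ a b hab hnr c n β hβ hS hJ => ⟨Fin.elim0, ?_, ?_⟩⟩
    · refine spz_comp hab (fun j : Fin (N + 0) => j) (fun j => ?_) (fun j => ?_)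
      · rw [Fin.append_right_nil _ _ rfl]
        rfl
      · rw [Fin.append_right_nil _ _ rfl]
        rfl
    · intro h
      refine hnr (relV_comp h (fun j : Fin (N + 0) => j) (fun j => ?_) (fun j => ?_))
      · rw [Fin.append_right_nil _ _ rfl]
        rfl
      · rw [Fin.append_right_nil _ _ rfl]
        rfl
  | succ m ih =>
    intro s N D
    choose D1 EG hEG using fun c => hG (m + 1) s N D c
    choose ER hER using fun D1 => case_rM K L m ih s N D D1
    refine ⟨∑ c : Fin (m + 1) → Fin s → Fin N, (EG c + ER (D1 c)), ?_⟩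
    intro δ hδ a b hab hnr c n β hβ hS hJ
    have hle : EG c + ER (D1 c) ≤
        ∑ c : Fin (m + 1) → Fin s → Fin N, (EG c + ER (D1 c)) :=
      Finset.single_le_sum (f := fun c : Fin (m + 1) → Fin s → Fin N => EG c + ER (D1 c))
        (fun _ _ => Nat.zero_le _) (Finset.mem_univ c)
    have hnG : ¬ RelV δ (EG c) a b := fun h => hnr (h.mono ((Nat.le_add_right _ _).trans hle))
    have hnR : ¬ RelV δ (ER (D1 c)) a b :=
      fun h => hnr (h.mono ((Nat.le_add_left _ _).trans hle))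
    by_cases hq : ∃ q : Fin (m + 1) → ℤ, q ≠ 0 ∧ RootM δ (D1 c) b β q
    · obtain ⟨q, hq0, hR⟩ := hq
      obtain ⟨k0, hk0⟩ := Function.ne_iff.1 hq0
      rcases lt_or_gt_of_ne hk0 with h | h
      · refine hER (D1 c) δ hδ a b hab hnR c n β hβ hS hJ (-q) k0 ?_ (hR.neg hβ)
        rw [Pi.neg_apply]
        exact neg_pos.2 h
      · exact hER (D1 c) δ hδ a b hab hnR c n β hβ hS hJ q k0 h hR
    · obtain ⟨α, hα, hSa, hs⟩ := lift_sy δ (hL δ) a b hab c n β hβ hS hJ
      exact ⟨α, hs, hEG c δ hδ a b hab hnG n α β hα hβ hSa hS hJ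
        (fun q hq0 hR => hq ⟨q, hq0, hR⟩) hs⟩

end Pool.Agent.FNY
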