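import Pool.Agent.FNY.Def
import Pool.Agent.FNR.Multi
import Pool.Agent.FNY.LiftSys

/-! # A system of sparse Laurent polynomials as a system of polynomials -/

set_option autoImplicit false

namespace Pool.Agent.FNY

open MvPolynomial Pool.Agent.FN Pool.Agent.FNX Pool.Agent.FNR

variable {K L : Type} [Field K] [Field L] [Algebra K L]

/-- the shift of the exponents -/
def syM {m s : ℕ} (n : Fin m → Fin s → Fin m → ℤ) (k : Fin m) : ℕ :=
  ∑ i, ∑ t, (n i t k).natAbs

theorem syM_nonneg {m s : ℕ} (n : Fin m → Fin s → Fin m → ℤ) (i : Fin m) (t : Fin s)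
    (k : Fin m) : 0 ≤ n i t k + syM n k := by
  have h1 : (n i t k).natAbs ≤ syM n k :=
    (Finset.single_le_sum (f := fun t => (n i t k).natAbs) (fun _ _ => Nat.zero_le _)
      (Finset.mem_univ t)).trans
      (Finset.single_le_sum (f := fun i => ∑ t, (n i t k).natAbs) (fun _ _ => Nat.zero_le _)
        (Finset.mem_univ i))
  omega

/-- the system, times a monomial -/
noncomputable def syP (K : Type) [Field K] {m s N : ℕ} (c : Fin m → Fin s → Fin N)
    (n : Fin m → Fin s → Fin m → ℤ) (i : Fin m) :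
    MvPolynomial (Fin m) (MvPolynomial (Fin N × ℕ) K) :=
  ∑ t, monomial (Finsupp.equivFunOnFinite.symm fun k => (n i t k + syM n k).toNat)
    (X (c i t, 0))

theorem eval_mono (δ : Derivation K L L) {m s N : ℕ} (c : Fin m → Fin s → Fin N)
    (n : Fin m → Fin s → Fin m → ℤ) (a : Fin N → L) (α : Fin m → L) (hα : ∀ k, α k ≠ 0)
    (i : Fin m) (t : Fin s) :
    eval₂ (aeval (jet δ a) : MvPolynomial (Fin N × ℕ) K →ₐ[K] L).toRingHom α
      (monomial (Finsupp.equivFunOnFinite.symm fun k => (n i t k + syM n k).toNat)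
        (X (c i t, 0))) =
      (∏ k, α k ^ syM n k) * (a (c i t) * ∏ k, α k ^ n i t k) := by
  rw [eval₂_monomial, Finsupp.prod_fintype _ _ (fun k => pow_zero _)]
  have h1 : (aeval (jet δ a) : MvPolynomial (Fin N × ℕ) K →ₐ[K] L).toRingHom (X (c i t, 0)) =
      a (c i t) := by
    change aeval (jet δ a) (X (c i t, 0) : MvPolynomial (Fin N × ℕ) K) = _
    rw [aeval_X]
    rfl
  rw [h1]
  have h2 : ∏ k, α k ^ (Finsupp.equivFunOnFinite.symm fun k => (n i t k + syM n k).toNat) k =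
      (∏ k, α k ^ syM n k) * ∏ k, α k ^ n i t k := by
    rw [← Finset.prod_mul_distrib]
    refine Finset.prod_congr rfl fun k _ => ?_
    rw [Finsupp.coe_equivFunOnFinite_symm, ← zpow_natCast, Int.toNat_of_nonneg (syM_nonneg n i t k),
      zpow_add₀ (hα k), zpow_natCast, mul_comm]
  rw [h2]
  ring

theorem eval_syP (δ : Derivation K L L) {m s N : ℕ} (c : Fin m → Fin s → Fin N)
    (n : Fin m → Fin s → Fin m → ℤ) (a : Fin N → L) (α : Fin m → L) (hα : ∀ k, α k ≠ 0)
    (i : Fin m) :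
    eval₂ (aeval (jet δ a) : MvPolynomial (Fin N × ℕ) K →ₐ[K] L).toRingHom α (syP K c n i) =
      (∏ k, α k ^ syM n k) * Sy c n a α i := by
  unfold syP Sy
  rw [eval₂_sum, Finset.mul_sum]
  exact Finset.sum_congr rfl fun t _ => eval_mono δ c n a α hα i t

theorem eval_pderiv_syP (δ : Derivation K L L) {m s N : ℕ} (c : Fin m → Fin s → Fin N)
    (n : Fin m → Fin s → Fin m → ℤ) (a : Fin N → L) (α : Fin m → L) (hα : ∀ k, α k ≠ 0)
    (i k : Fin m) (h0 : Sy c n a α i = 0) :
    eval₂ (aeval (jet δ a) : MvPolynomial (Fin N × ℕ) K →ₐ[K] L).toRingHom α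
      (pderiv k (syP K c n i)) = ((∏ k, α k ^ syM n k) * (α k)⁻¹) * Jy c n a α i k := by
  have h1 : α k * eval₂ (aeval (jet δ a) : MvPolynomial (Fin N × ℕ) K →ₐ[K] L).toRingHom α
      (pderiv k (syP K c n i)) = (∏ k, α k ^ syM n k) * Jy c n a α i k := by
    have h2 : α k * eval₂ (aeval (jet δ a) : MvPolynomial (Fin N × ℕ) K →ₐ[K] L).toRingHom α
        (pderiv k (syP K c n i)) =
        eval₂ (aeval (jet δ a) : MvPolynomial (Fin N × ℕ) K →ₐ[K] L).toRingHom α
          (X k * pderiv k (syP K c n i)) := by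
      rw [eval₂_mul, eval₂_X]
    rw [h2]
    unfold syP
    rw [map_sum, Finset.mul_sum, eval₂_sum]
    have h3 : ∀ t, eval₂ (aeval (jet δ a) : MvPolynomial (Fin N × ℕ) K →ₐ[K] L).toRingHom α
        (X k * pderiv k (monomial (Finsupp.equivFunOnFinite.symm
          fun k => (n i t k + syM n k).toNat) (X (c i t, 0)))) =
        (∏ k, α k ^ syM n k) * ((n i t k : L) * (a (c i t) * ∏ k, α k ^ n i t k)) +
          ((∏ k, α k ^ syM n k) * (syM n k : L)) * (a (c i t) * ∏ k, α k ^ n i t k) := by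
      intro t
      rw [X_mul_pderiv_monomial, nsmul_eq_mul, eval₂_mul, eval_mono δ c n a α hα i t]
      have h4 : eval₂ (aeval (jet δ a) : MvPolynomial (Fin N × ℕ) K →ₐ[K] L).toRingHom α
          ((((Finsupp.equivFunOnFinite.symm fun k => (n i t k + syM n k).toNat) k : ℕ) :
            MvPolynomial (Fin m) (MvPolynomial (Fin N × ℕ) K))) = (n i t k : L) + syM n k := by
        rw [Finsupp.coe_equivFunOnFinite_symm]
        change eval₂Hom _ α _ = _
        rw [map_natCast]
        have h5 : (((n i t k + syM n k).toNat : ℤ) : L) = ((n i t k + syM n k : ℤ) : L) := by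
          rw [Int.toNat_of_nonneg (syM_nonneg n i t k)]
        rw [Int.cast_natCast] at h5
        rw [h5]
        push_cast
        ring
      rw [h4]
      ring
    rw [Finset.sum_congr rfl fun t _ => h3 t, Finset.sum_add_distrib, ← Finset.mul_sum,
      ← Finset.mul_sum]
    have h6 : ∑ t, a (c i t) * ∏ k, α k ^ n i t k = 0 := h0
    rw [h6, mul_zero, add_zero]
    rfl
  have h7 := hα k
  field_simp
  rw [mul_comm, h1]

theorem det_syP (δ : Derivation K L L) {m s N : ℕ} (c : Fin m → Fin s → Fin N)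
    (n : Fin m → Fin s → Fin m → ℤ) (a : Fin N → L) (α : Fin m → L) (hα : ∀ k, α k ≠ 0)
    (h0 : Sy c n a α = 0) (hJ : (Jy c n a α).det ≠ 0) :
    (Matrix.of fun i k => eval₂ (aeval (jet δ a) : MvPolynomial (Fin N × ℕ) K →ₐ[K] L).toRingHom α
      (pderiv k (syP K c n i))).det ≠ 0 := by
  have h1 : (Matrix.of fun i k => eval₂
      (aeval (jet δ a) : MvPolynomial (Fin N × ℕ) K →ₐ[K] L).toRingHom α
        (pderiv k (syP K c n i))) =
      Matrix.of fun i k => ((∏ k, α k ^ syM n k) * (α k)⁻¹) * Jy c n a α i k := by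
    ext i k
    exact eval_pderiv_syP δ c n a α hα i k (congrFun h0 i)
  rw [h1, Matrix.det_mul_row]
  refine mul_ne_zero (Finset.prod_ne_zero_iff.2 fun k _ => mul_ne_zero ?_ (inv_ne_zero (hα k))) hJ
  exact Finset.prod_ne_zero_iff.2 fun k _ => pow_ne_zero _ (hα k)

/-- the lift for Laurent systems, from the lift for polynomial systems -/
theorem lift_sy_of (δ : Derivation K L L) {m s N : ℕ} (a b : Fin N → L)
    (hl : ∀ (F : Fin m → MvPolynomial (Fin m) (MvPolynomial (Fin N × ℕ) K)) (β : Fin m → L),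
      (∀ i, eval₂ (aeval (jet δ b) : _ →ₐ[K] L).toRingHom β (F i) = 0) →
      (Matrix.of fun i k =>
        eval₂ (aeval (jet δ b) : _ →ₐ[K] L).toRingHom β (pderiv k (F i))).det ≠ 0 →
      ∃ α : Fin m → L, (∀ i, eval₂ (aeval (jet δ a) : _ →ₐ[K] L).toRingHom α (F i) = 0) ∧
        Spz δ (Fin.append a α) (Fin.append b β))
    (c : Fin m → Fin s → Fin N) (n : Fin m → Fin s → Fin m → ℤ) (β : Fin m → L)
    (hβ : ∀ k, β k ≠ 0) (h0 : Sy c n b β = 0) (hJ : (Jy c n b β).det ≠ 0) :
    ∃ α : Fin m → L, (∀ k, α k ≠ 0) ∧ Sy c n a α = 0 ∧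
      Spz δ (Fin.append a α) (Fin.append b β) := by
  obtain ⟨α, hα, hs⟩ := hl (syP K c n) β
    (fun i => by rw [eval_syP δ c n b β hβ i, congrFun h0 i]; simp)
    (det_syP δ c n b β hβ h0 hJ)
  have hα0 : ∀ k, α k ≠ 0 := by
    intro k hk
    apply hβ k
    have h1 := hs (X (Fin.natAdd N k, 0)) (by
      rw [aeval_X]
      change (Fin.append a α : Fin (N + m) → L) (Fin.natAdd N k) = 0
      rw [Fin.append_right, hk])
    rw [aeval_X] at h1
    change (Fin.append b β : Fin (N + m) → L) (Fin.natAdd N k) = 0 at h1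
    rw [Fin.append_right] at h1
    exact h1
  refine ⟨α, hα0, ?_, hs⟩
  funext i
  have h1 := hα i
  rw [eval_syP δ c n a α hα0 i] at h1
  exact (mul_eq_zero.1 h1).resolve_left
    (Finset.prod_ne_zero_iff.2 fun k _ => pow_ne_zero _ (hα0 k))

/-- the lift for Laurent systems -/
theorem lift_sy {K L : Type} [Field K] [CharZero K] [Field L] [IsAlgClosed L] [Algebra K L]
    (δ : Derivation K L L) {m s N : ℕ} (a b : Fin N → L) (h : Spz δ a b)
    (c : Fin m → Fin s → Fin N) (n : Fin m → Fin s → Fin m → ℤ) (β : Fin m → L)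
    (hβ : ∀ k, β k ≠ 0) (h0 : Sy c n b β = 0) (hJ : (Jy c n b β).det ≠ 0) :
    ∃ α : Fin m → L, (∀ k, α k ≠ 0) ∧ Sy c n a α = 0 ∧
      Spz δ (Fin.append a α) (Fin.append b β) :=
  lift_sy_of δ a b (fun F β h0 hJ => lift_sys δ a b h F β h0 hJ) c n β hβ h0 hJ

end Pool.Agent.FNY
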